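import Pool.Agent.DOR.Defs

/-!
DOR-Blk. Block colourings modulo `g` (lower bound for the number of colours).
-/

set_option autoImplicit false

namespace Pool.Agent.DOR

theorem mm_pos {b g : ℕ} (hg : 0 < g) (hb : ¬ g ∣ b) : 0 < mm b g := by
  have ht : 0 < Nat.gcd b g := Nat.gcd_pos_of_pos_right _ hg
  have hd : Nat.gcd b g ∣ g := Nat.gcd_dvd_right b g
  have hne : Nat.gcd b g ≠ g := fun h => hb (h ▸ Nat.gcd_dvd_left b g)
  obtain ⟨q, hq⟩ := hd
  have hq2 : 2 ≤ q := by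
    rcases q with _ | _ | q
    · omega
    · exact absurd (by simpa using hq.symm) hne
    · omega
  unfold mm
  refine Nat.mul_pos ht (Nat.div_pos ?_ (by omega))
  calc 2 * Nat.gcd b g = Nat.gcd b g * 2 := mul_comm _ _
    _ ≤ Nat.gcd b g * q := Nat.mul_le_mul_left _ hq2
    _ = g := hq.symm

private theorem two_mm_le (b g : ℕ) : 2 * mm b g ≤ g := by
  unfold mm
  rw [← mul_assoc]
  exact Nat.mul_div_le g (2 * Nat.gcd b g)

theorem lf_pos {n b g : ℕ} (hn : 0 < n) (hg : 0 < g) (hb : ¬ g ∣ b) : 0 < lf n b g := by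
  have h := mm_pos hg hb
  unfold lf
  exact Nat.div_pos (by omega) hn

private theorem n_lf {n b g : ℕ} (hn : 0 < n) (hg : 0 < g) (hb : ¬ g ∣ b) :
    n * (lf n b g - 1) < mm b g := by
  have h := mm_pos hg hb
  have h1 : n * lf n b g ≤ mm b g + n - 1 := Nat.mul_div_le _ _
  have h2 := lf_pos hn hg hb
  rw [Nat.mul_sub, mul_one]
  omega

private theorem lf_le {n b g : ℕ} (hn : 0 < n) (hg : 0 < g) (hb : ¬ g ∣ b) : lf n b g ≤ g := by
  have h1 := n_lf hn hg hb
  have h2 := two_mm_le b g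
  have h3 : lf n b g - 1 ≤ n * (lf n b g - 1) := Nat.le_mul_of_pos_left _ hn
  omega

private theorem ex_u {b g : ℕ} :
    ∃ u : ℤ, ((u * b : ℤ) : ZMod g) = ((mm b g : ℕ) : ZMod g) := by
  generalize hw : g / (2 * Nat.gcd b g) = w
  refine ⟨Nat.gcdA b g * (w : ℕ), ?_⟩
  have h := Nat.gcd_eq_gcd_ab b g
  have h2 : ((Nat.gcd b g : ℤ) : ZMod g) = (b : ZMod g) * ((Nat.gcdA b g : ℤ) : ZMod g) := by
    rw [h]
    push_cast
    simp
  unfold mm
  rw [hw]
  push_cast at h2 ⊢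
  rw [h2]
  ring

private theorem core {n b g L k : ℕ} {u : ℤ} {s : ZMod g} (f : ℕ → ℕ)
    (hu : ((u * b : ℤ) : ZMod g) = ((mm b g : ℕ) : ZMod g))
    (hf : ∀ x, (f x : ZMod g) = (u : ZMod g) * x - s)
    (hL : n * (L - 1) < mm b g)
    (x y : Fin n → ℕ) (hx : ∀ i, k ≤ f (x i) ∧ f (x i) ≤ k + (L - 1))
    (hy : ∀ i, k ≤ f (y i) ∧ f (y i) ≤ k + (L - 1)) :
    ∑ i, x i ≠ ∑ i, y i + b := by
  intro he
  have h2 := two_mm_le b g
  have hD : ((∑ i, ((f (x i) : ℤ) - (f (y i) : ℤ)) : ℤ) : ZMod g) = ((mm b g : ℕ) : ZMod g) := by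
    rw [← hu]
    push_cast
    simp only [hf]
    have e : (((∑ i, x i : ℕ) : ZMod g)) = ((∑ i, y i + b : ℕ) : ZMod g) := by rw [he]
    push_cast at e
    have e2 : ∀ i, ((u : ZMod g) * (x i : ZMod g) - s) - ((u : ZMod g) * (y i : ZMod g) - s) =
        (u : ZMod g) * (x i : ZMod g) - (u : ZMod g) * (y i : ZMod g) := fun i => by ring
    simp only [e2]
    rw [Finset.sum_sub_distrib, ← Finset.mul_sum, ← Finset.mul_sum, e]
    ring
  have hb1 : |∑ i, ((f (x i) : ℤ) - (f (y i) : ℤ))| ≤ (n * (L - 1) : ℕ) := by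
    refine (Finset.abs_sum_le_sum_abs _ _).trans ?_
    have : ∀ i ∈ (Finset.univ : Finset (Fin n)), |(f (x i) : ℤ) - (f (y i) : ℤ)| ≤ ((L - 1 : ℕ) : ℤ) := by
      intro i _
      have h1 := hx i
      have h3 := hy i
      rw [abs_le]
      omega
    refine (Finset.sum_le_card_nsmul _ _ _ this).trans ?_
    simp
  rw [abs_le] at hb1
  have hdv : (g : ℤ) ∣ ((mm b g : ℕ) : ℤ) - ∑ i, ((f (x i) : ℤ) - (f (y i) : ℤ)) := by
    rw [← ZMod.intCast_zmod_eq_zero_iff_dvd] 
    push_cast at hD ⊢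
    rw [hD]
    ring
  have hlt : ((n * (L - 1) : ℕ) : ℤ) < ((mm b g : ℕ) : ℤ) := by exact_mod_cast hL
  have h3 : (2 : ℤ) * ((mm b g : ℕ) : ℤ) ≤ (g : ℤ) := by exact_mod_cast h2
  have h4 := Int.le_of_dvd (by linarith) hdv
  linarith

theorem con {n b g r : ℕ} (hn : 0 < n) (hg : 0 < g) (hb : ¬ g ∣ b) (hr : g ≤ r * lf n b g) :
    ∃ c : ℕ → Fin r, ¬ Mono n b c := by
  obtain ⟨u, hu⟩ := ex_u (b := b) (g := g)
  have : NeZero g := ⟨hg.ne'⟩
  have hL := lf_pos hn hg hb
  set f : ℕ → ℕ := fun x => ((u : ZMod g) * x).val with hfd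
  have hlt : ∀ x, f x / lf n b g < r := fun x => by
    rw [Nat.div_lt_iff_lt_mul hL]
    exact lt_of_lt_of_le (ZMod.val_lt _) hr
  refine ⟨fun x => ⟨f x / lf n b g, hlt x⟩, ?_⟩
  rintro ⟨x, y, k, hxy, he⟩
  have hk : ∀ m : ℕ, (⟨f m / lf n b g, hlt m⟩ : Fin r) = k →
      lf n b g * k ≤ f m ∧ f m ≤ lf n b g * k + (lf n b g - 1) := by
    intro m hm
    have h1 : f m / lf n b g = (k : ℕ) := congrArg Fin.val hm
    have h2 := Nat.div_add_mod (f m) (lf n b g)
    have h3 := Nat.mod_lt (f m) hL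
    rw [h1] at h2
    omega
  refine core (s := 0) (k := lf n b g * k) f hu (fun m => ?_) (n_lf hn hg hb) x y
    (fun i => hk _ (hxy i).2.2.1) (fun i => hk _ (hxy i).2.2.2) he
  rw [hfd]
  simp

theorem conSet {n b g : ℕ} (hn : 0 < n) (hg : 0 < g) (hb : ¬ g ∣ b) :
    ∃ P : Finset (ZMod g), lf n b g ≤ P.card ∧
      ∀ x y : Fin n → ℕ, (∀ i, (x i : ZMod g) ∈ P) → (∀ i, (y i : ZMod g) ∈ P) →
        ∑ i, x i ≠ ∑ i, y i + b := by
  obtain ⟨u, hu⟩ := ex_u (b := b) (g := g)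
  have : NeZero g := ⟨hg.ne'⟩
  have hL := lf_pos hn hg hb
  have hLg := lf_le hn hg hb
  set L := lf n b g with hLd
  let P : ZMod g → Finset (ZMod g) := fun s => Finset.univ.filter fun p => ((u : ZMod g) * p - s).val < L
  have hcard : (Finset.univ.filter fun z : ZMod g => z.val < L).card = L := by
    have : (Finset.univ.filter fun z : ZMod g => z.val < L) =
        (Finset.range L).image (fun j : ℕ => (j : ZMod g)) := by
      ext z
      simp only [Finset.mem_filter, Finset.mem_univ, true_and, Finset.mem_image, Finset.mem_range]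
      constructor
      · intro h
        exact ⟨z.val, h, ZMod.natCast_zmod_val z⟩
      · rintro ⟨j, hj, rfl⟩
        rw [ZMod.val_natCast, Nat.mod_eq_of_lt (lt_of_lt_of_le hj hLg)]
        exact hj
    rw [this, Finset.card_image_of_injOn, Finset.card_range]
    intro a ha c hc hac
    simp only [Finset.coe_range, Set.mem_Iio] at ha hc
    have := congrArg ZMod.val hac
    simp only [ZMod.val_natCast] at this
    rwa [Nat.mod_eq_of_lt (lt_of_lt_of_le ha hLg), Nat.mod_eq_of_lt (lt_of_lt_of_le hc hLg)] at this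
  have hsum : ∑ s : ZMod g, (P s).card = g * L := by
    have h1 : ∀ s : ZMod g, (P s).card = ∑ p : ZMod g, if ((u : ZMod g) * p - s).val < L then 1 else 0 := by
      intro s
      exact Finset.card_filter _ _
    simp only [h1]
    rw [Finset.sum_comm]
    have h2 : ∀ p : ZMod g, (∑ s : ZMod g, if ((u : ZMod g) * p - s).val < L then 1 else 0) = L := by
      intro p
      refine Eq.trans ?_ hcard
      rw [Finset.card_filter]
      exact (Equiv.subLeft ((u : ZMod g) * p)).sum_comp (fun z : ZMod g => if z.val < L then 1 else 0)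
    simp only [h2]
    simp [ZMod.card]
  obtain ⟨s, hs⟩ : ∃ s, L ≤ (P s).card := by
    by_contra hcon
    push Not at hcon
    have hlt : ∑ s : ZMod g, (P s).card < ∑ s : ZMod g, L :=
      Finset.sum_lt_sum_of_nonempty Finset.univ_nonempty fun s _ => hcon s
    rw [hsum] at hlt
    simp [ZMod.card] at hlt
  refine ⟨P s, hs, fun x y hx hy => ?_⟩
  set f : ℕ → ℕ := fun m => ((u : ZMod g) * m - s).val with hfd
  have hk : ∀ m : ℕ, (m : ZMod g) ∈ P s → 0 ≤ f m ∧ f m ≤ 0 + (L - 1) := by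
    intro m hm
    have h1 : ((u : ZMod g) * m - s).val < L := (Finset.mem_filter.1 hm).2
    have h2 : f m = ((u : ZMod g) * m - s).val := rfl
    omega
  refine core (s := s) (k := 0) f hu (fun m => ?_) (n_lf hn hg hb) x y
    (fun i => hk _ (hx i)) (fun i => hk _ (hy i))
  rw [hfd]
  exact ZMod.natCast_zmod_val _

end Pool.Agent.DOR
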