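import Pool.Agent.DOR.Defs

/-!
DOR-Col. Some colour class of an `r`-colouring has upper Banach density at least `1/r`, and the colour classes
of a colouring without monochromatic solution are solution free.
-/

set_option autoImplicit false

namespace Pool.Agent.DOR

/-- colour class, as a set of integers -/
def cls {r : ℕ} (c : ℕ → Fin r) (k : Fin r) : Set ℤ := {z | ∃ m : ℕ, 0 < m ∧ (m : ℤ) = z ∧ c m = k}

private theorem cnt_cls {r : ℕ} (c : ℕ → Fin r) (k : Fin r) (M : ℕ) :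
    cnt (cls c k) 1 M = ((Finset.Icc 1 M).filter (fun m => c m = k)).card := by
  have h : cls c k ∩ Set.Ico (1 : ℤ) (1 + M) =
      (fun m : ℕ => (m : ℤ)) '' (((Finset.Icc 1 M).filter (fun m => c m = k) : Finset ℕ) : Set ℕ) := by
    ext z
    simp only [cls, Set.mem_inter_iff, Set.mem_setOf_eq, Set.mem_Ico, Set.mem_image,
      Finset.coe_filter, Finset.mem_Icc]
    constructor
    · rintro ⟨⟨m, hm, rfl, hc⟩, h1, h2⟩
      exact ⟨m, ⟨⟨by omega, by omega⟩, hc⟩, rfl⟩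
    · rintro ⟨m, ⟨⟨h1, h2⟩, hc⟩, rfl⟩
      exact ⟨⟨m, by omega, rfl, hc⟩, by omega, by omega⟩
  unfold cnt
  rw [h, Set.ncard_image_of_injective _ Nat.cast_injective, Set.ncard_coe_finset]

private theorem sum_cnt {r : ℕ} (c : ℕ → Fin r) (M : ℕ) :
    ∑ k : Fin r, cnt (cls c k) 1 M = M := by
  have h := Finset.card_eq_sum_card_fiberwise (s := Finset.Icc 1 M) (t := Finset.univ) (f := c)
    (fun _ _ => Finset.mem_coe.2 (Finset.mem_univ _))
  rw [Nat.card_Icc, Nat.add_sub_cancel] at h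
  rw [Finset.sum_congr rfl fun k _ => cnt_cls c k M]
  exact h.symm

theorem col {r : ℕ} (c : ℕ → Fin r) : ∃ k : Fin r, UD (cls c k) (1 / (r : ℝ)) := by
  by_contra hcon
  push Not at hcon
  have h1 : ∀ k : Fin r, ∃ ε : ℝ, 0 < ε ∧ ∃ N : ℕ, ∀ M : ℕ, N ≤ M →
      (cnt (cls c k) 1 M : ℝ) < (1 / (r : ℝ) - ε) * M := by
    intro k
    have h2 := hcon k
    unfold UD at h2
    push Not at h2
    obtain ⟨ε, hε, N, h3⟩ := h2
    exact ⟨ε, hε, N, fun M hM => h3 M hM 1⟩
  choose ε hε N hN using h1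
  have hr : 0 < r := lt_of_le_of_lt (Nat.zero_le _) (c 0).2
  have hr' : (0 : ℝ) < r := by exact_mod_cast hr
  haveI : Nonempty (Fin r) := ⟨c 0⟩
  set M := 1 + ∑ k : Fin r, N k with hM
  have hle : ∀ k, N k ≤ M := by
    intro k
    have := Finset.single_le_sum (f := N) (fun i _ => Nat.zero_le _) (Finset.mem_univ k)
    omega
  have hMpos : (0 : ℝ) < M := by
    have : 0 < M := by omega
    exact_mod_cast this
  have h4 : ∑ k : Fin r, (cnt (cls c k) 1 M : ℝ) < ∑ k : Fin r, (1 / (r : ℝ)) * M := by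
    refine Finset.sum_lt_sum_of_nonempty Finset.univ_nonempty fun k _ => ?_
    refine lt_of_lt_of_le (hN k M (hle k)) ?_
    refine mul_le_mul_of_nonneg_right ?_ hMpos.le
    linarith [hε k]
  have h5 : ∑ k : Fin r, (cnt (cls c k) 1 M : ℝ) = M := by
    exact_mod_cast sum_cnt c M
  rw [h5, Finset.sum_const, Finset.card_univ, Fintype.card_fin, nsmul_eq_mul] at h4
  have h6 : (r : ℝ) * (1 / (r : ℝ) * M) = M := by
    field_simp
  rw [h6] at h4
  exact lt_irrefl _ h4

theorem free_cls {r n b : ℕ} {c : ℕ → Fin r} (h : ¬ Mono n b c) (k : Fin r) :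
    Free (cls c k) n (b : ℤ) := by
  intro u v hu hv heq
  apply h
  choose x hx1 hx2 hx3 using hu
  choose y hy1 hy2 hy3 using hv
  refine ⟨x, y, k, fun i => ⟨hx1 i, hy1 i, hx3 i, hy3 i⟩, ?_⟩
  have h1 : ∑ i, u i = ((∑ i, x i : ℕ) : ℤ) := by
    rw [Nat.cast_sum]
    exact Finset.sum_congr rfl fun i _ => (hx2 i).symm
  have h2 : ∑ i, v i = ((∑ i, y i : ℕ) : ℤ) := by
    rw [Nat.cast_sum]
    exact Finset.sum_congr rfl fun i _ => (hy2 i).symm
  rw [h1, h2] at heq
  exact_mod_cast heq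

end Pool.Agent.DOR
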