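import Pool.Agent.DOR.Defs

/-!
DOR-Sub. The approximate stabiliser is an exact subgroup `gℤ` (Defs only).

The set of the `x` with `μ (B \ sh x B) ≤ 2η` is a subgroup by the dichotomy, nontrivial by the Bonferroni inequality.
-/

set_option autoImplicit false

open MeasureTheory

namespace Pool.Agent.DOR

variable {X : Type*} [MeasurableSpace X] {μ : Measure X}

/-- Bonferroni inequality for a finite family with small pairwise intersections -/
theorem bonferroni [IsProbabilityMeasure μ] {N : ℕ} {A : Fin N → Set X} {β δ : ℝ} (hδ : 0 ≤ δ)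
    (hA : ∀ i, MeasurableSet (A i)) (hβ : ∀ i, β ≤ μ.real (A i))
    (hd : ∀ i j, i ≠ j → μ.real (A i ∩ A j) ≤ δ) :
    N * β - (N : ℝ) ^ 2 * δ / 2 ≤ μ.real (⋃ i, A i) := by
  induction N with
  | zero =>
    simp
  | succ N ih =>
    have ih' := ih (A := fun i => A i.castSucc) (fun i => hA _) (fun i => hβ _)
      (fun i j hij => hd _ _ (fun e => hij (Fin.castSucc_injective _ e)))
    set L := A (Fin.last N) with hL
    have hun : (⋃ i, A i) = (⋃ i : Fin N, A i.castSucc) ∪ L := by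
      ext x
      simp only [Set.mem_iUnion, Set.mem_union]
      constructor
      · rintro ⟨i, hi⟩
        induction i using Fin.lastCases with
        | last => exact Or.inr hi
        | cast i => exact Or.inl ⟨i, hi⟩
      · rintro (⟨i, hi⟩ | h)
        · exact ⟨_, hi⟩
        · exact ⟨_, h⟩
    have h1 := measureReal_union_add_inter (μ := μ) (s := ⋃ i : Fin N, A i.castSucc) (t := L)
      (hA _)
    have h2 : μ.real ((⋃ i : Fin N, A i.castSucc) ∩ L) ≤ N * δ := by
      rw [Set.iUnion_inter]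
      refine (measureReal_iUnion_fintype_le _).trans ?_
      refine (Finset.sum_le_sum (g := fun _ => δ) fun i _ => ?_).trans ?_
      · exact hd _ _ (Fin.castSucc_lt_last i).ne
      · simp
    have h3 := hβ (Fin.last N)
    rw [← hL] at h3
    rw [hun]
    push_cast
    nlinarith [ih', h1, h2, h3]

theorem subgrp (σ : Sys μ) [IsProbabilityMeasure μ] {B : Set X} (hB : MeasurableSet B)
    {c η ε : ℝ} (hc : 0 < c) (hcB : c ≤ μ.real B) (hη : 0 ≤ η) (hε : 0 < ε) (h1 : 4 * η + 2 * ε < c)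
    (h2 : ε * (2 / c + 1) ^ 2 < 1)
    (hd : ∀ x : ℤ, μ.real (B ∩ σ.sh x B) ≤ 2 * ε ∨ μ.real (B \ σ.sh x B) ≤ 2 * η) :
    ∃ g : ℕ, 0 < g ∧ (g : ℝ) ≤ 2 / c + 1 ∧
      (∀ x : ℤ, (g : ℤ) ∣ x → μ.real (B \ σ.sh x B) ≤ 2 * η) ∧
      (∀ x : ℤ, ¬ (g : ℤ) ∣ x → μ.real (B ∩ σ.sh x B) ≤ 2 * ε) := by
  have hsplit : ∀ x : ℤ, μ.real (B ∩ σ.sh x B) + μ.real (B \ σ.sh x B) = μ.real B := fun x =>
    measureReal_inter_add_sdiff (σ.meas_sh x hB)
  have hfar : ∀ x : ℤ, μ.real (B \ σ.sh x B) ≤ 2 * η → 2 * ε < μ.real (B ∩ σ.sh x B) := by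
    intro x hx
    have := hsplit x
    linarith
  have hnear : ∀ x : ℤ, 2 * ε < μ.real (B ∩ σ.sh x B) → μ.real (B \ σ.sh x B) ≤ 2 * η := by
    intro x hx
    exact (hd x).resolve_left (not_le.2 hx)
  have hneg : ∀ x : ℤ, μ.real (B \ σ.sh x B) ≤ 2 * η → μ.real (B \ σ.sh (-x) B) ≤ 2 * η := by
    intro x hx
    apply hnear
    have h3 := hfar x hx
    have h4 : μ.real (B ∩ σ.sh (-x) B) = μ.real (B ∩ σ.sh x B) := by
      rw [← σ.real_sh x (hB.inter (σ.meas_sh (-x) hB)), σ.sh_inter, σ.sh_sh, add_neg_cancel,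
        σ.sh_zero, Set.inter_comm]
    rw [h4]
    exact h3
  let H : AddSubgroup ℤ :=
    { carrier := {x | μ.real (B \ σ.sh x B) ≤ 2 * η}
      zero_mem' := by
        rw [Set.mem_ofPred_eq, σ.sh_zero, Set.sdiff_self, measureReal_empty]
        positivity
      add_mem' := by
        intro x y hx hy
        rw [Set.mem_ofPred_eq] at hx hy ⊢
        apply hnear
        have h5 : B \ σ.sh (x + y) B ⊆ (B \ σ.sh x B) ∪ σ.sh x (B \ σ.sh y B) := by
          intro z hz
          by_cases hzx : z ∈ σ.sh x B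
          · right
            rw [σ.sh_diff, σ.sh_sh]
            exact ⟨hzx, hz.2⟩
          · left
            exact ⟨hz.1, hzx⟩
        have h6 : μ.real (B \ σ.sh (x + y) B) ≤ 4 * η := by
          refine (measureReal_mono h5).trans ((measureReal_union_le _ _).trans ?_)
          rw [σ.real_sh x (hB.diff (σ.meas_sh y hB))]
          linarith
        have h7 := hsplit (x + y)
        linarith
      neg_mem' := by
        intro x hx
        exact hneg x hx }
  have hmem : ∀ x : ℤ, x ∈ H ↔ μ.real (B \ σ.sh x B) ≤ 2 * η := fun x => Iff.rfl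
  obtain ⟨a, ha⟩ := Int.subgroup_cyclic H
  have hdvd : ∀ x : ℤ, x ∈ H ↔ ((a.natAbs : ℕ) : ℤ) ∣ x := by
    intro x
    rw [ha, ← AddSubgroup.zmultiples_eq_closure, Int.mem_zmultiples_iff, Int.natAbs_dvd]
  -- a nonzero element of `H`
  have hex : ∃ x : ℤ, x ≠ 0 ∧ (x.natAbs : ℝ) ≤ 2 / c + 1 ∧ x ∈ H := by
    by_contra hcon
    push Not at hcon
    set N : ℕ := ⌈2 / c⌉₊ with hN
    have hN1 : 2 / c ≤ N := Nat.le_ceil _
    have hN2 : (N : ℝ) ≤ 2 / c + 1 := (Nat.ceil_lt_add_one (by positivity)).le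
    have hb := bonferroni (μ := μ) (N := N) (A := fun i : Fin N => σ.sh (i : ℤ) B)
      (β := c) (δ := 2 * ε) (by positivity) (fun i => σ.meas_sh _ hB)
      (fun i => by rw [σ.real_sh _ hB]; exact hcB) (by
        intro i j hij
        have e1 : σ.sh (i : ℤ) B ∩ σ.sh (j : ℤ) B =
            σ.sh (i : ℤ) (B ∩ σ.sh ((j : ℤ) - (i : ℤ)) B) := by
          rw [σ.sh_inter, σ.sh_sh, add_sub_cancel]
        rw [e1, σ.real_sh _ (hB.inter (σ.meas_sh _ hB))]
        by_contra hlt
        have h8 := hnear _ (not_le.1 hlt)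
        refine hcon ((j : ℤ) - (i : ℤ)) ?_ ?_ h8
        · intro e
          apply hij
          apply Fin.ext
          omega
        · refine le_trans ?_ hN2
          have hi := i.isLt
          have hj := j.isLt
          have : ((j : ℤ) - (i : ℤ)).natAbs ≤ N := by omega
          exact_mod_cast this)
    have hle : μ.real (⋃ i : Fin N, σ.sh (i : ℤ) B) ≤ 1 := measureReal_le_one
    have h9 : (2 : ℝ) ≤ N * c := by
      rw [div_le_iff₀ hc] at hN1
      exact hN1
    have h10 : (N : ℝ) ^ 2 ≤ (2 / c + 1) ^ 2 := pow_le_pow_left₀ (Nat.cast_nonneg N) hN2 2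
    have h11 : ε * (N : ℝ) ^ 2 < 1 := lt_of_le_of_lt (mul_le_mul_of_nonneg_left h10 hε.le) h2
    nlinarith [hb, hle, h9, h11]
  obtain ⟨x, hx0, hxle, hxH⟩ := hex
  have hax : a.natAbs ∣ x.natAbs := by
    have := (hdvd x).1 hxH
    exact Int.natCast_dvd.1 this
  have hx0' : 0 < x.natAbs := Int.natAbs_pos.2 hx0
  refine ⟨a.natAbs, Nat.pos_of_dvd_of_pos hax hx0', ?_, ?_, ?_⟩
  · refine le_trans ?_ hxle
    exact_mod_cast Nat.le_of_dvd hx0' hax
  · intro y hy
    exact (hmem y).1 ((hdvd y).2 hy)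
  · intro y hy
    by_contra hlt
    exact hy ((hdvd y).1 ((hmem y).2 (hnear y (not_le.1 hlt))))

end Pool.Agent.DOR
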