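import Pool.Agent.DOR.Erg
import Pool.Agent.DOR.Sub

/-!
DOR-Full. The measure of a set with stabiliser `gℤ` is almost `1/g`; lower bound for `μ(E+B)`.
-/

set_option autoImplicit false

open MeasureTheory

namespace Pool.Agent.DOR

variable {X : Type*} [MeasurableSpace X] {μ : Measure X}

theorem full (σ : Sys μ) [IsProbabilityMeasure μ] {B : Set X} (hB : MeasurableSet B) {g : ℕ}
    (hg : 0 < g) {δ : ℝ} (hper : ∀ x : ℤ, (g : ℤ) ∣ x → μ.real (B \ σ.sh x B) ≤ δ) :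
    μ.real B * (1 - g * μ.real B) ≤ δ := by
  set U : Set X := ⋃ i ∈ Finset.range g, σ.sh (i : ℤ) B with hU
  have hUm : MeasurableSet U :=
    Finset.measurableSet_biUnion _ fun i _ => σ.meas_sh (i : ℤ) hB
  have hUle : μ.real U ≤ g * μ.real B := by
    have h1 : μ.real U ≤ ∑ i ∈ Finset.range g, μ.real (σ.sh (i : ℤ) B) :=
      measureReal_biUnion_finset_le _ _
    have h2 : ∑ i ∈ Finset.range g, μ.real (σ.sh (i : ℤ) B) = g * μ.real B := by
      have e1 : ∀ i ∈ Finset.range g, μ.real (σ.sh (i : ℤ) B) = μ.real B :=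
        fun i _ => σ.real_sh (i : ℤ) hB
      rw [Finset.sum_congr rfl e1, Finset.sum_const, Finset.card_range, nsmul_eq_mul]
    linarith
  have hW : μ.real Uᶜ = 1 - μ.real U := probReal_compl_eq_one_sub hUm
  have key : ∀ x : ℤ, μ.real (σ.sh x B ∩ Uᶜ) ≤ δ := by
    intro x
    have hgz : (0 : ℤ) < g := by exact_mod_cast hg
    obtain ⟨i, hi⟩ : ∃ i : ℕ, (i : ℤ) = x % g :=
      ⟨(x % g).toNat, Int.toNat_of_nonneg (Int.emod_nonneg x hgz.ne')⟩
    have hig : i < g := by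
      have h1 := Int.emod_lt_of_pos x hgz
      rw [← hi] at h1
      exact_mod_cast h1
    have hx : x = (i : ℤ) + g * (x / g) := by
      rw [hi]
      exact (Int.emod_add_mul_ediv x g).symm
    set j : ℤ := x / g with hj
    have hCm : MeasurableSet (σ.sh (g * j) B \ B) := (σ.meas_sh _ hB).diff hB
    have hsub : σ.sh x B ∩ Uᶜ ⊆ σ.sh (i : ℤ) (σ.sh (g * j) B \ B) := by
      rintro ω ⟨h1, h2⟩
      rw [Sys.sh_diff, Sys.sh_sh, ← hx]
      refine ⟨h1, ?_⟩
      intro h3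
      apply h2
      rw [hU]
      exact Set.mem_biUnion (Finset.mem_range.2 hig) h3
    have hC : σ.sh (g * j) B \ B = σ.sh (g * j) (B \ σ.sh (-(g * j)) B) := by
      rw [Sys.sh_diff, Sys.sh_sh, add_neg_cancel, Sys.sh_zero]
    have hm : MeasurableSet (B \ σ.sh (-((g : ℤ) * j)) B) := hB.diff (σ.meas_sh _ hB)
    calc μ.real (σ.sh x B ∩ Uᶜ) ≤ μ.real (σ.sh (i : ℤ) (σ.sh (g * j) B \ B)) :=
          measureReal_mono hsub
      _ = μ.real (σ.sh (g * j) B \ B) := σ.real_sh _ hCm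
      _ = μ.real (σ.sh (g * j) (B \ σ.sh (-(g * j)) B)) := by rw [← hC]
      _ = μ.real (B \ σ.sh (-(g * j)) B) := σ.real_sh _ hm
      _ ≤ δ := hper _ (by rw [dvd_neg]; exact dvd_mul_right _ _)
  have h1 := small_of σ hB hUm.compl key
  have h2 : μ.real B * (1 - g * μ.real B) ≤ μ.real B * μ.real Uᶜ := by
    apply mul_le_mul_of_nonneg_left _ measureReal_nonneg
    rw [hW]
    linarith
  linarith

theorem bonf (σ : Sys μ) [IsProbabilityMeasure μ] {B : Set X} (hB : MeasurableSet B) {g : ℕ}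
    (hg : 0 < g) {δ : ℝ} (hδ : 0 ≤ δ)
    (hdis : ∀ x : ℤ, ¬ (g : ℤ) ∣ x → μ.real (B ∩ σ.sh x B) ≤ δ) (E : Set ℤ) :
    res E g * μ.real B - (res E g : ℝ) ^ 2 * δ ≤ μ.real (σ.sw E B) := by
  have hne : NeZero g := ⟨hg.ne'⟩
  set T : Set (ZMod g) := (fun k : ℤ => (k : ZMod g)) '' E with hT
  have hres : res E g = T.ncard := rfl
  have hcard : Nat.card T = T.ncard := Nat.card_coe_set_eq T
  have hfin : Finite T := Set.toFinite T
  let φ : T ≃ Fin T.ncard := Finite.equivFinOfCardEq hcard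
  have hex : ∀ i : Fin T.ncard, ∃ k : ℤ, k ∈ E ∧ (k : ZMod g) = (φ.symm i : ZMod g) := by
    intro i
    obtain ⟨k, hk, hk'⟩ := (φ.symm i).2
    exact ⟨k, hk, hk'⟩
  choose e heE he using hex
  have hd : ∀ i j : Fin T.ncard, i ≠ j →
      μ.real (σ.sh (e i) B ∩ σ.sh (e j) B) ≤ δ := by
    intro i j hij
    have h1 : σ.sh (e i) B ∩ σ.sh (e j) B = σ.sh (e i) (B ∩ σ.sh (e j - e i) B) := by
      rw [Sys.sh_inter, Sys.sh_sh, add_sub_cancel]
    rw [h1, σ.real_sh _ (hB.inter (σ.meas_sh _ hB))]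
    apply hdis
    intro hdvd
    apply hij
    have h2 : (e i : ZMod g) = (e j : ZMod g) := (ZMod.intCast_eq_intCast_iff_dvd_sub _ _ _).2 hdvd
    rw [he i, he j] at h2
    exact φ.symm.injective (Subtype.ext h2)
  have h3 := bonferroni (μ := μ) (A := fun i : Fin T.ncard => σ.sh (e i) B) (β := μ.real B) hδ
    (fun i => σ.meas_sh _ hB) (fun i => (σ.real_sh _ hB).ge) hd
  have h4 : μ.real (⋃ i : Fin T.ncard, σ.sh (e i) B) ≤ μ.real (σ.sw E B) := by
    have h6 : (⋃ i : Fin T.ncard, σ.sh (e i) B) ⊆ σ.sw E B :=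
      Set.iUnion_subset fun i => σ.sh_subset_sw (heE i) B
    exact measureReal_mono h6
  rw [hres]
  have h5 : (0 : ℝ) ≤ (T.ncard : ℝ) ^ 2 * δ := by positivity
  linarith

end Pool.Agent.DOR
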