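import Pool.Agent.DOR.Defs

/-!
DOR-Per. Residues modulo `g` and upper Banach density: a set of upper Banach density at least `a` meets at
least `a * g` classes modulo `g`, and if it meets fewer than `a * g + 1` classes (and at least two) then its
difference set is a union of classes modulo `g`.
-/

set_option autoImplicit false

namespace Pool.Agent.DOR

private theorem class_card {g : ℕ} (hg : 0 < g) {c : ZMod g} {y : ℤ} {L : ℕ} (S : Finset ℤ)
    (hS : ∀ k ∈ S, y ≤ k ∧ k < y + L ∧ (k : ZMod g) = c) : S.card ≤ L / g + 1 := by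
  have h1 : S.card ≤ (Finset.range (L / g + 1)).card := by
    refine Finset.card_le_card_of_injOn (fun k => (k - y).toNat / g) ?_ ?_
    · intro k hk
      obtain ⟨h2, h3, -⟩ := hS k (Finset.mem_coe.1 hk)
      rw [Finset.mem_coe, Finset.mem_range, Nat.lt_succ_iff]
      exact Nat.div_le_div_right (by omega)
    · intro k hk k' hk' hkk
      obtain ⟨h2, h3, h4⟩ := hS k (Finset.mem_coe.1 hk)
      obtain ⟨h2', h3', h4'⟩ := hS k' (Finset.mem_coe.1 hk')
      have hkk' : (k - y).toNat / g = (k' - y).toNat / g := hkk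
      have h5 : (k : ZMod g) = (k' : ZMod g) := h4.trans h4'.symm
      have h6 : (g : ℤ) ∣ k' - k := (ZMod.intCast_eq_intCast_iff_dvd_sub k k' g).1 h5
      obtain ⟨q, hq⟩ := h6
      have e1 := Nat.div_add_mod (k - y).toNat g
      have e2 := Nat.div_add_mod (k' - y).toNat g
      have e3 := Nat.mod_lt (k - y).toNat hg
      have e4 := Nat.mod_lt (k' - y).toNat hg
      rw [hkk'] at e1
      have h7 : |k' - k| < g := by
        rw [abs_lt]
        constructor
        · have : ((k' - y).toNat : ℤ) = k' - y := Int.toNat_of_nonneg (by omega)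
          have : ((k - y).toNat : ℤ) = k - y := Int.toNat_of_nonneg (by omega)
          omega
        · have : ((k' - y).toNat : ℤ) = k' - y := Int.toNat_of_nonneg (by omega)
          have : ((k - y).toNat : ℤ) = k - y := Int.toNat_of_nonneg (by omega)
          omega
      have h8 : k' - k = 0 := Int.eq_zero_of_abs_lt_dvd ⟨q, hq⟩ h7
      omega
  rwa [Finset.card_range] at h1

open Classical in
/-- the elements of `E` of the class `c` in the interval -/
private noncomputable def cls (E : Set ℤ) (g : ℕ) (c : ZMod g) (x : ℤ) (M : ℕ) : Finset ℤ :=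
  (Finset.Ico x (x + M)).filter fun k => k ∈ E ∧ (k : ZMod g) = c

private theorem mem_cls {E : Set ℤ} {g : ℕ} {c : ZMod g} {x : ℤ} {M : ℕ} {k : ℤ} :
    k ∈ cls E g c x M ↔ (x ≤ k ∧ k < x + M) ∧ k ∈ E ∧ (k : ZMod g) = c := by
  simp only [cls, Finset.mem_filter, Finset.mem_Ico]

private theorem cls_card {E : Set ℤ} {g : ℕ} (hg : 0 < g) (c : ZMod g) (x : ℤ) (M : ℕ) :
    (cls E g c x M).card ≤ M / g + 1 :=
  class_card hg (y := x) (L := M) (c := c) _ fun k hk => by
    obtain ⟨⟨h1, h2⟩, -, h3⟩ := mem_cls.1 hk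
    exact ⟨h1, h2, h3⟩

/-- the classes met by `E` -/
private theorem res_fin (E : Set ℤ) {g : ℕ} (hg : 0 < g) : ∃ R : Finset (ZMod g),
    R.card = res E g ∧ ∀ c, c ∈ R ↔ ∃ k ∈ E, (k : ZMod g) = c := by
  have : NeZero g := ⟨hg.ne'⟩
  have hf : ((fun k : ℤ => (k : ZMod g)) '' E).Finite := Set.toFinite _
  refine ⟨hf.toFinset, ?_, ?_⟩
  · rw [res, Set.ncard_eq_toFinset_card _ hf]
  · intro c
    rw [Set.Finite.mem_toFinset, Set.mem_image]

private theorem cnt_sum {E : Set ℤ} {g : ℕ} {R : Finset (ZMod g)}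
    (hR : ∀ c, c ∈ R ↔ ∃ k ∈ E, (k : ZMod g) = c) (x : ℤ) (M : ℕ) :
    cnt E x M = ∑ c ∈ R, (cls E g c x M).card := by
  classical
  have h1 : E ∩ Set.Ico x (x + M) = ↑((Finset.Ico x (x + M)).filter fun k => k ∈ E) := by
    ext k
    rw [Finset.coe_filter, Set.mem_inter_iff, Set.mem_Ico, Set.mem_setOf_eq, Finset.mem_Ico]
    exact and_comm
  rw [cnt, h1, Set.ncard_coe_finset]
  rw [Finset.card_eq_sum_card_fiberwise (f := fun k : ℤ => (k : ZMod g)) (t := R)]
  · refine Finset.sum_congr rfl fun c _ => ?_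
    rw [cls, Finset.filter_filter]
  · intro k hk
    rw [Finset.mem_coe, Finset.mem_filter] at hk
    exact Finset.mem_coe.2 ((hR _).2 ⟨k, hk.2, rfl⟩)

private theorem div_le_real (M g : ℕ) : ((M / g : ℕ) : ℝ) ≤ (M : ℝ) / g := Nat.cast_div_le

theorem ud_le_res {E : Set ℤ} {a : ℝ} (h : UD E a) {g : ℕ} (hg : 0 < g) :
    a * g ≤ res E g := by
  by_contra hcon
  push Not at hcon
  have hg0 : (0 : ℝ) < g := by exact_mod_cast hg
  obtain ⟨R, hRc, hR⟩ := res_fin E hg
  have hδ : 0 < a - (res E g : ℝ) / g := by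
    rw [sub_pos, div_lt_iff₀ hg0]
    exact hcon
  obtain ⟨N, hN⟩ := exists_nat_gt ((res E g : ℝ) / ((a - (res E g : ℝ) / g) / 2))
  obtain ⟨M, hM, x, hx⟩ := h ((a - (res E g : ℝ) / g) / 2) (half_pos hδ) N
  have h1 : (cnt E x M : ℝ) ≤ (res E g : ℝ) * ((M : ℝ) / g + 1) := by
    have h2 : cnt E x M ≤ res E g * (M / g + 1) := by
      rw [cnt_sum hR, ← hRc, ← smul_eq_mul]
      exact Finset.sum_le_card_nsmul _ _ _ fun c _ => cls_card hg c x M
    calc (cnt E x M : ℝ) ≤ ((res E g * (M / g + 1) : ℕ) : ℝ) := by exact_mod_cast h2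
      _ = (res E g : ℝ) * (((M / g : ℕ) : ℝ) + 1) := by push_cast; ring
      _ ≤ _ := by
        refine mul_le_mul_of_nonneg_left ?_ (Nat.cast_nonneg _)
        linarith [div_le_real M g]
  have h3 : (N : ℝ) ≤ M := by exact_mod_cast hM
  rw [div_lt_iff₀ (half_pos hδ)] at hN
  have h4 : (res E g : ℝ) < M * ((a - (res E g : ℝ) / g) / 2) :=
    hN.trans_le (mul_le_mul_of_nonneg_right h3 (half_pos hδ).le)
  have h5 : (res E g : ℝ) * ((M : ℝ) / g + 1) = (res E g : ℝ) / g * M + res E g := by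
    field_simp
  rw [h5] at h1
  nlinarith

theorem ud_neg {E : Set ℤ} {a : ℝ} (h : UD E a) : UD (neg E) a := by
  intro ε hε N
  obtain ⟨M, hM, x, hx⟩ := h ε hε N
  refine ⟨M, hM, 1 - x - M, ?_⟩
  have h1 : neg E ∩ Set.Ico (1 - x - M) (1 - x - M + M) =
      (fun k : ℤ => -k) '' (E ∩ Set.Ico x (x + M)) := by
    ext k
    rw [Set.mem_inter_iff, Set.mem_Ico, Set.mem_image]
    constructor
    · rintro ⟨h1, h2, h3⟩
      refine ⟨-k, ⟨h1, ?_⟩, neg_neg k⟩
      rw [Set.mem_Ico]
      omega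
    · rintro ⟨l, ⟨h1, h2⟩, rfl⟩
      rw [Set.mem_Ico] at h2
      refine ⟨?_, by omega, by omega⟩
      show - -l ∈ E
      rwa [neg_neg]
  have h2 : cnt (neg E) (1 - x - M) M = cnt E x M := by
    rw [cnt, h1, Set.ncard_image_of_injective _ neg_injective, cnt]
  rw [h2]
  exact hx

theorem res_neg (E : Set ℤ) (g : ℕ) : res (neg E) g = res E g := by
  have h1 : (fun k : ℤ => (k : ZMod g)) '' neg E =
      (fun z : ZMod g => -z) '' ((fun k : ℤ => (k : ZMod g)) '' E) := by
    ext z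
    simp only [Set.mem_image]
    constructor
    · rintro ⟨k, hk, rfl⟩
      exact ⟨((-k : ℤ) : ZMod g), ⟨-k, hk, rfl⟩, by push_cast; ring⟩
    · rintro ⟨_, ⟨k, hk, rfl⟩, rfl⟩
      refine ⟨-k, ?_, by push_cast; ring⟩
      show - -k ∈ E
      rwa [neg_neg]
  rw [res, h1, Set.ncard_image_of_injective _ neg_injective, res]

private theorem meet {E : Set ℤ} {g : ℕ} (hg : 0 < g) {l l' : ZMod g} {x : ℤ} {M : ℕ} {d : ℤ}
    (hd : (d : ZMod g) = l - l')
    (h : ((M : ℝ) + 2 * (d.natAbs : ℝ)) / g + 1 <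
      ((cls E g l x M).card : ℝ) + (cls E g l' x M).card) :
    ∃ u' ∈ E, ∃ v' ∈ E, u' - v' = d := by
  classical
  by_contra hcon
  push Not at hcon
  have hinj : Function.Injective fun k : ℤ => k + d := fun a b hab => by
    have : a + d = b + d := hab
    omega
  have hdis : Disjoint (cls E g l x M) ((cls E g l' x M).image fun k => k + d) := by
    rw [Finset.disjoint_left]
    intro k hk hk'
    obtain ⟨k', hk2, hk3⟩ := Finset.mem_image.1 hk'
    have hk3' : k' + d = k := hk3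
    exact hcon k (mem_cls.1 hk).2.1 k' (mem_cls.1 hk2).2.1 (by omega)
  have h1 := class_card hg (c := l) (y := x - d.natAbs) (L := M + 2 * d.natAbs)
    (cls E g l x M ∪ (cls E g l' x M).image fun k => k + d) (by
      intro k hk
      rcases Finset.mem_union.1 hk with hk | hk
      · obtain ⟨⟨h1, h2⟩, -, h3⟩ := mem_cls.1 hk
        exact ⟨by omega, by omega, h3⟩
      · obtain ⟨k', hk2, rfl⟩ := Finset.mem_image.1 hk
        obtain ⟨⟨h1, h2⟩, -, h3⟩ := mem_cls.1 hk2
        refine ⟨by omega, by omega, ?_⟩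
        push_cast
        rw [h3, hd]
        ring)
  rw [Finset.card_union_of_disjoint hdis, Finset.card_image_of_injective _ hinj] at h1
  have h2 : (((cls E g l x M).card + (cls E g l' x M).card : ℕ) : ℝ) ≤
      (((M + 2 * d.natAbs) / g + 1 : ℕ) : ℝ) := by exact_mod_cast h1
  have h3 := div_le_real (M + 2 * d.natAbs) g
  push_cast at h2 h3
  linarith

theorem diff_per {E : Set ℤ} {a : ℝ} (h : UD E a) {g : ℕ} (hg : 0 < g) (h2 : 2 ≤ res E g)
    (ha : (res E g : ℝ) - 1 < a * g) {u v : ℤ} (hu : u ∈ E) (hv : v ∈ E) (t : ℤ) :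
    ∃ u' ∈ E, ∃ v' ∈ E, u' - v' = u - v + g * t := by
  classical
  have hg0 : (0 : ℝ) < g := by exact_mod_cast hg
  obtain ⟨R, hRc, hR⟩ := res_fin E hg
  set s := res E g with hs
  set ε : ℝ := (a - ((s : ℝ) - 1) / g) / 2 with hε
  have hε0 : 0 < ε := by
    rw [hε]
    refine half_pos ?_
    rw [sub_pos, div_lt_iff₀ hg0]
    exact ha
  set d : ℤ := u - v + g * t with hd
  obtain ⟨N, hN⟩ := exists_nat_gt ((2 * (d.natAbs : ℝ) / g + s) / ε)
  obtain ⟨M, hM, x, hx⟩ := h ε hε0 N
  rw [div_lt_iff₀ hε0] at hN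
  have hNM : (N : ℝ) ≤ M := by exact_mod_cast hM
  have hM2 : 2 * (d.natAbs : ℝ) / g + s < M * ε :=
    hN.trans_le (mul_le_mul_of_nonneg_right hNM hε0.le)
  -- two classes
  have htwo : ∀ c ∈ R, ∀ c' ∈ R, c ≠ c' →
      (M : ℝ) / g + ε * M - (s - 2) ≤ ((cls E g c x M).card : ℝ) + (cls E g c' x M).card := by
    intro c hc c' hc' hne
    have h3 : cnt E x M ≤ (cls E g c x M).card + ((cls E g c' x M).card +
        (s - 2) * (M / g + 1)) := by
      rw [cnt_sum hR, ← Finset.add_sum_erase R _ hc,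
        ← Finset.add_sum_erase (R.erase c) _ (Finset.mem_erase.2 ⟨hne.symm, hc'⟩)]
      refine Nat.add_le_add_left (Nat.add_le_add_left ?_ _) _
      have h4 : ((R.erase c).erase c').card = s - 2 := by
        rw [Finset.card_erase_of_mem (Finset.mem_erase.2 ⟨hne.symm, hc'⟩),
          Finset.card_erase_of_mem hc, hRc]
        omega
      rw [← h4, ← smul_eq_mul]
      exact Finset.sum_le_card_nsmul _ _ _ fun c _ => cls_card hg c x M
    have h4 : (cnt E x M : ℝ) ≤ (cls E g c x M).card + ((cls E g c' x M).card +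
        ((s : ℝ) - 2) * ((M : ℝ) / g + 1)) := by
      have h5 : (cnt E x M : ℝ) ≤ (((cls E g c x M).card + ((cls E g c' x M).card +
        (s - 2) * (M / g + 1)) : ℕ) : ℝ) := by exact_mod_cast h3
      rw [Nat.cast_add, Nat.cast_add, Nat.cast_mul, Nat.cast_sub h2, Nat.cast_add, Nat.cast_one,
        Nat.cast_ofNat] at h5
      have h6 : (0 : ℝ) ≤ (s : ℝ) - 2 := by
        have : (2 : ℝ) ≤ s := by exact_mod_cast h2
        linarith
      have h7 : ((s : ℝ) - 2) * (((M / g : ℕ) : ℝ) + 1) ≤ ((s : ℝ) - 2) * ((M : ℝ) / g + 1) :=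
        mul_le_mul_of_nonneg_left (by linarith [div_le_real M g]) h6
      linarith
    have h5 : (a - ε) * M = ((s : ℝ) - 2) * ((M : ℝ) / g) + (M : ℝ) / g + ε * M := by
      rw [hε]
      field_simp
      ring
    rw [h5] at hx
    linarith
  have hmeet : ∀ l l' : ZMod g, (d : ZMod g) = l - l' →
      (M : ℝ) / g + ε * M - (s - 2) ≤ ((cls E g l x M).card : ℝ) + (cls E g l' x M).card →
      ∃ u' ∈ E, ∃ v' ∈ E, u' - v' = d := by
    intro l l' hll h3
    refine meet hg hll (lt_of_lt_of_le ?_ h3)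
    have h4 : ((M : ℝ) + 2 * (d.natAbs : ℝ)) / g + 1 =
      (M : ℝ) / g + 2 * (d.natAbs : ℝ) / g + 1 := by ring
    rw [h4]
    linarith
  have hdc : (d : ZMod g) = (u : ZMod g) - (v : ZMod g) := by
    rw [hd]
    push_cast
    rw [ZMod.natCast_self]
    ring
  have huR : (u : ZMod g) ∈ R := (hR _).2 ⟨u, hu, rfl⟩
  have hvR : (v : ZMod g) ∈ R := (hR _).2 ⟨v, hv, rfl⟩
  by_cases huv : (u : ZMod g) = (v : ZMod g)
  · obtain ⟨c, hc, hcu⟩ : ∃ c ∈ R, c ≠ (u : ZMod g) := by
      by_contra hcon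
      push Not at hcon
      have h3 : R ⊆ {(u : ZMod g)} := fun c hc => Finset.mem_singleton.2 (hcon c hc)
      have h4 := Finset.card_le_card h3
      rw [Finset.card_singleton, hRc] at h4
      omega
    have h3 := htwo _ huR c hc hcu.symm
    have hd0 : (d : ZMod g) = 0 := by rw [hdc, huv, sub_self]
    rcases le_total ((cls E g c x M).card : ℝ) ((cls E g (u : ZMod g) x M).card : ℝ) with h4 | h4
    · exact hmeet u u (by rw [hd0, sub_self]) (by linarith)
    · exact hmeet c c (by rw [hd0, sub_self]) (by linarith)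
  · exact hmeet u v hdc (htwo _ huR _ hvR huv)

end Pool.Agent.DOR
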