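import Pool.Agent.DOR.Near
import Pool.Agent.DOR.Full
import Pool.Agent.DOR.Per

/-!
DOR-Core. The isoperimetric theorem: `κ(E) ≥ min(a, (|E mod g| - 1)/g)` for some `g ≥ 2`.

`core` treats a lower bound `κ < a` of the expansion with near-minimisers `B`, `2 μB ≤ 1 - κ`; `dich` takes
for `κ` the infimum of the expansion and applies `core` to `E` or, by duality, to `neg E`.
-/

set_option autoImplicit false

open MeasureTheory

namespace Pool.Agent.DOR

variable {X : Type*} [MeasurableSpace X] {μ : Measure X}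

private theorem gap (φ : ℕ → ℝ) (κ : ℝ) (h : ∀ g, 2 ≤ g → κ < φ g) (N : ℕ) :
    ∃ γ : ℝ, 0 < γ ∧ ∀ g, 2 ≤ g → g ≤ N → κ + γ ≤ φ g := by
  induction N with
  | zero => exact ⟨1, one_pos, fun g h2 h0 => by omega⟩
  | succ N ih =>
    obtain ⟨γ, hγ, hg⟩ := ih
    by_cases h2 : 2 ≤ N + 1
    · refine ⟨min γ (φ (N + 1) - κ), lt_min hγ (by have := h _ h2; linarith), ?_⟩
      intro g hg2 hgN
      rcases Nat.lt_or_ge N g with h3 | h3
      · have : g = N + 1 := by omega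
        rw [this]
        have := min_le_right γ (φ (N + 1) - κ)
        linarith
      · have h4 := hg g hg2 h3
        have := min_le_left γ (φ (N + 1) - κ)
        linarith
    · exact ⟨γ, hγ, fun g hg2 hgN => by omega⟩

private theorem res_le {g : ℕ} (hg : 0 < g) (E : Set ℤ) : res E g ≤ g := by
  have : NeZero g := ⟨hg.ne'⟩
  unfold res
  calc ((fun k : ℤ => (k : ZMod g)) '' E).ncard ≤ (Set.univ : Set (ZMod g)).ncard :=
        Set.ncard_le_ncard (Set.subset_univ _) Set.finite_univ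
    _ = g := by rw [Set.ncard_univ, Nat.card_zmod]

private theorem small {c G γ : ℝ} (hc : 0 < c) (hG : 0 < G) (hγ : 0 < γ) :
    ∃ η : ℝ, 0 < η ∧ 6 * η < c ∧ η * G ^ 2 < 1 ∧ 2 * η / c ≤ 1 / 4 ∧
      η * (1 + 2 * G ^ 2) + 2 * η / c < γ := by
  have hG2 : 0 < G ^ 2 := by positivity
  have hD : 0 < 1 + 2 * G ^ 2 + 2 / c := by positivity
  refine ⟨min (c / 12) (min (1 / (2 * G ^ 2)) (γ / (2 * (1 + 2 * G ^ 2 + 2 / c)))), ?_, ?_, ?_, ?_, ?_⟩
  · exact lt_min (by positivity) (lt_min (by positivity) (by positivity))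
  · have := min_le_left (c / 12) (min (1 / (2 * G ^ 2)) (γ / (2 * (1 + 2 * G ^ 2 + 2 / c))))
    linarith
  · have h1 : min (c / 12) (min (1 / (2 * G ^ 2)) (γ / (2 * (1 + 2 * G ^ 2 + 2 / c)))) ≤
        1 / (2 * G ^ 2) := (min_le_right _ _).trans (min_le_left _ _)
    calc _ ≤ 1 / (2 * G ^ 2) * G ^ 2 := mul_le_mul_of_nonneg_right h1 hG2.le
      _ = 1 / 2 := by field_simp
      _ < 1 := by norm_num
  · have h1 := min_le_left (c / 12) (min (1 / (2 * G ^ 2)) (γ / (2 * (1 + 2 * G ^ 2 + 2 / c))))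
    rw [div_le_iff₀ hc]
    linarith
  · have h1 : min (c / 12) (min (1 / (2 * G ^ 2)) (γ / (2 * (1 + 2 * G ^ 2 + 2 / c)))) ≤
        γ / (2 * (1 + 2 * G ^ 2 + 2 / c)) := (min_le_right _ _).trans (min_le_right _ _)
    set η := min (c / 12) (min (1 / (2 * G ^ 2)) (γ / (2 * (1 + 2 * G ^ 2 + 2 / c)))) with hη
    have h2 : η * (1 + 2 * G ^ 2) + 2 * η / c = η * (1 + 2 * G ^ 2 + 2 / c) := by ring
    rw [h2]
    calc η * (1 + 2 * G ^ 2 + 2 / c) ≤ γ / (2 * (1 + 2 * G ^ 2 + 2 / c)) * (1 + 2 * G ^ 2 + 2 / c) :=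
          mul_le_mul_of_nonneg_right h1 hD.le
      _ = γ / 2 := by field_simp
      _ < γ := by linarith

theorem core (σ : Sys μ) [IsProbabilityMeasure μ] {E : Set ℤ} {a κ : ℝ} (hE : UD E a)
    (hκ0 : 0 ≤ κ) (hκa : κ < a) (hlow : Low σ E κ)
    (hnear : ∀ ε : ℝ, 0 < ε → ∃ B : Set X, MeasurableSet B ∧ 0 < μ.real B ∧
      2 * μ.real B ≤ 1 - κ ∧ μ.real (σ.sw E B) < 1 ∧ μ.real (σ.sw E B) ≤ μ.real B + κ + ε) :
    ∃ g : ℕ, 2 ≤ g ∧ ((res E g : ℝ) - 1) / g ≤ κ := by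
  by_contra hcon
  push Not at hcon
  obtain ⟨c, hcdef⟩ : ∃ c : ℝ, c = (a - κ) / 2 := ⟨_, rfl⟩
  have hc : 0 < c := by rw [hcdef]; linarith
  obtain ⟨G, hGdef⟩ : ∃ G : ℝ, G = 2 / c + 1 := ⟨_, rfl⟩
  have hG : 0 < G := by rw [hGdef]; positivity
  obtain ⟨γ, hγ, hgap⟩ := gap (fun g => ((res E g : ℝ) - 1) / g) κ hcon ⌊G⌋₊
  obtain ⟨η, hη, h6, hG2, h4, h5⟩ := small hc hG hγ
  obtain ⟨ε, hε, hεη, B, hB, hcB, h2B, hsw, hdic⟩ := near σ hE hκa hlow hnear hη
  rw [← hcdef] at hcB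
  have hsub2 : ε * (2 / c + 1) ^ 2 < 1 := by
    rw [← hGdef]
    exact lt_of_le_of_lt (mul_le_mul_of_nonneg_right hεη (by positivity)) hG2
  obtain ⟨g, hg0, hgG, hper, hdis⟩ := subgrp σ hB hc hcB hη.le hε (by linarith) hsub2 hdic
  rw [← hGdef] at hgG
  have hfull := full σ hB hg0 hper
  have hμ0 : 0 < μ.real B := lt_of_lt_of_le hc hcB
  have h7 : 1 - g * μ.real B ≤ 2 * η / c := by
    by_cases h8 : 1 - g * μ.real B ≤ 0
    · exact h8.trans (by positivity)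
    · push Not at h8
      rw [le_div_iff₀ hc]
      nlinarith
  have hg1 : g ≠ 1 := by
    intro h1
    rw [h1] at h7
    push_cast at h7
    linarith
  have hg2 : 2 ≤ g := by omega
  have hgR : (0 : ℝ) < g := by exact_mod_cast hg0
  have hκg := hcon g hg2
  have hγg := hgap g hg2 (Nat.le_floor hgG)
  have hbonf := bonf σ hB hg0 (by positivity) hdis E
  have hsg : (res E g : ℝ) ≤ g := by exact_mod_cast res_le hg0 E
  obtain ⟨s, hs⟩ : ∃ s : ℝ, s = (res E g : ℝ) := ⟨_, rfl⟩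
  simp only [← hs] at *
  have hs1 : 0 < s - 1 := by
    have h8 : 0 < (s - 1) / g := lt_of_le_of_lt hκ0 hκg
    by_contra h9
    push Not at h9
    have := div_nonpos_of_nonpos_of_nonneg h9 hgR.le
    linarith
  have hsG : s ^ 2 ≤ G ^ 2 := by
    apply pow_le_pow_left₀ (by linarith)
    linarith
  have h8 : (s - 1) * μ.real B ≤ κ + ε * (1 + 2 * G ^ 2) := by
    have h9 : s ^ 2 * (2 * ε) ≤ G ^ 2 * (2 * ε) := mul_le_mul_of_nonneg_right hsG (by positivity)
    nlinarith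
  have h9 : (s - 1) / g ≤ (s - 1) * μ.real B + 2 * η / c := by
    have h10 : (s - 1) / g ≤ 1 := by
      rw [div_le_one hgR]
      linarith
    have h11 : (s - 1) / g = (s - 1) * μ.real B + (s - 1) / g * (1 - g * μ.real B) := by
      field_simp
      ring
    have h12 : (s - 1) / g * (1 - g * μ.real B) ≤ 2 * η / c := by
      have h13 : 0 ≤ (s - 1) / g := by positivity
      calc (s - 1) / g * (1 - g * μ.real B) ≤ (s - 1) / g * (2 * η / c) :=
            mul_le_mul_of_nonneg_left h7 h13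
        _ ≤ 1 * (2 * η / c) := mul_le_mul_of_nonneg_right h10 (by positivity)
        _ = 2 * η / c := one_mul _
    linarith
  have h10 : ε * (1 + 2 * G ^ 2) ≤ η * (1 + 2 * G ^ 2) :=
    mul_le_mul_of_nonneg_right hεη (by positivity)
  linarith

private theorem neg_neg' (E : Set ℤ) : neg (neg E) = E := by
  ext k
  unfold neg
  simp

private theorem real_compl' [IsProbabilityMeasure μ] {B : Set X} (hB : MeasurableSet B) :
    μ.real Bᶜ = 1 - μ.real B := probReal_compl_eq_one_sub hB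

private theorem sw_neg_le (σ : Sys μ) [IsProbabilityMeasure μ] (E : Set ℤ) {B : Set X}
    (hB : MeasurableSet B) : μ.real (σ.sw (neg E) (σ.sw E B)ᶜ) ≤ 1 - μ.real B := by
  rw [← real_compl' hB]
  exact measureReal_mono (σ.sw_neg_compl E B)

private theorem low_neg (σ : Sys μ) [IsProbabilityMeasure μ] {E : Set ℤ} {κ : ℝ}
    (hlow : Low σ E κ) : Low σ (neg E) κ := by
  intro B hB h0 h1
  have hm := σ.meas_sw (neg E) hB
  have h2 := sw_neg_le σ (neg E) hB
  rw [neg_neg'] at h2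
  have h3 := real_compl' (μ := μ) hm
  have h4 := hlow (σ.sw (neg E) B)ᶜ hm.compl (by rw [h3]; linarith) (by linarith)
  linarith

theorem dich (σ : Sys μ) [IsProbabilityMeasure μ] {E : Set ℤ} {a : ℝ} (ha : 0 < a)
    (hE : UD E a) :
    ∃ κ : ℝ, 0 ≤ κ ∧ Low σ E κ ∧ (a ≤ κ ∨ ∃ g : ℕ, 2 ≤ g ∧ ((res E g : ℝ) - 1) / g ≤ κ) := by
  have hne : E.Nonempty := by
    rw [Set.nonempty_iff_ne_empty]
    rintro rfl
    obtain ⟨M, hM, x, hx⟩ := hE (a / 2) (by linarith) 1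
    have h0 : cnt ∅ x M = 0 := by
      unfold cnt
      rw [Set.empty_inter, Set.ncard_empty]
    rw [h0] at hx
    have h1 : (1 : ℝ) ≤ M := by exact_mod_cast hM
    push_cast at hx
    nlinarith
  obtain ⟨Λ, hΛ⟩ : ∃ Λ : Set ℝ, Λ = {r : ℝ | ∃ B : Set X, MeasurableSet B ∧ 0 < μ.real B ∧
    μ.real (σ.sw E B) < 1 ∧ r = μ.real (σ.sw E B) - μ.real B} := ⟨_, rfl⟩
  have hpos : ∀ r ∈ Λ, (0 : ℝ) ≤ r := by
    intro r hr
    rw [hΛ] at hr
    obtain ⟨B, hB, _, _, rfl⟩ := hr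
    have := σ.le_sw hne hB
    linarith
  rcases Set.eq_empty_or_nonempty Λ with hemp | hnon
  · refine ⟨a, ha.le, ?_, Or.inl le_rfl⟩
    intro B hB h0 h1
    exfalso
    have : μ.real (σ.sw E B) - μ.real B ∈ Λ := by
      rw [hΛ]
      exact ⟨B, hB, h0, h1, rfl⟩
    rw [hemp] at this
    exact this
  · obtain ⟨κ, hκ⟩ : ∃ κ : ℝ, κ = sInf Λ := ⟨_, rfl⟩
    have hbdd : BddBelow Λ := ⟨0, hpos⟩
    have hκ0 : 0 ≤ κ := by rw [hκ]; exact le_csInf hnon hpos
    have hlow : Low σ E κ := by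
      intro B hB h0 h1
      have h2 : κ ≤ μ.real (σ.sw E B) - μ.real B := by
        rw [hκ]
        apply csInf_le hbdd
        rw [hΛ]
        exact ⟨B, hB, h0, h1, rfl⟩
      linarith
    refine ⟨κ, hκ0, hlow, ?_⟩
    by_cases hak : a ≤ κ
    · exact Or.inl hak
    right
    push Not at hak
    have happ : ∀ ε : ℝ, 0 < ε → ∃ B : Set X, MeasurableSet B ∧ 0 < μ.real B ∧
        μ.real (σ.sw E B) < 1 ∧ μ.real (σ.sw E B) ≤ μ.real B + κ + ε := by
      intro ε hε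
      have h1 : sInf Λ < κ + ε := by rw [← hκ]; linarith
      obtain ⟨r, hr, hr2⟩ := exists_lt_of_csInf_lt hnon h1
      rw [hΛ] at hr
      obtain ⟨B, hB, h0, h1, rfl⟩ := hr
      exact ⟨B, hB, h0, h1, by linarith⟩
    by_cases hcase : ∀ ε : ℝ, 0 < ε → ∃ B : Set X, MeasurableSet B ∧ 0 < μ.real B ∧
      2 * μ.real B ≤ 1 - κ ∧ μ.real (σ.sw E B) < 1 ∧ μ.real (σ.sw E B) ≤ μ.real B + κ + ε
    · exact core σ hE hκ0 hak hlow hcase
    · push Not at hcase
      obtain ⟨ε₀, hε₀, hno⟩ := hcase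
      have hneg : ∀ ε : ℝ, 0 < ε → ∃ B : Set X, MeasurableSet B ∧ 0 < μ.real B ∧
          2 * μ.real B ≤ 1 - κ ∧ μ.real (σ.sw (neg E) B) < 1 ∧
            μ.real (σ.sw (neg E) B) ≤ μ.real B + κ + ε := by
        intro ε hε
        obtain ⟨B, hB, h0, h1, h2⟩ := happ (min ε ε₀) (lt_min hε hε₀)
        have h3 := min_le_left ε ε₀
        have h4 := min_le_right ε ε₀
        have h5 : 1 - κ < 2 * μ.real B := by
          by_contra h6
          push Not at h6
          have := hno B hB h0 h6 h1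
          linarith
        have hm := σ.meas_sw E hB
        have h6 := real_compl' (μ := μ) hm
        have h7 := hlow B hB h0 h1
        have h8 := sw_neg_le σ E hB
        refine ⟨(σ.sw E B)ᶜ, hm.compl, ?_, ?_, ?_, ?_⟩
        · rw [h6]; linarith
        · rw [h6]; linarith
        · linarith
        · rw [h6]; linarith
      obtain ⟨g, hg2, hg⟩ := core σ (ud_neg hE) hκ0 hak (low_neg σ hlow) hneg
      rw [res_neg] at hg
      exact ⟨g, hg2, hg⟩

end Pool.Agent.DOR
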