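import Mathlib

/-!
# DOR: degree of regularity of `x₁+…+xₙ = y₁+…+yₙ+b` (definitions and basic facts)

Project DOR (MP_5c782e_co).  For `g ≥ 1` let `t = gcd(b,g)` and `M_b(g) = t * floor(g/(2t))`, the largest
size of a subset of `ZMod g` without two elements that differ by `b`.
-/

set_option autoImplicit false

open MeasureTheory

namespace Pool.Agent.DOR

/-- `M_b(g) = t * floor(g/(2t))`, `t = gcd(b,g)` -/
def mm (b g : ℕ) : ℕ := Nat.gcd b g * (g / (2 * Nat.gcd b g))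

/-- `ceil (M_b(g) / n)` -/
def lf (n b g : ℕ) : ℕ := (mm b g + n - 1) / n

/-- number of elements of `E` in `[x, x+M)` -/
noncomputable def cnt (E : Set ℤ) (x : ℤ) (M : ℕ) : ℕ := (E ∩ Set.Ico x (x + M)).ncard

/-- the upper Banach density of `E` is at least `a` -/
def UD (E : Set ℤ) (a : ℝ) : Prop :=
  ∀ ε : ℝ, 0 < ε → ∀ N : ℕ, ∃ M : ℕ, N ≤ M ∧ ∃ x : ℤ, (a - ε) * M ≤ cnt E x M

/-- number of residue classes modulo `g` met by `E` -/
noncomputable def res (E : Set ℤ) (g : ℕ) : ℕ := ((fun k : ℤ => (k : ZMod g)) '' E).ncard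

/-- `E` contains no solution of `u₁+…+uₙ = v₁+…+vₙ+b` -/
def Free (E : Set ℤ) (n : ℕ) (b : ℤ) : Prop :=
  ∀ u v : Fin n → ℤ, (∀ i, u i ∈ E) → (∀ i, v i ∈ E) → ∑ i, u i ≠ ∑ i, v i + b

/-- the colouring `c` of the positive integers has a monochromatic solution of
`x₁+…+xₙ = y₁+…+yₙ+b` -/
def Mono {r : ℕ} (n b : ℕ) (c : ℕ → Fin r) : Prop :=
  ∃ x y : Fin n → ℕ, ∃ k : Fin r,
    (∀ i, 0 < x i ∧ 0 < y i ∧ c (x i) = k ∧ c (y i) = k) ∧ ∑ i, x i = ∑ i, y i + b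

/-- the reflected set -/
def neg (E : Set ℤ) : Set ℤ := {k | -k ∈ E}

/-- An ergodic action of `ℤ`. -/
structure Sys {X : Type*} [MeasurableSpace X] (μ : Measure X) where
  S : ℤ → X → X
  zero' : ∀ x, S 0 x = x
  add' : ∀ k l x, S (k + l) x = S k (S l x)
  mp : ∀ k, MeasurePreserving (S k) μ μ
  erg : Ergodic (S 1) μ

variable {X : Type*} [MeasurableSpace X] {μ : Measure X}

namespace Sys

/-- translate of a set -/
def sh (σ : Sys μ) (k : ℤ) (B : Set X) : Set X := σ.S k ⁻¹' B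

/-- union of the translates by the elements of `E` -/
def sw (σ : Sys μ) (E : Set ℤ) (B : Set X) : Set X := ⋃ k ∈ E, σ.sh k B

theorem mem_sh (σ : Sys μ) (k : ℤ) (B : Set X) (x : X) : x ∈ σ.sh k B ↔ σ.S k x ∈ B := Iff.rfl

theorem mem_sw (σ : Sys μ) (E : Set ℤ) (B : Set X) (x : X) :
    x ∈ σ.sw E B ↔ ∃ k ∈ E, σ.S k x ∈ B := by
  simp [sw, mem_sh]

theorem meas_sh (σ : Sys μ) (k : ℤ) {B : Set X} (hB : MeasurableSet B) :
    MeasurableSet (σ.sh k B) := (σ.mp k).measurable hB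

theorem meas_sw (σ : Sys μ) (E : Set ℤ) {B : Set X} (hB : MeasurableSet B) :
    MeasurableSet (σ.sw E B) :=
  MeasurableSet.biUnion (Set.to_countable E) fun k _ => σ.meas_sh k hB

theorem real_sh (σ : Sys μ) (k : ℤ) {B : Set X} (hB : MeasurableSet B) :
    μ.real (σ.sh k B) = μ.real B := by
  unfold Measure.real
  congr 1
  exact (σ.mp k).measure_preimage hB.nullMeasurableSet

theorem sh_zero (σ : Sys μ) (B : Set X) : σ.sh 0 B = B := by
  ext x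
  rw [mem_sh, σ.zero']

theorem sh_sh (σ : Sys μ) (k l : ℤ) (B : Set X) : σ.sh k (σ.sh l B) = σ.sh (k + l) B := by
  ext x
  rw [mem_sh, mem_sh, mem_sh, ← σ.add', add_comm]

theorem sh_inter (σ : Sys μ) (k : ℤ) (B C : Set X) : σ.sh k (B ∩ C) = σ.sh k B ∩ σ.sh k C := rfl

theorem sh_union (σ : Sys μ) (k : ℤ) (B C : Set X) : σ.sh k (B ∪ C) = σ.sh k B ∪ σ.sh k C := rfl

theorem sh_diff (σ : Sys μ) (k : ℤ) (B C : Set X) : σ.sh k (B \ C) = σ.sh k B \ σ.sh k C := rfl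

theorem sh_compl (σ : Sys μ) (k : ℤ) (B : Set X) : σ.sh k Bᶜ = (σ.sh k B)ᶜ := rfl

theorem sh_mono (σ : Sys μ) (k : ℤ) {B C : Set X} (h : B ⊆ C) : σ.sh k B ⊆ σ.sh k C :=
  Set.preimage_mono h

theorem sw_mono (σ : Sys μ) (E : Set ℤ) {B C : Set X} (h : B ⊆ C) : σ.sw E B ⊆ σ.sw E C :=
  Set.iUnion₂_mono fun k _ => σ.sh_mono k h

theorem sw_union (σ : Sys μ) (E : Set ℤ) (B C : Set X) :
    σ.sw E (B ∪ C) = σ.sw E B ∪ σ.sw E C := by
  ext x
  simp only [mem_sw, Set.mem_union]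
  constructor
  · rintro ⟨k, hk, h | h⟩
    · exact Or.inl ⟨k, hk, h⟩
    · exact Or.inr ⟨k, hk, h⟩
  · rintro (⟨k, hk, h⟩ | ⟨k, hk, h⟩)
    · exact ⟨k, hk, Or.inl h⟩
    · exact ⟨k, hk, Or.inr h⟩

theorem sw_inter_subset (σ : Sys μ) (E : Set ℤ) (B C : Set X) :
    σ.sw E (B ∩ C) ⊆ σ.sw E B ∩ σ.sw E C :=
  Set.subset_inter (σ.sw_mono E Set.inter_subset_left) (σ.sw_mono E Set.inter_subset_right)

theorem sh_sw (σ : Sys μ) (k : ℤ) (E : Set ℤ) (B : Set X) :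
    σ.sh k (σ.sw E B) = σ.sw E (σ.sh k B) := by
  ext x
  simp only [mem_sh, mem_sw, ← σ.add']
  constructor
  · rintro ⟨l, hl, h⟩
    exact ⟨l, hl, by rwa [add_comm]⟩
  · rintro ⟨l, hl, h⟩
    exact ⟨l, hl, by rwa [add_comm]⟩

theorem sh_subset_sw (σ : Sys μ) {E : Set ℤ} {k : ℤ} (hk : k ∈ E) (B : Set X) :
    σ.sh k B ⊆ σ.sw E B := fun x hx => (σ.mem_sw E B x).2 ⟨k, hk, hx⟩

/-- duality -/
theorem sw_neg_compl (σ : Sys μ) (E : Set ℤ) (B : Set X) :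
    σ.sw (neg E) (σ.sw E B)ᶜ ⊆ Bᶜ := by
  intro x hx hxB
  obtain ⟨k, hk, h⟩ := (σ.mem_sw _ _ x).1 hx
  refine h ((σ.mem_sw _ _ _).2 ⟨-k, hk, ?_⟩)
  rw [← σ.add', neg_add_cancel, σ.zero']
  exact hxB

theorem le_sw (σ : Sys μ) [IsProbabilityMeasure μ] {E : Set ℤ} (hE : E.Nonempty) {B : Set X}
    (hB : MeasurableSet B) : μ.real B ≤ μ.real (σ.sw E B) := by
  obtain ⟨k, hk⟩ := hE
  rw [← σ.real_sh k hB]
  exact measureReal_mono (σ.sh_subset_sw hk B)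

/-- submodularity -/
theorem sw_submod (σ : Sys μ) [IsProbabilityMeasure μ] (E : Set ℤ) {B C : Set X}
    (hC : MeasurableSet C) :
    μ.real (σ.sw E (B ∩ C)) + μ.real (σ.sw E (B ∪ C)) ≤
      μ.real (σ.sw E B) + μ.real (σ.sw E C) := by
  rw [σ.sw_union, ← measureReal_union_add_inter (s := σ.sw E B) (t := σ.sw E C)
    (σ.meas_sw E hC), add_comm]
  exact add_le_add_right (measureReal_mono (σ.sw_inter_subset E B C)) _

theorem real_sw_sh (σ : Sys μ) (k : ℤ) (E : Set ℤ) {B : Set X} (hB : MeasurableSet B) :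
    μ.real (σ.sw E (σ.sh k B)) = μ.real (σ.sw E B) := by
  rw [← σ.sh_sw, σ.real_sh k (σ.meas_sw E hB)]

end Sys

/-- The basic lower bound for `E`: `κ` is a lower bound of the expansion. -/
def Low (σ : Sys μ) (E : Set ℤ) (κ : ℝ) : Prop :=
  ∀ B : Set X, MeasurableSet B → 0 < μ.real B → μ.real (σ.sw E B) < 1 →
    μ.real B + κ ≤ μ.real (σ.sw E B)

end Pool.Agent.DOR
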