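import Pool.Agent.DOR.Defs

/-!
# DOR-Erg: the mean ergodic theorem, uniform over intervals of integers

`erg_avg`: mean ergodic theorem in `L²` for the Koopman operator of `S 1`, the limit is the constant `μ B` by ergodicity;
since `S x` preserves `μ` the estimate is uniform over the intervals `[x, x+M)`.  `small_of`: consequence.
-/

set_option autoImplicit false

open MeasureTheory Filter Topology

namespace Pool.Agent.DOR

variable {X : Type*} [MeasurableSpace X] {μ : Measure X}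

/-- the Koopman operator -/
private noncomputable def egK {f : X → X} (hf : MeasurePreserving f μ μ) :
    Lp ℝ 2 μ →ₗᵢ[ℝ] Lp ℝ 2 μ :=
  Lp.compMeasurePreservingₗᵢ ℝ f hf

private theorem egK_coe {f : X → X} (hf : MeasurePreserving f μ μ) (g : Lp ℝ 2 μ) :
    egK hf g =ᵐ[μ] fun y => g (f y) :=
  Lp.coeFn_compMeasurePreserving g hf

private noncomputable def egC {f : X → X} (hf : MeasurePreserving f μ μ) :
    Lp ℝ 2 μ →L[ℝ] Lp ℝ 2 μ := (egK hf).toContinuousLinearMap

private theorem egC_norm {f : X → X} (hf : MeasurePreserving f μ μ) : ‖egC hf‖ ≤ 1 :=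
  (egK hf).norm_toContinuousLinearMap_le

private theorem eg_integral [IsProbabilityMeasure μ] (f : Lp ℝ 2 μ) : ∫ y, |f y| ∂μ ≤ ‖f‖ := by
  have h1 : ∫ y, |f y| ∂μ = (eLpNorm f 1 μ).toReal := by
    have h2 : ∫ y, |f y| ∂μ = ∫ y, ‖f y‖ ∂μ := by simp only [Real.norm_eq_abs]
    rw [h2, integral_norm_eq_lintegral_enorm (Lp.aestronglyMeasurable f),
      eLpNorm_one_eq_lintegral_enorm]
  rw [h1, Lp.norm_def]
  refine ENNReal.toReal_mono (Lp.eLpNorm_ne_top f) ?_
  exact eLpNorm_le_eLpNorm_of_exponent_le (by norm_num) (Lp.aestronglyMeasurable f)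

private theorem eg_mean [IsProbabilityMeasure μ] {T : X → X} (hT : Ergodic T μ) {A : Set X}
    (hA : MeasurableSet A) :
    Tendsto (fun n : ℕ => ∫ y, |(∑ k ∈ Finset.range n, A.indicator (fun _ => (1 : ℝ)) (T^[k] y)) / n
      - μ.real A| ∂μ) atTop (𝓝 0) := by
  have hTm : MeasurePreserving T μ μ := hT.toMeasurePreserving
  set a : Lp ℝ 2 μ := indicatorConstLp 2 hA (measure_ne_top μ A) (1 : ℝ) with ha
  have hacoe : a =ᵐ[μ] A.indicator fun _ => (1 : ℝ) := indicatorConstLp_coeFn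
  have hlim := ContinuousLinearMap.tendsto_birkhoffAverage_orthogonalProjection (egC hTm)
    (egC_norm hTm) a
  set P := ((egC hTm).eqLocus (1 : Lp ℝ 2 μ →L[ℝ] Lp ℝ 2 μ)).orthogonalProjectionOnto a with hP
  set h : Lp ℝ 2 μ := (P : Lp ℝ 2 μ) with hh
  have hTh : egK hTm h = h := P.2
  obtain ⟨c, hc⟩ := hT.quasiErgodic.ae_eq_const_of_ae_eq_comp_ae (Lp.aestronglyMeasurable h) (by
    have h2 := egK_coe hTm h
    rw [hTh] at h2
    exact h2.symm)
  have hhc : h =ᵐ[μ] fun _ => c := hc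
  have hcA : c = μ.real A := by
    set o : Lp ℝ 2 μ := (memLp_const (1 : ℝ)).toLp (fun _ : X => (1 : ℝ)) with ho
    have hocoe : o =ᵐ[μ] fun _ => (1 : ℝ) := MemLp.coeFn_toLp _
    have hofix : o ∈ (egC hTm).eqLocus (1 : Lp ℝ 2 μ →L[ℝ] Lp ℝ 2 μ) := by
      rw [LinearMap.mem_eqLocus]
      change egK hTm o = o
      refine Lp.ext ?_
      filter_upwards [egK_coe hTm o, hocoe, hTm.quasiMeasurePreserving.ae hocoe] with y h1 h2 h3
      rw [h1, h2, h3]
    have h1 : inner ℝ (a - h) o = 0 := by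
      have h2 := Submodule.starProjection_inner_eq_zero
        (K := (egC hTm).eqLocus (1 : Lp ℝ 2 μ →L[ℝ] Lp ℝ 2 μ)) a o hofix
      rw [Submodule.starProjection_apply] at h2
      exact h2
    rw [inner_sub_left, sub_eq_zero] at h1
    have h2 : inner ℝ a o = μ.real A := by
      rw [L2.inner_def]
      have : ∀ᵐ y ∂μ, inner ℝ (a y) (o y) = A.indicator (fun _ => (1 : ℝ)) y := by
        filter_upwards [hacoe, hocoe] with y h3 h4
        rw [h3, h4]
        simp
      rw [integral_congr_ae this, integral_indicator hA]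
      simp
    have h3 : inner ℝ h o = c := by
      rw [L2.inner_def]
      have : ∀ᵐ y ∂μ, inner ℝ (h y) (o y) = c := by
        filter_upwards [hhc, hocoe] with y h3 h4
        rw [h3, h4]
        simp
      rw [integral_congr_ae this]
      simp
    rw [← h3, ← h1, h2]
  have havg : ∀ n : ℕ, (birkhoffAverage ℝ (egC hTm) _root_.id n a : Lp ℝ 2 μ) =ᵐ[μ]
      fun y => (∑ k ∈ Finset.range n, A.indicator (fun _ => (1 : ℝ)) (T^[k] y)) / n := by
    intro n
    have h1 : ∀ k : ℕ, (egC hTm)^[k] a =ᵐ[μ] fun y => A.indicator (fun _ => (1 : ℝ)) (T^[k] y) := by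
      intro k
      induction k with
      | zero => simpa using hacoe
      | succ k ih =>
        rw [Function.iterate_succ_apply']
        have h2 : egC hTm ((egC hTm)^[k] a) =ᵐ[μ] fun y => ((egC hTm)^[k] a) (T y) :=
          egK_coe hTm ((egC hTm)^[k] a)
        filter_upwards [h2, hTm.quasiMeasurePreserving.ae ih] with y h3 h4
        rw [h3, h4, Function.iterate_succ_apply]
    have h2 : birkhoffAverage ℝ (egC hTm) _root_.id n a =
        (n : ℝ)⁻¹ • ∑ k ∈ Finset.range n, (egC hTm)^[k] a := rfl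
    rw [h2]
    have h3 : ∀ m : ℕ, (∑ k ∈ Finset.range m, (egC hTm)^[k] a : Lp ℝ 2 μ) =ᵐ[μ]
        fun y => ∑ k ∈ Finset.range m, A.indicator (fun _ => (1 : ℝ)) (T^[k] y) := by
      intro m
      induction m with
      | zero =>
        simp only [Finset.range_zero, Finset.sum_empty]
        exact Lp.coeFn_zero ℝ 2 μ
      | succ m ih =>
        rw [Finset.sum_range_succ]
        filter_upwards [Lp.coeFn_add (∑ k ∈ Finset.range m, (egC hTm)^[k] a) ((egC hTm)^[m] a), ih,
          h1 m] with y h4 h5 h6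
        rw [h4, Pi.add_apply, h5, h6, Finset.sum_range_succ]
    filter_upwards [Lp.coeFn_smul (n : ℝ)⁻¹ (∑ k ∈ Finset.range n, (egC hTm)^[k] a), h3 n]
      with y h4 h5
    rw [h4, Pi.smul_apply, h5, smul_eq_mul, div_eq_inv_mul]
  have hto : Tendsto (fun n : ℕ => ‖birkhoffAverage ℝ (egC hTm) _root_.id n a - h‖) atTop (𝓝 0) :=
    tendsto_iff_norm_sub_tendsto_zero.mp hlim
  refine squeeze_zero (fun n => integral_nonneg fun y => abs_nonneg _) (fun n => ?_) hto
  refine le_trans (le_of_eq ?_) (eg_integral (birkhoffAverage ℝ (egC hTm) _root_.id n a - h))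
  refine integral_congr_ae ?_
  filter_upwards [Lp.coeFn_sub (birkhoffAverage ℝ (egC hTm) _root_.id n a) h, havg n, hhc]
    with y h1 h2 h3
  rw [h1, Pi.sub_apply, h2, h3, hcA]

private theorem eg_iter (σ : Sys μ) (k : ℕ) (y : X) : (σ.S 1)^[k] y = σ.S (k : ℤ) y := by
  induction k with
  | zero => rw [Function.iterate_zero, id, Nat.cast_zero, σ.zero']
  | succ k ih => rw [Function.iterate_succ_apply', ih, ← σ.add', Nat.cast_succ, add_comm]

private theorem eg_ind (σ : Sys μ) (x : ℤ) (k : ℕ) (B : Set X) (y : X) :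
    (σ.sh (x + k) B).indicator (fun _ => (1 : ℝ)) y =
      B.indicator (fun _ => (1 : ℝ)) ((σ.S 1)^[k] (σ.S x y)) := by
  rw [eg_iter, ← σ.add', add_comm (k : ℤ) x]
  by_cases h : σ.S (x + k) y ∈ B
  · rw [Set.indicator_of_mem h, Set.indicator_of_mem ((σ.mem_sh _ _ _).2 h)]
  · rw [Set.indicator_of_notMem h, Set.indicator_of_notMem (fun h' => h ((σ.mem_sh _ _ _).1 h'))]

theorem erg_avg (σ : Sys μ) [IsProbabilityMeasure μ] {B W : Set X} (hB : MeasurableSet B)
    (hW : MeasurableSet W) {ε : ℝ} (hε : 0 < ε) :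
    ∃ N : ℕ, ∀ M : ℕ, N ≤ M → ∀ x : ℤ,
      |(∑ k ∈ Finset.range M, μ.real (σ.sh (x + k) B ∩ W)) - M * (μ.real B * μ.real W)|
        ≤ ε * M := by
  obtain ⟨N, hN⟩ := (Metric.tendsto_atTop.1 (eg_mean σ.erg hB)) ε hε
  refine ⟨N + 1, fun M hM x => ?_⟩
  have hM0 : (0 : ℝ) < M := by
    have h : 0 < M := by omega
    exact_mod_cast h
  set F : X → ℝ := fun y => (∑ k ∈ Finset.range M, B.indicator (fun _ => (1 : ℝ)) ((σ.S 1)^[k] y)) / M
      - μ.real B with hF
  have hind : Measurable (B.indicator (fun _ => (1 : ℝ))) := measurable_const.indicator hB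
  have hFm : Measurable F := by
    rw [hF]
    exact ((Finset.measurable_sum _ fun k _ =>
      hind.comp (σ.erg.toMeasurePreserving.iterate k).measurable).div_const _).sub_const _
  have hFb : ∀ y, |F y| ≤ 2 := by
    intro y
    have h1 : ∀ z, 0 ≤ B.indicator (fun _ => (1 : ℝ)) z ∧ B.indicator (fun _ => (1 : ℝ)) z ≤ 1 := by
      intro z
      by_cases hz : z ∈ B
      · rw [Set.indicator_of_mem hz]
        exact ⟨zero_le_one, le_refl _⟩
      · rw [Set.indicator_of_notMem hz]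
        exact ⟨le_refl _, zero_le_one⟩
    have h2 : 0 ≤ (∑ k ∈ Finset.range M, B.indicator (fun _ => (1 : ℝ)) ((σ.S 1)^[k] y)) / M :=
      div_nonneg (Finset.sum_nonneg fun k _ => (h1 _).1) hM0.le
    have h3 : (∑ k ∈ Finset.range M, B.indicator (fun _ => (1 : ℝ)) ((σ.S 1)^[k] y)) / M ≤ 1 := by
      rw [div_le_one hM0]
      calc (∑ k ∈ Finset.range M, B.indicator (fun _ => (1 : ℝ)) ((σ.S 1)^[k] y))
          ≤ ∑ k ∈ Finset.range M, (1 : ℝ) := Finset.sum_le_sum fun k _ => (h1 _).2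
        _ = M := by rw [Finset.sum_const, Finset.card_range, nsmul_eq_mul, mul_one]
    have h4 : 0 ≤ μ.real B := measureReal_nonneg
    have h5 : μ.real B ≤ 1 := measureReal_le_one
    rw [abs_le]
    constructor
    · show -2 ≤ (∑ k ∈ Finset.range M, B.indicator (fun _ => (1 : ℝ)) ((σ.S 1)^[k] y)) / M - μ.real B
      linarith
    · show (∑ k ∈ Finset.range M, B.indicator (fun _ => (1 : ℝ)) ((σ.S 1)^[k] y)) / M - μ.real B ≤ 2
      linarith
  have hFi : Integrable F μ := by
    refine Integrable.of_bound hFm.aestronglyMeasurable 2 (Eventually.of_forall fun y => ?_)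
    rw [Real.norm_eq_abs]
    exact hFb y
  have hFx : Integrable (fun y => F (σ.S x y)) μ := (σ.mp x).integrable_comp_of_integrable hFi
  have h1 : ∫ y, |F y| ∂μ ≤ ε := by
    have h2 := hN M (by omega)
    rw [Real.dist_eq, sub_zero, abs_of_nonneg (integral_nonneg fun y => abs_nonneg _)] at h2
    exact h2.le
  have h2 : ∫ y, |F (σ.S x y)| ∂μ = ∫ y, |F y| ∂μ := by
    have h3 := integral_map (μ := μ) (σ.mp x).measurable.aemeasurable
      (f := fun y => |F y|) (hFm.abs.aestronglyMeasurable)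
    rw [(σ.mp x).map_eq] at h3
    exact h3.symm
  have h3 : (∑ k ∈ Finset.range M, μ.real (σ.sh (x + k) B ∩ W)) - M * (μ.real B * μ.real W) =
      M * ∫ y in W, F (σ.S x y) ∂μ := by
    have e1 : ∀ k : ℕ, μ.real (σ.sh (x + k) B ∩ W) =
        ∫ y in W, B.indicator (fun _ => (1 : ℝ)) ((σ.S 1)^[k] (σ.S x y)) ∂μ := by
      intro k
      have e2 : (fun y => B.indicator (fun _ => (1 : ℝ)) ((σ.S 1)^[k] (σ.S x y))) =
          (σ.sh (x + k) B).indicator (fun _ => (1 : ℝ)) := by
        funext y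
        exact (eg_ind σ x k B y).symm
      rw [e2, integral_indicator_const _ (σ.meas_sh _ hB), measureReal_restrict_apply
        (σ.meas_sh _ hB), smul_eq_mul, mul_one]
    have e3 : ∀ k ∈ Finset.range M, Integrable
        (fun y => B.indicator (fun _ => (1 : ℝ)) ((σ.S 1)^[k] (σ.S x y))) (μ.restrict W) := by
      intro k _
      have e2 : (fun y => B.indicator (fun _ => (1 : ℝ)) ((σ.S 1)^[k] (σ.S x y))) =
          (σ.sh (x + k) B).indicator (fun _ => (1 : ℝ)) := by
        funext y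
        exact (eg_ind σ x k B y).symm
      rw [e2]
      exact (integrable_const (1 : ℝ)).indicator (σ.meas_sh _ hB)
    have e4 : ∀ y, M * F (σ.S x y) =
        (∑ k ∈ Finset.range M, B.indicator (fun _ => (1 : ℝ)) ((σ.S 1)^[k] (σ.S x y))) -
          M * μ.real B := by
      intro y
      show M * ((∑ k ∈ Finset.range M, B.indicator (fun _ => (1 : ℝ)) ((σ.S 1)^[k] (σ.S x y))) / M
        - μ.real B) = _
      rw [mul_sub, mul_div_cancel₀ _ hM0.ne']
    have e5 : M * ∫ y in W, F (σ.S x y) ∂μ = ∫ y in W, M * F (σ.S x y) ∂μ :=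
      (integral_const_mul _ _).symm
    rw [e5]
    simp only [e4]
    rw [integral_sub (integrable_finsetSum _ e3) (integrable_const _), integral_finsetSum _ e3,
      setIntegral_const, smul_eq_mul]
    rw [Finset.sum_congr rfl fun k _ => e1 k]
    ring
  rw [h3, abs_mul, abs_of_pos hM0, mul_comm]
  refine mul_le_mul_of_nonneg_right ?_ hM0.le
  calc |∫ y in W, F (σ.S x y) ∂μ| ≤ ∫ y in W, |F (σ.S x y)| ∂μ := abs_integral_le_integral_abs
    _ ≤ ∫ y, |F (σ.S x y)| ∂μ := setIntegral_le_integral hFx.abs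
        (Eventually.of_forall fun y => abs_nonneg _)
    _ ≤ ε := by rw [h2]; exact h1

theorem small_of (σ : Sys μ) [IsProbabilityMeasure μ] {B W : Set X} (hB : MeasurableSet B)
    (hW : MeasurableSet W) {δ : ℝ} (h : ∀ x : ℤ, μ.real (σ.sh x B ∩ W) ≤ δ) :
    μ.real B * μ.real W ≤ δ := by
  by_contra hcon
  have hcon' : 0 < (μ.real B * μ.real W - δ) / 2 := by linarith [not_le.1 hcon]
  obtain ⟨N, hN⟩ := erg_avg σ hB hW hcon'
  have h1 := hN (N + 1) (Nat.le_succ N) 0
  have h2 : (∑ k ∈ Finset.range (N + 1), μ.real (σ.sh (0 + k) B ∩ W)) ≤ (N + 1 : ℕ) * δ := by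
    calc (∑ k ∈ Finset.range (N + 1), μ.real (σ.sh (0 + k) B ∩ W))
        ≤ ∑ k ∈ Finset.range (N + 1), δ := Finset.sum_le_sum fun k _ => h _
      _ = (N + 1 : ℕ) * δ := by rw [Finset.sum_const, Finset.card_range, nsmul_eq_mul]
  have h3 := (abs_le.1 h1).1
  have h4 : (0 : ℝ) < ((N + 1 : ℕ) : ℝ) := by exact_mod_cast Nat.succ_pos N
  nlinarith

end Pool.Agent.DOR
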