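import Pool.Agent.DOR.Defs

/-!
DOR-Ex. Correspondence principle with an ergodic measure (Defs only).

`inv`: an invariant measure is a limit of the empirical measures of the orbit of the indicator of `E`.
`exists_erg`: maximise the measures of the cylinders one after the other over the compact set of the
invariant measures with the given support property; the result is an extreme point, hence ergodic.
-/

set_option autoImplicit false

open MeasureTheory

namespace Pool.Agent.DOR

/-- the shift -/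
def shift (ω : ℤ → Bool) : ℤ → Bool := fun i => ω (i + 1)

/-- the measure charges only patterns of `E` -/
def Supp (E : Set ℤ) (μ : Measure (ℤ → Bool)) : Prop :=
  ∀ p q : ℤ, (∀ u ∈ E, ∀ v ∈ E, u - v ≠ p - q) → μ {ω | ω p = true ∧ ω q = true} = 0

/-! ### Cylinders -/

/-- the cylinder of the points which are `true` on `J` -/
private def cyl (J : Finset ℤ) : Set (ℤ → Bool) := {ω | ∀ i ∈ J, ω i = true}

private theorem clopen_cyl (J : Finset ℤ) : IsClopen (cyl J) := by
  have h : cyl J = ⋂ i ∈ J, (fun ω : ℤ → Bool => ω i) ⁻¹' {true} := by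
    ext ω
    simp [cyl]
  rw [h]
  exact isClopen_biInter_finset fun i _ => (isClopen_discrete _).preimage (continuous_apply i)

private theorem meas_cyl (J : Finset ℤ) : MeasurableSet (cyl J) :=
  (clopen_cyl J).1.measurableSet

private theorem cont_shift : Continuous shift := continuous_pi fun i => continuous_apply (i + 1)

private theorem clopen_shift (J : Finset ℤ) : IsClopen (shift ⁻¹' cyl J) :=
  (clopen_cyl J).preimage cont_shift

private theorem cont_real {C : Set (ℤ → Bool)} (hC : IsClopen C) :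
    Continuous (fun μ : ProbabilityMeasure (ℤ → Bool) => (μ : Measure (ℤ → Bool)).real C) := by
  have h : Continuous (fun μ : ProbabilityMeasure (ℤ → Bool) => μ C) := by
    rw [continuous_iff_continuousAt]
    intro μ
    exact ProbabilityMeasure.tendsto_measure_of_isClopen_of_tendsto Filter.tendsto_id hC
  exact NNReal.continuous_coe.comp h

private theorem cyl_pair (p q : ℤ) : {ω : ℤ → Bool | ω p = true ∧ ω q = true} = cyl {p, q} := by
  ext ω
  simp [cyl]

private theorem cyl_zero : {ω : ℤ → Bool | ω 0 = true} = cyl {0} := by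
  ext ω
  simp [cyl]

private theorem ext_cyl {μ ν : Measure (ℤ → Bool)} [IsProbabilityMeasure μ]
    [IsProbabilityMeasure ν] (h : ∀ J, μ (cyl J) = ν (cyl J)) : μ = ν := by
  refine ext_of_generate_finite (Set.range cyl) ?_ ?_ ?_ ?_
  · apply le_antisymm
    · refine iSup_le fun i => ?_
      have h1 : MeasurableSet[MeasurableSpace.generateFrom (Set.range cyl)]
          ((fun ω : ℤ → Bool => ω i) ⁻¹' {true}) := by
        have h2 : ((fun ω : ℤ → Bool => ω i) ⁻¹' {true}) = cyl {i} := by
          ext ω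
          simp [cyl]
        rw [h2]
        exact MeasurableSpace.measurableSet_generateFrom ⟨_, rfl⟩
      have h3 : @Measurable _ _ (MeasurableSpace.generateFrom (Set.range cyl)) _
          (fun ω : ℤ → Bool => ω i) :=
        @measurable_to_bool _ (MeasurableSpace.generateFrom (Set.range cyl)) _ h1
      exact measurable_iff_comap_le.mp h3
    · refine MeasurableSpace.generateFrom_le ?_
      rintro _ ⟨J, rfl⟩
      exact (meas_cyl J)
  · rintro _ ⟨J, rfl⟩ _ ⟨K, rfl⟩ _
    refine ⟨J ∪ K, ?_⟩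
    ext ω
    simp only [cyl, Finset.mem_union, or_imp, forall_and, Set.mem_ofPred_eq, Set.mem_inter_iff]
  · rintro _ ⟨J, rfl⟩
    exact h J
  · rw [measure_univ, measure_univ]

private theorem mp_of_cyl {μ : Measure (ℤ → Bool)} [IsProbabilityMeasure μ]
    (h : ∀ J, μ.real (shift ⁻¹' cyl J) = μ.real (cyl J)) : MeasurePreserving shift μ μ := by
  refine ⟨cont_shift.measurable, ?_⟩
  have : IsProbabilityMeasure (μ.map shift) :=
    Measure.isProbabilityMeasure_map cont_shift.measurable.aemeasurable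
  apply ext_cyl
  intro J
  rw [Measure.map_apply cont_shift.measurable (meas_cyl J)]
  have h1 := h J
  rw [Measure.real, Measure.real] at h1
  exact (ENNReal.toReal_eq_toReal_iff' (measure_ne_top _ _) (measure_ne_top _ _)).mp h1

/-! ### Empirical measures -/

open Classical in
/-- the points of the orbit -/
private noncomputable def pt (E : Set ℤ) (k : ℤ) : ℤ → Bool := fun i => decide (i + k ∈ E)

private theorem pt_true (E : Set ℤ) (k i : ℤ) : pt E k i = true ↔ i + k ∈ E := by
  simp [pt]

private theorem shift_pt (E : Set ℤ) (k : ℤ) : shift (pt E k) = pt E (k + 1) := by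
  funext i
  rw [Bool.eq_iff_iff]
  unfold shift
  rw [pt_true, pt_true]
  rw [show i + 1 + k = i + (k + 1) by ring]

/-- the empirical measure -/
private noncomputable def em (E : Set ℤ) (x : ℤ) (M : ℕ) : Measure (ℤ → Bool) :=
  (M : ENNReal)⁻¹ • ∑ k ∈ Finset.range M, Measure.dirac (pt E (x + (k : ℤ)))

private theorem prob_em (E : Set ℤ) (x : ℤ) {M : ℕ} (hM : 0 < M) :
    IsProbabilityMeasure (em E x M) := by
  constructor
  rw [em, Measure.smul_apply, Measure.finsetSum_apply]
  simp only [measure_univ, Finset.sum_const, Finset.card_range, smul_eq_mul, nsmul_eq_mul,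
    mul_one]
  exact ENNReal.inv_mul_cancel (by exact_mod_cast hM.ne') (ENNReal.natCast_ne_top M)

open Classical in
private theorem real_em (E : Set ℤ) (x : ℤ) (M : ℕ) {C : Set (ℤ → Bool)}
    (hC : MeasurableSet C) : (em E x M).real C =
      (∑ k ∈ Finset.range M, if pt E (x + (k : ℤ)) ∈ C then (1 : ℝ) else 0) / M := by
  have h1 : (em E x M) C = (M : ENNReal)⁻¹ *
      ∑ k ∈ Finset.range M, (if pt E (x + (k : ℤ)) ∈ C then (1 : ENNReal) else 0) := by
    rw [em, Measure.smul_apply, Measure.finsetSum_apply, smul_eq_mul]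
    congr 1
    apply Finset.sum_congr rfl
    intro k _
    rw [Measure.dirac_apply' _ hC, Set.indicator_apply]
    rfl
  rw [Measure.real, h1, ENNReal.toReal_mul, ENNReal.toReal_inv, ENNReal.toReal_natCast,
    ENNReal.toReal_sum]
  · rw [div_eq_inv_mul]
    congr 1
    apply Finset.sum_congr rfl
    intro k _
    split_ifs
    · exact ENNReal.toReal_one
    · exact ENNReal.toReal_zero
  · intro k _
    split_ifs
    · exact ENNReal.one_ne_top
    · exact ENNReal.zero_ne_top

/-- the empirical measures are almost invariant -/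
private theorem em_shift (E : Set ℤ) (x : ℤ) {M : ℕ} {C : Set (ℤ → Bool)}
    (hC : MeasurableSet C) :
    |(em E x M).real (shift ⁻¹' C) - (em E x M).real C| ≤ 1 / M := by
  classical
  rw [real_em E x M (cont_shift.measurable hC), real_em E x M hC, ← sub_div,
    ← Finset.sum_sub_distrib, abs_div, Nat.abs_cast]
  obtain ⟨f, hf⟩ : ∃ f : ℕ → ℝ, f = fun k : ℕ => if pt E (x + (k : ℤ)) ∈ C then (1 : ℝ) else 0 :=
    ⟨_, rfl⟩
  have h1 : ∑ k ∈ Finset.range M, ((if pt E (x + (k : ℤ)) ∈ shift ⁻¹' C then (1 : ℝ) else 0) -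
      (if pt E (x + (k : ℤ)) ∈ C then (1 : ℝ) else 0)) =
      ∑ k ∈ Finset.range M, (f (k + 1) - f k) := by
    apply Finset.sum_congr rfl
    intro k _
    rw [hf]
    have h2 : pt E (x + (k : ℤ)) ∈ shift ⁻¹' C ↔ pt E (x + ((k + 1 : ℕ) : ℤ)) ∈ C := by
      rw [Set.mem_preimage, shift_pt]
      rw [show x + (k : ℤ) + 1 = x + ((k + 1 : ℕ) : ℤ) by push_cast; ring]
    simp only [h2]
  rw [h1, Finset.sum_range_sub]
  have h3 : ∀ k, 0 ≤ f k ∧ f k ≤ 1 := by
    intro k
    rw [hf]
    dsimp only
    split_ifs <;> norm_num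
  have h4 : |f M - f 0| ≤ 1 := by
    rw [abs_le]
    have h5 := h3 M
    have h6 := h3 0
    constructor <;> linarith [h5.1, h5.2, h6.1, h6.2]
  exact div_le_div_of_nonneg_right h4 (Nat.cast_nonneg M)

private theorem em_supp (E : Set ℤ) (x : ℤ) (M : ℕ) {p q : ℤ}
    (h : ∀ u ∈ E, ∀ v ∈ E, u - v ≠ p - q) : (em E x M).real (cyl {p, q}) = 0 := by
  classical
  rw [real_em E x M (meas_cyl _)]
  have h1 : ∑ k ∈ Finset.range M, (if pt E (x + (k : ℤ)) ∈ cyl {p, q} then (1 : ℝ) else 0) =
      0 := by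
    apply Finset.sum_eq_zero
    intro k _
    rw [if_neg]
    rw [← cyl_pair]
    rintro ⟨h2, h3⟩
    rw [pt_true] at h2 h3
    exact h _ h2 _ h3 (by ring)
  rw [h1, zero_div]

private theorem em_cnt (E : Set ℤ) (x : ℤ) (M : ℕ) :
    (em E x M).real (cyl {0}) = (cnt E x M : ℝ) / M := by
  classical
  rw [real_em E x M (meas_cyl _)]
  congr 1
  rw [Finset.sum_boole]
  congr 1
  have h1 : E ∩ Set.Ico x (x + (M : ℤ)) = ((Finset.filter
      (fun k : ℕ => pt E (x + (k : ℤ)) ∈ cyl {0}) (Finset.range M)).image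
        (fun k : ℕ => x + (k : ℤ)) : Finset ℤ) := by
    ext y
    simp only [Set.mem_inter_iff, Set.mem_Ico, Finset.coe_image, Set.mem_image,
      Finset.mem_coe, Finset.mem_filter, Finset.mem_range]
    constructor
    · rintro ⟨hy, h2, h3⟩
      refine ⟨(y - x).toNat, ⟨by omega, ?_⟩, by omega⟩
      rw [← cyl_zero]
      have h4 : x + ((y - x).toNat : ℤ) = y := by omega
      rw [h4]
      change pt E y 0 = true
      rw [pt_true, zero_add]
      exact hy
    · rintro ⟨k, ⟨h2, h3⟩, rfl⟩
      rw [← cyl_zero] at h3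
      have h4 : pt E (x + (k : ℤ)) 0 = true := h3
      rw [pt_true, zero_add] at h4
      exact ⟨h4, by omega, by omega⟩
  rw [cnt, h1, Set.ncard_coe_finset, Finset.card_image_of_injective]
  intro k l hkl
  have : x + (k : ℤ) = x + (l : ℤ) := hkl
  omega

theorem inv {E : Set ℤ} {a : ℝ} (hE : UD E a) :
    ∃ μ : ProbabilityMeasure (ℤ → Bool), MeasurePreserving shift (μ : Measure (ℤ → Bool)) μ ∧
      Supp E μ ∧ a ≤ (μ : Measure (ℤ → Bool)).real {ω | ω 0 = true} := by
  have hE2 : ∀ j : ℕ, ∃ M : ℕ, j + 1 ≤ M ∧ ∃ x : ℤ,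
      (a - 1 / ((j : ℝ) + 1)) * M ≤ cnt E x M := fun j =>
    hE (1 / ((j : ℝ) + 1)) (by positivity) (j + 1)
  choose M hM x hx using hE2
  have hMpos : ∀ j, 0 < M j := fun j => lt_of_lt_of_le (Nat.succ_pos j) (hM j)
  obtain ⟨μs, hμs⟩ : ∃ μs : ℕ → ProbabilityMeasure (ℤ → Bool),
      ∀ j, (μs j : Measure (ℤ → Bool)) = em E (x j) (M j) :=
    ⟨fun j => ⟨em E (x j) (M j), prob_em E (x j) (hMpos j)⟩, fun j => rfl⟩
  obtain ⟨F, hF⟩ : ∃ F : Ultrafilter ℕ, (F : Filter ℕ) ≤ Filter.atTop :=
    ⟨Ultrafilter.of Filter.atTop, Ultrafilter.of_le _⟩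
  obtain ⟨μ, hμ⟩ : ∃ μ : ProbabilityMeasure (ℤ → Bool), Filter.Tendsto μs F (nhds μ) :=
    ⟨(F.map μs).lim, (F.map μs).le_nhds_lim⟩
  have hlim : ∀ {C : Set (ℤ → Bool)}, IsClopen C →
      Filter.Tendsto (fun j => (em E (x j) (M j)).real C) F
        (nhds ((μ : Measure (ℤ → Bool)).real C)) := by
    intro C hC
    have h := ((cont_real hC).tendsto μ).comp hμ
    refine h.congr fun j => ?_
    change (μs j : Measure (ℤ → Bool)).real C = _
    rw [hμs]
  have hzero : Filter.Tendsto (fun j : ℕ => 1 / ((j : ℝ) + 1)) F (nhds 0) :=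
    tendsto_one_div_add_atTop_nhds_zero_nat.mono_left hF
  refine ⟨μ, ?_, ?_, ?_⟩
  · apply mp_of_cyl
    intro J
    have h1 : Filter.Tendsto (fun j => |(em E (x j) (M j)).real (shift ⁻¹' cyl J) -
        (em E (x j) (M j)).real (cyl J)|) F
        (nhds |(μ : Measure (ℤ → Bool)).real (shift ⁻¹' cyl J) -
          (μ : Measure (ℤ → Bool)).real (cyl J)|) :=
      ((hlim (clopen_shift J)).sub (hlim (clopen_cyl J))).abs
    have h2 : |(μ : Measure (ℤ → Bool)).real (shift ⁻¹' cyl J) -
          (μ : Measure (ℤ → Bool)).real (cyl J)| ≤ 0 := by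
      refine le_of_tendsto_of_tendsto' h1 hzero fun j => ?_
      refine (em_shift E (x j) (meas_cyl J)).trans ?_
      apply one_div_le_one_div_of_le (by positivity)
      exact_mod_cast hM j
    have h3 := abs_nonpos_iff.mp h2
    linarith
  · intro p q hpq
    rw [cyl_pair]
    have h1 := hlim (clopen_cyl {p, q})
    have h2 : (fun j => (em E (x j) (M j)).real (cyl {p, q})) = fun _ => (0 : ℝ) := by
      funext j
      exact em_supp E (x j) (M j) hpq
    rw [h2] at h1
    have h3 : (μ : Measure (ℤ → Bool)).real (cyl {p, q}) = 0 :=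
      tendsto_nhds_unique h1 tendsto_const_nhds
    rwa [measureReal_eq_zero_iff] at h3
  · rw [cyl_zero]
    have h1 := hlim (clopen_cyl {0})
    have h2 : Filter.Tendsto (fun j : ℕ => a - 1 / ((j : ℝ) + 1)) F (nhds (a - 0)) :=
      tendsto_const_nhds.sub hzero
    rw [sub_zero] at h2
    refine le_of_tendsto_of_tendsto' h2 h1 fun j => ?_
    rw [em_cnt, le_div_iff₀ (by exact_mod_cast hMpos j)]
    exact hx j

/-! ### Lexicographic maximisation -/

/-- the compact sets of the maximisation -/
private def KK (E : Set ℤ) (J : ℕ → Finset ℤ) : ℕ → Set (ProbabilityMeasure (ℤ → Bool))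
  | 0 => {μ | (∀ J, (μ : Measure (ℤ → Bool)).real (shift ⁻¹' cyl J) =
      (μ : Measure (ℤ → Bool)).real (cyl J)) ∧ ∀ p q, (∀ u ∈ E, ∀ v ∈ E, u - v ≠ p - q) →
        (μ : Measure (ℤ → Bool)).real (cyl {p, q}) = 0}
  | i + 1 => {μ | μ ∈ KK E J i ∧ ∀ ν ∈ KK E J i, (ν : Measure (ℤ → Bool)).real (cyl (J i)) ≤
      (μ : Measure (ℤ → Bool)).real (cyl (J i))}

private theorem KK_closed (E : Set ℤ) (J : ℕ → Finset ℤ) (i : ℕ) : IsClosed (KK E J i) := by
  induction i with
  | zero =>
    have h : KK E J 0 = (⋂ J, {μ : ProbabilityMeasure (ℤ → Bool) |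
        (μ : Measure (ℤ → Bool)).real (shift ⁻¹' cyl J) =
          (μ : Measure (ℤ → Bool)).real (cyl J)}) ∩
        ⋂ (p : ℤ) (q : ℤ) (_ : ∀ u ∈ E, ∀ v ∈ E, u - v ≠ p - q),
          {μ : ProbabilityMeasure (ℤ → Bool) |
            (μ : Measure (ℤ → Bool)).real (cyl {p, q}) = 0} := by
      ext μ
      simp only [KK, Set.mem_inter_iff, Set.mem_iInter, Set.mem_ofPred_eq]
    rw [h]
    refine IsClosed.inter (isClosed_iInter fun J => ?_) (isClosed_iInter fun p =>
      isClosed_iInter fun q => isClosed_iInter fun _ => ?_)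
    · exact isClosed_eq (cont_real (clopen_shift J)) (cont_real (clopen_cyl J))
    · exact isClosed_eq (cont_real (clopen_cyl _)) continuous_const
  | succ i ih =>
    have h : KK E J (i + 1) = KK E J i ∩ ⋂ ν ∈ KK E J i, {μ : ProbabilityMeasure (ℤ → Bool) |
        (ν : Measure (ℤ → Bool)).real (cyl (J i)) ≤
          (μ : Measure (ℤ → Bool)).real (cyl (J i))} := by
      ext μ
      simp only [KK, Set.mem_inter_iff, Set.mem_iInter, Set.mem_ofPred_eq]
    rw [h]
    refine IsClosed.inter ih (isClosed_iInter fun ν => isClosed_iInter fun _ => ?_)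
    exact isClosed_le continuous_const (cont_real (clopen_cyl _))

private theorem KK_nonempty {E : Set ℤ} (J : ℕ → Finset ℤ) (h0 : (KK E J 0).Nonempty) (i : ℕ) :
    (KK E J i).Nonempty := by
  induction i with
  | zero => exact h0
  | succ i ih =>
    obtain ⟨μ, hμ, hmax⟩ := (KK_closed E J i).isCompact.exists_isMaxOn ih
      (cont_real (clopen_cyl (J i))).continuousOn
    exact ⟨μ, hμ, fun ν hν => hmax hν⟩

theorem exists_erg {E : Set ℤ} {a : ℝ} (hE : UD E a) :
    ∃ μ : Measure (ℤ → Bool), ∃ _ : IsProbabilityMeasure μ, Ergodic shift μ ∧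
      Supp E μ ∧ a ≤ μ.real {ω | ω 0 = true} := by
  obtain ⟨μ₀, hμ₀, hs₀, ha₀⟩ := inv hE
  obtain ⟨e, he⟩ := exists_surjective_nat (Finset ℤ)
  obtain ⟨J, hJ0, hJ⟩ : ∃ J : ℕ → Finset ℤ, J 0 = {0} ∧ ∀ K, ∃ i, J i = K := by
    refine ⟨fun i => Nat.casesOn i {0} e, rfl, fun K => ?_⟩
    obtain ⟨i, hi⟩ := he K
    exact ⟨i + 1, hi⟩
  have h0 : μ₀ ∈ KK E J 0 := by
    refine ⟨fun K => ?_, fun p q hpq => ?_⟩
    · rw [Measure.real, Measure.real, hμ₀.measure_preimage
        (meas_cyl K).nullMeasurableSet]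
    · rw [Measure.real, ← cyl_pair, hs₀ p q hpq]
      exact ENNReal.toReal_zero
  obtain ⟨μ, hμ⟩ := IsCompact.nonempty_iInter_of_sequence_nonempty_isCompact_isClosed (KK E J)
    (fun i ν hν => hν.1) (KK_nonempty J ⟨μ₀, h0⟩) (KK_closed E J 0).isCompact (KK_closed E J)
  rw [Set.mem_iInter] at hμ
  have hμ1 : MeasurePreserving shift (μ : Measure (ℤ → Bool)) μ := mp_of_cyl (hμ 0).1
  refine ⟨μ, inferInstance, ?_, ?_, ?_⟩
  · apply Ergodic.of_mem_extremePoints
    rw [mem_extremePoints_iff_left]
    refine ⟨⟨hμ1, inferInstance⟩, ?_⟩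
    rintro μ₁ ⟨h1, h1p⟩ μ₂ ⟨h2, h2p⟩ ⟨s, t, hs, ht, hst, hcomb⟩
    have hs_top : s ≠ ⊤ := by
      intro h
      rw [h, top_add] at hst
      exact ENNReal.top_ne_one hst
    have ht_top : t ≠ ⊤ := by
      intro h
      rw [h, add_top] at hst
      exact ENNReal.top_ne_one hst
    have hs' : 0 < s.toReal := ENNReal.toReal_pos hs.ne' hs_top
    have ht' : 0 < t.toReal := ENNReal.toReal_pos ht.ne' ht_top
    have hst' : s.toReal + t.toReal = 1 := by
      rw [← ENNReal.toReal_add hs_top ht_top, hst, ENNReal.toReal_one]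
    have hreal : ∀ C : Set (ℤ → Bool), (μ : Measure (ℤ → Bool)).real C =
        s.toReal * μ₁.real C + t.toReal * μ₂.real C := by
      intro C
      rw [← hcomb, Measure.real, Measure.add_apply, Measure.smul_apply, Measure.smul_apply,
        smul_eq_mul, smul_eq_mul, ENNReal.toReal_add
          (ENNReal.mul_ne_top hs_top (measure_ne_top _ _))
          (ENNReal.mul_ne_top ht_top (measure_ne_top _ _)), ENNReal.toReal_mul,
        ENNReal.toReal_mul]
      rfl
    have key : ∀ i, (⟨μ₁, h1p⟩ : ProbabilityMeasure (ℤ → Bool)) ∈ KK E J i ∧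
        (⟨μ₂, h2p⟩ : ProbabilityMeasure (ℤ → Bool)) ∈ KK E J i ∧
        ∀ l < i, μ₁.real (cyl (J l)) = (μ : Measure (ℤ → Bool)).real (cyl (J l)) := by
      intro i
      induction i with
      | zero =>
        refine ⟨⟨fun K => ?_, fun p q hpq => ?_⟩, ⟨fun K => ?_, fun p q hpq => ?_⟩,
          fun l hl => absurd hl (Nat.not_lt_zero l)⟩
        · change μ₁.real _ = μ₁.real _
          rw [Measure.real, Measure.real, h1.measure_preimage
            (meas_cyl K).nullMeasurableSet]
        · change μ₁.real _ = 0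
          have h3 := hreal (cyl {p, q})
          rw [(hμ 0).2 p q hpq] at h3
          have h4 : 0 ≤ μ₁.real (cyl {p, q}) := measureReal_nonneg
          have h5 : 0 ≤ μ₂.real (cyl {p, q}) := measureReal_nonneg
          have h6 : 0 ≤ t.toReal * μ₂.real (cyl {p, q}) := mul_nonneg ht'.le h5
          nlinarith
        · change μ₂.real _ = μ₂.real _
          rw [Measure.real, Measure.real, h2.measure_preimage
            (meas_cyl K).nullMeasurableSet]
        · change μ₂.real _ = 0
          have h3 := hreal (cyl {p, q})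
          rw [(hμ 0).2 p q hpq] at h3
          have h4 : 0 ≤ μ₁.real (cyl {p, q}) := measureReal_nonneg
          have h5 : 0 ≤ μ₂.real (cyl {p, q}) := measureReal_nonneg
          have h6 : 0 ≤ s.toReal * μ₁.real (cyl {p, q}) := mul_nonneg hs'.le h4
          nlinarith
      | succ i ih =>
        obtain ⟨ih1, ih2, ih3⟩ := ih
        have hmax := (hμ (i + 1)).2
        have h3 : μ₁.real (cyl (J i)) ≤ (μ : Measure (ℤ → Bool)).real (cyl (J i)) :=
          hmax _ ih1
        have h4 : μ₂.real (cyl (J i)) ≤ (μ : Measure (ℤ → Bool)).real (cyl (J i)) :=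
          hmax _ ih2
        have h5 := hreal (cyl (J i))
        have h6 : μ₁.real (cyl (J i)) = (μ : Measure (ℤ → Bool)).real (cyl (J i)) := by
          apply le_antisymm h3
          have h7 : t.toReal = 1 - s.toReal := by linarith
          have h8 : t.toReal * μ₂.real (cyl (J i)) ≤
              t.toReal * (μ : Measure (ℤ → Bool)).real (cyl (J i)) :=
            mul_le_mul_of_nonneg_left h4 ht'.le
          rw [h7] at h5 h8
          have h9 : s.toReal * (μ : Measure (ℤ → Bool)).real (cyl (J i)) ≤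
              s.toReal * μ₁.real (cyl (J i)) := by linarith
          exact le_of_mul_le_mul_left h9 hs'
        have h6' : μ₂.real (cyl (J i)) = (μ : Measure (ℤ → Bool)).real (cyl (J i)) := by
          apply le_antisymm h4
          have h7 : s.toReal = 1 - t.toReal := by linarith
          rw [h6, h7] at h5
          have h9 : t.toReal * (μ : Measure (ℤ → Bool)).real (cyl (J i)) ≤
              t.toReal * μ₂.real (cyl (J i)) := by linarith
          exact le_of_mul_le_mul_left h9 ht'
        refine ⟨⟨ih1, fun ν hν => ?_⟩, ⟨ih2, fun ν hν => ?_⟩, fun l hl => ?_⟩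
        · change _ ≤ μ₁.real _
          rw [h6]
          exact hmax ν hν
        · change _ ≤ μ₂.real _
          rw [h6']
          exact hmax ν hν
        · rcases Nat.lt_succ_iff_lt_or_eq.mp hl with h | h
          · exact ih3 l h
          · rw [h]
            exact h6
    apply ext_cyl
    intro K
    obtain ⟨i, hi⟩ := hJ K
    have h3 := (key (i + 1)).2.2 i (Nat.lt_succ_self i)
    rw [hi, Measure.real, Measure.real] at h3
    exact (ENNReal.toReal_eq_toReal_iff' (measure_ne_top _ _) (measure_ne_top _ _)).mp h3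
  · intro p q hpq
    rw [cyl_pair]
    have h3 := (hμ 0).2 p q hpq
    rwa [measureReal_eq_zero_iff] at h3
  · have h3 := (hμ 1).2 μ₀ h0
    rw [hJ0, ← cyl_zero] at h3
    exact ha₀.trans h3

end Pool.Agent.DOR
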