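import Pool.Agent.DOR.Defs

/-!
DOR-Fin. A subset of `ZMod g` without two elements that differ by `b` has at most `mm b g` elements (Defs only).

The classes modulo `gcd(b,g)` are invariant under the translation by `b`, and a class contains at most twice
as many elements as `P` meets in it.
-/

set_option autoImplicit false

namespace Pool.Agent.DOR

private theorem fib_le {g : ℕ} (hg : 0 < g) (b t : ℕ) (htg : t ∣ g) (htb : t ∣ b)
    (P : Finset (ZMod g)) (h : ∀ p ∈ P, p + (b : ZMod g) ∉ P) (j : ℕ) :
    (P.filter (fun p => p.val % t = j)).card ≤ g / (2 * t) := by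
  have : NeZero g := ⟨hg.ne'⟩
  set A : Finset (ZMod g) := Finset.univ.filter (fun p : ZMod g => p.val % t = j) with hA
  set Q : Finset (ZMod g) := P.filter (fun p => p.val % t = j) with hQ
  have hAc : A.card ≤ g / t := by
    have h1 : A.card ≤ (Finset.range (g / t)).card := by
      refine Finset.card_le_card_of_injOn (fun p : ZMod g => p.val / t) ?_ ?_
      · intro p _
        have h2 : p.val < g := ZMod.val_lt p
        have h3 : p.val / t < g / t :=
          Nat.div_lt_div_of_lt_of_dvd htg h2
        simpa using h3
      · intro p hp p' hp' hpp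
        have e1 : p.val % t = j := by
          have := hp
          rw [Finset.mem_coe, hA, Finset.mem_filter] at this
          exact this.2
        have e2 : p'.val % t = j := by
          have := hp'
          rw [Finset.mem_coe, hA, Finset.mem_filter] at this
          exact this.2
        have e3 : p.val / t = p'.val / t := hpp
        apply ZMod.val_injective g
        rw [← Nat.div_add_mod p.val t, ← Nat.div_add_mod p'.val t, e1, e2, e3]
    rwa [Finset.card_range] at h1
  have hinj : Function.Injective (fun p : ZMod g => p + (b : ZMod g)) :=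
    add_left_injective (b : ZMod g)
  have hdisj : Disjoint Q (Q.image (fun p : ZMod g => p + (b : ZMod g))) := by
    rw [Finset.disjoint_left]
    intro p hp hp'
    obtain ⟨r, hr, hrp⟩ := Finset.mem_image.1 hp'
    have hr' : r ∈ P := (Finset.mem_filter.1 hr).1
    have hp'' : p ∈ P := (Finset.mem_filter.1 hp).1
    apply h r hr'
    have : r + (b : ZMod g) = p := hrp
    rw [this]
    exact hp''
  have hsub : Q ∪ Q.image (fun p : ZMod g => p + (b : ZMod g)) ⊆ A := by
    intro p hp
    rcases Finset.mem_union.1 hp with hp | hp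
    · exact Finset.mem_filter.2 ⟨Finset.mem_univ _, (Finset.mem_filter.1 hp).2⟩
    · obtain ⟨r, hr, hrp⟩ := Finset.mem_image.1 hp
      have hr' := (Finset.mem_filter.1 hr).2
      refine Finset.mem_filter.2 ⟨Finset.mem_univ _, ?_⟩
      have e0 : r + (b : ZMod g) = p := hrp
      rw [← e0, ZMod.val_add, Nat.mod_mod_of_dvd _ htg, ZMod.val_natCast, Nat.add_mod,
        Nat.mod_mod_of_dvd _ htg, Nat.mod_eq_zero_of_dvd htb, Nat.add_zero, Nat.mod_mod]
      exact hr'
  have hcard := (Finset.card_le_card hsub).trans hAc
  rw [Finset.card_union_of_disjoint hdisj, Finset.card_image_of_injective _ hinj] at hcard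
  have h4 : g / (2 * t) = g / t / 2 := by
    rw [Nat.div_div_eq_div_mul, Nat.mul_comm]
  rw [h4]
  omega

theorem card_le_mm {g : ℕ} (hg : 0 < g) (b : ℕ) (P : Finset (ZMod g))
    (h : ∀ p ∈ P, p + (b : ZMod g) ∉ P) : P.card ≤ mm b g := by
  have ht : 0 < Nat.gcd b g := Nat.gcd_pos_of_pos_right b hg
  have hsum := Finset.card_eq_sum_card_fiberwise (s := P) (t := Finset.range (Nat.gcd b g))
    (f := fun p => p.val % Nat.gcd b g)
    (fun p _ => Finset.mem_coe.2 (Finset.mem_range.2 (Nat.mod_lt _ ht)))
  rw [hsum]
  refine (Finset.sum_le_sum fun j _ => fib_le hg b (Nat.gcd b g) (Nat.gcd_dvd_right b g)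
    (Nat.gcd_dvd_left b g) P h j).trans ?_
  rw [Finset.sum_const, Finset.card_range, smul_eq_mul]
  exact le_of_eq rfl

end Pool.Agent.DOR
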