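import Pool.Agent.DOR.Lat
import Pool.Agent.DOR.Blk

/-!
DOR-Num. The least `b` for `n ≤ 5`, and the maximum of `ceil (M_b(g)/n) / g`.
-/

set_option autoImplicit false

namespace Pool.Agent.DOR

private theorem two_mm_le (b g : ℕ) : 2 * mm b g ≤ g := by
  unfold mm
  calc 2 * (Nat.gcd b g * (g / (2 * Nat.gcd b g)))
      = (2 * Nat.gcd b g) * (g / (2 * Nat.gcd b g)) := by ring
    _ ≤ g := Nat.mul_div_le _ _

/-- `2 n ceil(M/n) ≤ g + 2 n - 2` -/
theorem lf_bound {n b g : ℕ} (hn : 0 < n) : 2 * n * lf n b g ≤ g + 2 * n - 2 := by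
  have h1 : n * lf n b g ≤ mm b g + n - 1 := by
    unfold lf
    exact Nat.mul_div_le _ _
  have h2 := two_mm_le b g
  have h3 : 2 * n * lf n b g = 2 * (n * lf n b g) := by ring
  rw [h3]
  omega

/-- obstructions are small -/
theorem obs_lt {n r b g : ℕ} (hn : 0 < n) (hrn : r < 2 * n) (h : g ≤ r * lf n b g) :
    g < (r + 1) ^ 2 := by
  by_contra hge
  push Not at hge
  have h1 := lf_bound (b := b) (g := g) hn
  have h2 : 2 * n * g ≤ r * (g + 2 * n - 2) := by
    calc 2 * n * g ≤ 2 * n * (r * lf n b g) := Nat.mul_le_mul_left _ h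
      _ = r * (2 * n * lf n b g) := by ring
      _ ≤ _ := Nat.mul_le_mul_left _ h1
  obtain ⟨s, hs⟩ : ∃ s, 2 * n = r + 1 + s := ⟨2 * n - (r + 1), by omega⟩
  have h3 : (r + 1 + s) * g ≤ r * (g + (r + s)) := by
    rw [hs] at h2
    refine le_trans h2 (Nat.mul_le_mul_left _ (by omega))
  have h4 : (s + 1) * g ≤ r * (r + s) := by nlinarith
  have h5 : (s + 1) * (r + 1) ^ 2 ≤ (s + 1) * g := Nat.mul_le_mul_left _ hge
  have h6 : r * (r + s) < (s + 1) * (r + 1) ^ 2 := by
    have h7 : (s + 1) * (r + 1) ^ 2 = r * (r + s) + (s * r ^ 2 + r * s + s + 2 * r + 1) := by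
      ring
    omega
  omega

/-- criterion for the least good number -/
theorem crit {n r B : ℕ} (hn : 0 < n) (hr : 0 < r) (hrn : r < 2 * n) (hB : 0 < B)
    (hgood : ∀ g < (r + 1) ^ 2, 0 < g → ¬ g ∣ B → r * lf n B g < g)
    (hbad : ∀ p : ℕ, p.Prime → p ∣ B → ∃ g, 0 < g ∧ ¬ g ∣ (B / p) ∧ g ≤ r * lf n (B / p) g) :
    ∀ b : ℕ, 0 < b → (Good n r b ↔ B ∣ b) := by
  have hGB : Good n r B := by
    intro g hg hgb
    by_cases hlt : g < (r + 1) ^ 2
    · exact hgood g hlt hg hgb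
    · by_contra h
      exact hlt (obs_lt hn hrn (not_lt.1 h))
  intro b hb
  constructor
  · intro h
    have hd := good_gcd hn hr hrn hB hb hGB h
    have hdB : Nat.gcd B b ∣ B := Nat.gcd_dvd_left _ _
    by_contra hnd
    obtain ⟨m, hm⟩ := hdB
    have hm1 : m ≠ 1 := by
      intro h1
      rw [h1, mul_one] at hm
      exact hnd (hm ▸ Nat.gcd_dvd_right _ _)
    obtain ⟨p, hp, hpm⟩ := Nat.exists_prime_and_dvd hm1
    obtain ⟨m', rfl⟩ := hpm
    have hpB : p ∣ B := by
      rw [hm]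
      exact Dvd.intro_left (Nat.gcd B b * m') (by ring)
    obtain ⟨g, hg, hgB, hle⟩ := hbad p hp hpB
    have hdiv : Nat.gcd B b ∣ B / p := by
      refine ⟨m', ?_⟩
      have : B = (Nat.gcd B b * m') * p := by
        rw [mul_assoc, mul_comm m' p]
        exact hm
      calc B / p = (Nat.gcd B b * m') * p / p := by rw [← this]
        _ = _ := Nat.mul_div_cancel _ hp.pos
    have := good_mul hdiv hd g hg hgB
    omega
  · intro h
    exact good_mul h hGB

/-- primes dividing an explicit product -/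
private theorem prime_dvd {p m : ℕ} (hp : p.Prime) (L : List ℕ) (hL : ∀ q ∈ L, q.Prime)
    (hm : m = L.prod) (h : p ∣ m) : p ∈ L := by
  rw [hm, hp.prime.dvd_prod_iff] at h
  obtain ⟨q, hq, hpq⟩ := h
  rwa [(Nat.prime_dvd_prime_iff_eq hp (hL q hq)).1 hpq]

theorem num2 : ∀ b : ℕ, 0 < b → (Good 2 3 b ↔ 6 ∣ b) := by
  refine crit (by norm_num) (by norm_num) (by norm_num) (by norm_num) (by decide) ?_
  intro p hp hpB
  have h := prime_dvd hp [2, 3] (by norm_num) (by norm_num) hpB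
  simp only [List.mem_cons, List.not_mem_nil, or_false] at h
  rcases h with rfl | rfl
  · exact ⟨2, by decide⟩
  · exact ⟨3, by decide⟩

theorem num3 : ∀ b : ℕ, 0 < b → (Good 3 5 b ↔ 120 ∣ b) := by
  refine crit (by norm_num) (by norm_num) (by norm_num) (by norm_num) (by decide) ?_
  intro p hp hpB
  have h := prime_dvd hp [2, 2, 2, 3, 5] (by norm_num) (by norm_num) hpB
  simp only [List.mem_cons, List.not_mem_nil, or_false] at h
  rcases h with rfl | rfl | rfl | rfl | rfl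
  · exact ⟨8, by decide⟩
  · exact ⟨8, by decide⟩
  · exact ⟨8, by decide⟩
  · exact ⟨3, by decide⟩
  · exact ⟨5, by decide⟩

theorem num4 : ∀ b : ℕ, 0 < b → (Good 4 7 b ↔ 1141140 ∣ b) := by
  refine crit (by norm_num) (by norm_num) (by norm_num) (by norm_num) (by decide) ?_
  intro p hp hpB
  have h := prime_dvd hp [2, 2, 3, 5, 7, 11, 13, 19] (by norm_num) (by norm_num) hpB
  simp only [List.mem_cons, List.not_mem_nil, or_false] at h
  rcases h with rfl | rfl | rfl | rfl | rfl | rfl | rfl | rfl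
  · exact ⟨4, by decide⟩
  · exact ⟨4, by decide⟩
  · exact ⟨3, by decide⟩
  · exact ⟨5, by decide⟩
  · exact ⟨7, by decide⟩
  · exact ⟨11, by decide⟩
  · exact ⟨13, by decide⟩
  · exact ⟨19, by decide⟩

theorem num5 : ∀ b : ℕ, 0 < b → (Good 5 9 b ↔ 116768302560 ∣ b) := by
  refine crit (by norm_num) (by norm_num) (by norm_num) (by norm_num) (by decide) ?_
  intro p hp hpB
  have h := prime_dvd hp [2, 2, 2, 2, 2, 3, 3, 5, 7, 13, 17, 23, 43, 53] (by norm_num)
    (by norm_num) hpB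
  simp only [List.mem_cons, List.not_mem_nil, or_false] at h
  rcases h with rfl | rfl | rfl | rfl | rfl | rfl | rfl | rfl | rfl | rfl | rfl | rfl | rfl | rfl
  · exact ⟨32, by decide⟩
  · exact ⟨32, by decide⟩
  · exact ⟨32, by decide⟩
  · exact ⟨32, by decide⟩
  · exact ⟨32, by decide⟩
  · exact ⟨9, by decide⟩
  · exact ⟨9, by decide⟩
  · exact ⟨5, by decide⟩
  · exact ⟨7, by decide⟩
  · exact ⟨13, by decide⟩
  · exact ⟨17, by decide⟩
  · exact ⟨23, by decide⟩
  · exact ⟨43, by decide⟩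
  · exact ⟨53, by decide⟩

/-- the ratio `ceil (M_b(g)/n) / g`, `g ∤ b`, attains its maximum -/
theorem exists_max {n b : ℕ} (hn : 0 < n) (hb : 0 < b) :
    ∃ g : ℕ, 0 < g ∧ ¬ g ∣ b ∧
      ∀ g' : ℕ, 0 < g' → ¬ g' ∣ b → lf n b g' * g ≤ lf n b g * g' := by
  classical
  by_cases hall : ∀ g' : ℕ, 0 < g' → ¬ g' ∣ b → lf n b g' * (2 * b) ≤ lf n b (2 * b) * g'
  · refine ⟨2 * b, by omega, fun hd => ?_, hall⟩
    have := Nat.le_of_dvd hb hd
    omega
  push Not at hall
  obtain ⟨g₁, hg₁, hgb₁, h₁⟩ := hall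
  have hmm : mm b (2 * b) = b := by
    have h1 : Nat.gcd b (2 * b) = b := Nat.gcd_eq_left (Dvd.intro_left 2 rfl)
    unfold mm
    rw [h1, Nat.div_self (by omega), mul_one]
  have h2 : 2 * b ≤ 2 * n * lf n b (2 * b) := by
    have h : mm b (2 * b) ≤ n * lf n b (2 * b) := by
      unfold lf
      have h1 := Nat.div_add_mod (mm b (2 * b) + n - 1) n
      have h2 := Nat.mod_lt (mm b (2 * b) + n - 1) hn
      omega
    rw [hmm] at h
    nlinarith
  have h3 : g₁ < 2 * n * lf n b g₁ := by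
    by_contra hle
    push Not at hle
    have h4 : 2 * n * (lf n b (2 * b) * g₁) < 2 * n * (lf n b g₁ * (2 * b)) :=
      Nat.mul_lt_mul_of_pos_left h₁ (by omega)
    have h5 : 2 * n * (lf n b g₁ * (2 * b)) ≤ g₁ * (2 * b) := by
      calc 2 * n * (lf n b g₁ * (2 * b)) = (2 * n * lf n b g₁) * (2 * b) := by ring
        _ ≤ _ := Nat.mul_le_mul_right _ hle
    have h6 : 2 * b * g₁ ≤ 2 * n * (lf n b (2 * b) * g₁) := by
      calc 2 * b * g₁ ≤ (2 * n * lf n b (2 * b)) * g₁ := Nat.mul_le_mul_right _ h2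
        _ = _ := by ring
    nlinarith
  let T : Finset ℕ := (Finset.range (2 * n * g₁ + 1)).filter fun g => 0 < g ∧ ¬ g ∣ b
  have hg₁T : g₁ ∈ T := by
    simp only [T, Finset.mem_filter, Finset.mem_range]
    exact ⟨by nlinarith, hg₁, hgb₁⟩
  obtain ⟨g, hgT, hmax⟩ := Finset.exists_max_image T (fun g => (lf n b g : ℚ) / g) ⟨g₁, hg₁T⟩
  have hgT' := hgT
  simp only [T, Finset.mem_filter, Finset.mem_range] at hgT'
  obtain ⟨-, hg, hgb⟩ := hgT'
  have hg0 : (0 : ℚ) < g := by exact_mod_cast hg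
  refine ⟨g, hg, hgb, ?_⟩
  have key : ∀ g' ∈ T, lf n b g' * g ≤ lf n b g * g' := by
    intro g' hg'T
    have h := hmax g' hg'T
    simp only [T, Finset.mem_filter, Finset.mem_range] at hg'T
    have hg'0 : (0 : ℚ) < g' := by exact_mod_cast hg'T.2.1
    rw [div_le_div_iff₀ hg'0 hg0] at h
    exact_mod_cast h
  intro g' hg' hgb'
  by_cases hT : g' ∈ T
  · exact key g' hT
  · have hbig : 2 * n * g₁ < g' := by
      simp only [T, Finset.mem_filter, Finset.mem_range, not_and, not_not] at hT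
      by_contra hle
      exact hgb' (hT (by omega) hg')
    have h7 : lf n b g' * g₁ < lf n b g₁ * g' := by
      by_contra hle
      push Not at hle
      have h8 := lf_bound (b := b) (g := g') hn
      have h9 : (g₁ + 1) * g' ≤ (g' + 2 * n - 2) * g₁ := by
        calc (g₁ + 1) * g' ≤ (2 * n * lf n b g₁) * g' := Nat.mul_le_mul_right _ h3
          _ = 2 * n * (lf n b g₁ * g') := by ring
          _ ≤ 2 * n * (lf n b g' * g₁) := Nat.mul_le_mul_left _ hle
          _ = (2 * n * lf n b g') * g₁ := by ring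
          _ ≤ _ := Nat.mul_le_mul_right _ h8
      have h10 : (g' + 2 * n - 2) * g₁ ≤ (g' + 2 * n) * g₁ := Nat.mul_le_mul_right _ (by omega)
      nlinarith
    have h11 := key g₁ hg₁T
    have h12 : lf n b g' * g * g₁ ≤ lf n b g * g' * g₁ := by
      calc lf n b g' * g * g₁ = (lf n b g' * g₁) * g := by ring
        _ ≤ (lf n b g₁ * g') * g := Nat.mul_le_mul_right _ h7.le
        _ = (lf n b g₁ * g) * g' := by ring
        _ ≤ (lf n b g * g₁) * g' := Nat.mul_le_mul_right _ h11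
        _ = _ := by ring
    exact Nat.le_of_mul_le_mul_right h12 hg₁

end Pool.Agent.DOR
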