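import Pool.Agent.DOR.Main
import Pool.Agent.DOR.Num

/-!
DOR-Fin2. Statements about subsets of the positive integers.
-/

set_option autoImplicit false

namespace Pool.Agent.DOR

/-- `A` contains no solution of `x₁+…+xₙ = y₁+…+yₙ+b` in positive integers -/
def NoSol (A : Set ℕ) (n b : ℕ) : Prop :=
  ∀ x y : Fin n → ℕ, (∀ i, 0 < x i ∧ x i ∈ A ∧ 0 < y i ∧ y i ∈ A) → ∑ i, x i ≠ ∑ i, y i + b

/-- the upper Banach density of the set `A` of natural numbers is at least `a` -/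
def UBD (A : Set ℕ) (a : ℝ) : Prop :=
  ∀ ε : ℝ, 0 < ε → ∀ N : ℕ, ∃ M : ℕ, N ≤ M ∧ ∃ x : ℕ, (a - ε) * M ≤ (A ∩ Set.Ioc x (x + M)).ncard

theorem ud_of_ubd {A : Set ℕ} {a : ℝ} (h : UBD A a) :
    UD {z : ℤ | ∃ m : ℕ, 0 < m ∧ m ∈ A ∧ (m : ℤ) = z} a := by
  intro ε hε N
  obtain ⟨M, hM, x, hx⟩ := h ε hε N
  refine ⟨M, hM, (x : ℤ) + 1, hx.trans ?_⟩
  have hfin : ({z : ℤ | ∃ m : ℕ, 0 < m ∧ m ∈ A ∧ (m : ℤ) = z} ∩
      Set.Ico ((x : ℤ) + 1) ((x : ℤ) + 1 + M)).Finite := (Set.finite_Ico _ _).inter_of_right _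
  have h1 : (A ∩ Set.Ioc x (x + M)).ncard ≤ cnt {z : ℤ | ∃ m : ℕ, 0 < m ∧ m ∈ A ∧ (m : ℤ) = z}
      ((x : ℤ) + 1) M := by
    unfold cnt
    refine Set.ncard_le_ncard_of_injOn (fun m : ℕ => (m : ℤ)) ?_ ?_ hfin
    · rintro m ⟨hm, hm1, hm2⟩
      refine ⟨⟨m, by omega, hm, rfl⟩, ?_, ?_⟩
      · show (x : ℤ) + 1 ≤ m
        exact_mod_cast hm1
      · show (m : ℤ) < (x : ℤ) + 1 + M
        have : m < x + 1 + M := by omega
        exact_mod_cast this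
    · intro m _ m' _ hmm
      exact Int.ofNat_injective hmm
  exact_mod_cast h1

theorem free_of_noSol {A : Set ℕ} {n b : ℕ} (h : NoSol A n b) :
    Free {z : ℤ | ∃ m : ℕ, 0 < m ∧ m ∈ A ∧ (m : ℤ) = z} n (b : ℤ) := by
  intro u v hu hv huv
  choose x hx1 hx2 hx3 using hu
  choose y hy1 hy2 hy3 using hv
  refine h x y (fun i => ⟨hx1 i, hx2 i, hy1 i, hy2 i⟩) ?_
  have h1 : (∑ i, (x i : ℤ)) = ∑ i, (y i : ℤ) + b := by
    rw [Finset.sum_congr rfl fun i _ => hx3 i, Finset.sum_congr rfl fun i _ => hy3 i]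
    exact huv
  exact_mod_cast h1

theorem dens_le {A : Set ℕ} {n b : ℕ} (hn : 0 < n) (hb : 0 < b) (hA : NoSol A n b) {g : ℕ}
    (hg : 0 < g) (hmax : ∀ g' : ℕ, 0 < g' → ¬ g' ∣ b → lf n b g' * g ≤ lf n b g * g') {a : ℝ}
    (ha : UBD A a) : a ≤ (lf n b g : ℝ) / g := by
  rcases le_or_gt a 0 with h0 | h0
  · exact h0.trans (by positivity)
  obtain ⟨g', hg', hgb', h1⟩ := main hn hb h0 (ud_of_ubd ha) (free_of_noSol hA)
  have h2 : (lf n b g' * g : ℝ) ≤ lf n b g * g' := by exact_mod_cast hmax g' hg' hgb'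
  have h3 : (0 : ℝ) < g := by exact_mod_cast hg
  have h4 : (0 : ℝ) < g' := by exact_mod_cast hg'
  rw [le_div_iff₀ h3]
  have h5 : a * g' * g ≤ lf n b g' * g := mul_le_mul_of_nonneg_right h1 h3.le
  have h6 : a * g * g' ≤ lf n b g * g' := by linarith
  exact le_of_mul_le_mul_right h6 h4

theorem exists_set {n b g : ℕ} (hn : 0 < n) (hg : 0 < g) (hgb : ¬ g ∣ b) :
    ∃ A : Set ℕ, NoSol A n b ∧ (∀ m, m + g ∈ A ↔ m ∈ A) ∧ (A ∩ Set.Iio g).ncard = lf n b g := by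
  obtain ⟨P₀, hP₀, hsol⟩ := conSet hn hg hgb
  obtain ⟨P, hPP, hP⟩ := Finset.exists_subset_card_eq hP₀
  have : NeZero g := ⟨hg.ne'⟩
  refine ⟨{m | (m : ZMod g) ∈ P}, fun x y hxy => ?_, fun m => ?_, ?_⟩
  · exact hsol x y (fun i => hPP (hxy i).2.1) (fun i => hPP (hxy i).2.2.2)
  · show ((m + g : ℕ) : ZMod g) ∈ P ↔ (m : ZMod g) ∈ P
    push_cast
    rw [ZMod.natCast_self, add_zero]
  · have h1 : ({m : ℕ | (m : ZMod g) ∈ P} ∩ Set.Iio g) = ZMod.val '' (P : Set (ZMod g)) := by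
      ext m
      constructor
      · rintro ⟨hm, hmg⟩
        exact ⟨(m : ZMod g), hm, ZMod.val_cast_of_lt hmg⟩
      · rintro ⟨p, hp, rfl⟩
        refine ⟨?_, ZMod.val_lt p⟩
        show ((p.val : ℕ) : ZMod g) ∈ P
        rw [ZMod.natCast_zmod_val]
        exact hp
    rw [h1, Set.ncard_image_of_injective _ (ZMod.val_injective g), Set.ncard_coe_finset, hP]

theorem reg_max {n b r : ℕ} {g : ℕ} (hg : 0 < g) (hgb : ¬ g ∣ b)
    (hmax : ∀ g' : ℕ, 0 < g' → ¬ g' ∣ b → lf n b g' * g ≤ lf n b g * g') :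
    Good n r b ↔ r * lf n b g < g := by
  constructor
  · intro h
    exact h g hg hgb
  · intro h g' hg' hgb'
    have h1 := hmax g' hg' hgb'
    by_contra hle
    push Not at hle
    have h2 : g' * g ≤ r * lf n b g * g' := by
      calc g' * g ≤ (r * lf n b g') * g := Nat.mul_le_mul_right _ hle
        _ = r * (lf n b g' * g) := by ring
        _ ≤ r * (lf n b g * g') := Nat.mul_le_mul_left _ h1
        _ = _ := by ring
    have h3 : r * lf n b g * g' < g * g' := Nat.mul_lt_mul_of_pos_right h hg'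
    nlinarith

end Pool.Agent.DOR
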