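import Pool.Agent.DOR.Defs

/-!
DOR-Grow. Iterated sumsets: membership in the iterated sweep, measurability, and linear growth of the measure
under a lower bound of the expansion.
-/

set_option autoImplicit false

open MeasureTheory

namespace Pool.Agent.DOR

variable {X : Type*} [MeasurableSpace X] {μ : Measure X}

theorem mem_iter (σ : Sys μ) (E : Set ℤ) (A : Set X) (m : ℕ) (x : X) :
    x ∈ (σ.sw E)^[m] A ↔ ∃ e : Fin m → ℤ, (∀ i, e i ∈ E) ∧ σ.S (∑ i, e i) x ∈ A := by
  induction m generalizing x with
  | zero =>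
    simp only [Function.iterate_zero, id_eq]
    constructor
    · intro h
      refine ⟨fun i => i.elim0, fun i => i.elim0, ?_⟩
      rw [Finset.univ_eq_empty, Finset.sum_empty, σ.zero']
      exact h
    · rintro ⟨e, _, h⟩
      rw [Finset.univ_eq_empty, Finset.sum_empty, σ.zero'] at h
      exact h
  | succ m ih =>
    rw [Function.iterate_succ_apply', σ.mem_sw]
    constructor
    · rintro ⟨k, hk, h⟩
      obtain ⟨e, he, h2⟩ := (ih _).1 h
      refine ⟨Fin.cons k e, ?_, ?_⟩
      · intro i
        refine Fin.cases ?_ (fun j => ?_) i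
        · simpa using hk
        · simpa using he j
      · rw [Fin.sum_univ_succ]
        simp only [Fin.cons_zero, Fin.cons_succ]
        rw [add_comm, σ.add']
        exact h2
    · rintro ⟨e, he, h⟩
      refine ⟨e 0, he 0, (ih _).2 ⟨fun i => e i.succ, fun i => he _, ?_⟩⟩
      rw [← σ.add', add_comm, ← Fin.sum_univ_succ]
      exact h

theorem meas_iter (σ : Sys μ) (E : Set ℤ) {A : Set X} (hA : MeasurableSet A) (m : ℕ) :
    MeasurableSet ((σ.sw E)^[m] A) := by
  induction m with
  | zero => exact hA
  | succ m ih =>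
    rw [Function.iterate_succ_apply']
    exact σ.meas_sw E ih

theorem grow (σ : Sys μ) [IsProbabilityMeasure μ] {E : Set ℤ} {κ : ℝ} (hE : E.Nonempty)
    (hlow : Low σ E κ) {A : Set X} (hA : MeasurableSet A) (h0 : 0 < μ.real A) (m : ℕ)
    (h1 : μ.real ((σ.sw E)^[m] A) < 1) :
    μ.real A + m * κ ≤ μ.real ((σ.sw E)^[m] A) := by
  have hge : ∀ k : ℕ, μ.real A ≤ μ.real ((σ.sw E)^[k] A) := by
    intro k
    induction k with
    | zero => exact le_refl _
    | succ k ih =>
      rw [Function.iterate_succ_apply']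
      exact ih.trans (σ.le_sw hE (meas_iter σ E hA k))
  induction m with
  | zero => simp
  | succ m ih =>
    rw [Function.iterate_succ_apply'] at h1 ⊢
    have h2 : μ.real ((σ.sw E)^[m] A) < 1 :=
      lt_of_le_of_lt (σ.le_sw hE (meas_iter σ E hA m)) h1
    have h3 := hlow _ (meas_iter σ E hA m) (lt_of_lt_of_le h0 (hge m)) h1
    have h4 := ih h2
    push_cast
    linarith

end Pool.Agent.DOR
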