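import Pool.Agent.DOR.LocB
import Mathlib.NumberTheory.Chebyshev

/-!
DOR-GrowB. The growth of the least good number for `r = 2 n - 1`.
-/

set_option autoImplicit false

namespace Pool.Agent.DOR

open Real

private theorem theta_half : ∃ N₁ : ℕ, ∀ N : ℕ, N₁ ≤ N → (N : ℝ) / 2 ≤ Chebyshev.theta N := by
  obtain ⟨C, hC⟩ := Chebyshev.psi_sub_theta_le_mul_sqrt
  obtain ⟨K, hK⟩ := exists_nat_ge ((|C| + 2) / (19 / 100))
  refine ⟨K ^ 2, fun N hN => ?_⟩
  have h1 := hC N
  have h2 := Chebyshev.psi_ge N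
  have h3 : (K : ℝ) ≤ √(N : ℝ) := by
    apply Real.le_sqrt_of_sq_le
    exact_mod_cast hN
  have h4 : Real.log ((N : ℝ) + 1) ≤ 2 * √(N : ℝ) := by
    have h5 : (N : ℝ) + 1 ≤ (√(N : ℝ) + 1) ^ 2 := by
      have h6 : √(N : ℝ) ^ 2 = N := Real.sq_sqrt (Nat.cast_nonneg N)
      have h7 := Real.sqrt_nonneg (N : ℝ)
      nlinarith
    have h8 : 0 < √(N : ℝ) + 1 := by positivity
    calc Real.log ((N : ℝ) + 1) ≤ Real.log ((√(N : ℝ) + 1) ^ 2) :=
          Real.log_le_log (by positivity) h5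
      _ = 2 * Real.log (√(N : ℝ) + 1) := by
          rw [Real.log_pow]
          norm_num
      _ ≤ 2 * (√(N : ℝ) + 1 - 1) := by
          have := Real.log_le_sub_one_of_pos h8
          linarith
      _ = _ := by ring
  have h5 : C * √(N : ℝ) ≤ |C| * √(N : ℝ) :=
    mul_le_mul_of_nonneg_right (le_abs_self C) (Real.sqrt_nonneg _)
  have h6 : (0.69 : ℝ) < Real.log 2 := by
    have := Real.log_two_gt_d9
    linarith
  have h7 : (|C| + 2) * √(N : ℝ) ≤ 19 / 100 * (√(N : ℝ) * √(N : ℝ)) := by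
    have h8 : (|C| + 2) ≤ 19 / 100 * √(N : ℝ) := by
      rw [div_le_iff₀ (by norm_num)] at hK
      nlinarith
    calc (|C| + 2) * √(N : ℝ) ≤ (19 / 100 * √(N : ℝ)) * √(N : ℝ) :=
          mul_le_mul_of_nonneg_right h8 (Real.sqrt_nonneg _)
      _ = _ := by ring
  rw [Real.mul_self_sqrt (Nat.cast_nonneg N)] at h7
  have h9 : (N : ℝ) * 0.69 ≤ (N : ℝ) * Real.log 2 :=
    mul_le_mul_of_nonneg_left h6.le (Nat.cast_nonneg N)
  nlinarith

/-- the primes up to `2 n Q` which need not divide `b` -/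
private theorem card_good {n Q : ℕ} (hn : 2 ≤ n) :
    ((Nat.primesLE (2 * n * Q)).filter
      (fun p => ¬ p ≤ (2 * n - 1) * ((p / 2 + n - 1) / n))).card ≤ Q * (Q / 2 + 1) := by
  classical
  have h1 : (Finset.Icc 1 Q ×ˢ Finset.range (Q / 2 + 1)).card = Q * (Q / 2 + 1) := by
    rw [Finset.card_product, Nat.card_Icc, Finset.card_range]
    rfl
  rw [← h1]
  -- the data of a prime in the set
  have key : ∀ p ∈ (Nat.primesLE (2 * n * Q)).filter
      (fun p => ¬ p ≤ (2 * n - 1) * ((p / 2 + n - 1) / n)),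
      p = 2 * (p / 2) + 1 ∧ 1 ≤ (p / 2 + n - 1) / n ∧ (p / 2 + n - 1) / n ≤ Q ∧
        p / 2 ≤ n * ((p / 2 + n - 1) / n) ∧
        2 * (n * ((p / 2 + n - 1) / n) - p / 2) ≤ (p / 2 + n - 1) / n := by
    intro p hp
    rw [Finset.mem_filter, Nat.mem_primesLE] at hp
    obtain ⟨⟨hpN, hp⟩, hnot⟩ := hp
    rw [not_le] at hnot
    set C := (p / 2 + n - 1) / n with hC
    have hm : 1 ≤ p / 2 := Nat.div_pos hp.two_le two_pos
    have hC1 : 1 ≤ C := by
      rw [hC, Nat.le_div_iff_mul_le (by omega)]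
      omega
    have e1 := Nat.div_add_mod (p / 2 + n - 1) n
    have e2 := Nat.mod_lt (p / 2 + n - 1) (by omega : 0 < n)
    rw [← hC] at e1
    have hle : p / 2 ≤ n * C := by omega
    have e3 : (2 * n - 1) * C + C = 2 * (n * C) := by
      have : 2 * n - 1 + 1 = 2 * n := by omega
      calc (2 * n - 1) * C + C = (2 * n - 1 + 1) * C := by ring
        _ = 2 * (n * C) := by
          rw [this]
          ring
    have hodd : p = 2 * (p / 2) + 1 := by
      rcases hp.eq_two_or_odd with h | h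
      · exfalso
        have h2 : C = 1 := by
          rw [hC, h]
          apply le_antisymm
          · apply Nat.lt_succ_iff.1
            apply Nat.div_lt_of_lt_mul
            omega
          · rw [Nat.le_div_iff_mul_le (by omega)]
            omega
        rw [h2, h] at hnot
        omega
      · omega
    refine ⟨hodd, hC1, ?_, hle, by omega⟩
    have h3 : 2 * n * Q = 2 * (n * Q) := by ring
    rw [h3] at hpN
    have h4 : p / 2 + 1 ≤ n * Q := by omega
    apply Nat.lt_succ_iff.1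
    apply Nat.div_lt_of_lt_mul
    have h5 : n * (Q + 1) = n * Q + n := by ring
    rw [Nat.succ_eq_add_one, h5]
    omega
  refine Finset.card_le_card_of_injOn
    (fun p => ((p / 2 + n - 1) / n, n * ((p / 2 + n - 1) / n) - p / 2)) ?_ ?_
  · intro p hp
    obtain ⟨k1, k2, k3, k4, k5⟩ := key p hp
    simp only [Finset.coe_product, Set.mem_prod, Finset.mem_coe, Finset.mem_Icc,
      Finset.mem_range]
    refine ⟨⟨k2, k3⟩, ?_⟩
    omega
  · intro p hp q hq hpq
    obtain ⟨k1, k2, k3, k4, k5⟩ := key p hp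
    obtain ⟨l1, l2, l3, l4, l5⟩ := key q hq
    have h2 : (p / 2 + n - 1) / n = (q / 2 + n - 1) / n := congrArg Prod.fst hpq
    have h3 : n * ((p / 2 + n - 1) / n) - p / 2 = n * ((q / 2 + n - 1) / n) - q / 2 :=
      congrArg Prod.snd hpq
    rw [h2] at h3 k4
    omega

private theorem log_ge {n b : ℕ} (hn : 2 ≤ n) (hb : 0 < b) (h : Good n (2 * n - 1) b) (Q : ℕ) :
    Chebyshev.theta ((2 * n * Q : ℕ) : ℝ) -
      ((Q * (Q / 2 + 1) : ℕ) : ℝ) * Real.log ((2 * n * Q : ℕ) : ℝ) ≤ Real.log b := by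
  classical
  set N := 2 * n * Q with hN
  set A := (Nat.primesLE N).filter (fun p => p ≤ (2 * n - 1) * ((p / 2 + n - 1) / n)) with hA
  set B := (Nat.primesLE N).filter
    (fun p => ¬ p ≤ (2 * n - 1) * ((p / 2 + n - 1) / n)) with hB
  have h1 : ∑ p ∈ A, Real.log p + ∑ p ∈ B, Real.log p = Chebyshev.theta N := by
    rw [Chebyshev.theta_eq_sum_primesLE_log, hA, hB]
    exact Finset.sum_filter_add_sum_filter_not _ _ _
  have h2 : ∑ p ∈ B, Real.log p ≤ ((Q * (Q / 2 + 1) : ℕ) : ℝ) * Real.log (N : ℝ) := by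
    have h3 : ∑ p ∈ B, Real.log (p : ℝ) ≤ ∑ p ∈ B, Real.log (N : ℝ) := by
      apply Finset.sum_le_sum
      intro p hp
      rw [hB, Finset.mem_filter, Nat.mem_primesLE] at hp
      apply Real.log_le_log
      · exact_mod_cast hp.1.2.pos
      · exact_mod_cast hp.1.1
    rw [Finset.sum_const, nsmul_eq_mul] at h3
    refine h3.trans (mul_le_mul_of_nonneg_right ?_ (Real.log_natCast_nonneg N))
    exact_mod_cast card_good hn
  have h3 : ∏ p ∈ A, p ∣ b := by
    apply Finset.prod_primes_dvd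
    · intro p hp
      rw [hA, Finset.mem_filter, Nat.mem_primesLE] at hp
      exact hp.1.2.prime
    · intro p hp
      rw [hA, Finset.mem_filter, Nat.mem_primesLE] at hp
      have h4 := (good_iff_loc (by omega) (by omega) hb).1 h p 1 hp.1.2 le_rfl
        ⟨1, le_rfl, by simpa using hp.2⟩
      rwa [pow_one] at h4
  have h4 : ∑ p ∈ A, Real.log (p : ℝ) ≤ Real.log b := by
    have h5 : ∑ p ∈ A, Real.log (p : ℝ) = Real.log ((∏ p ∈ A, p : ℕ) : ℝ) := by
      rw [Nat.cast_prod, Real.log_prod]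
      intro p hp
      rw [hA, Finset.mem_filter, Nat.mem_primesLE] at hp
      exact_mod_cast hp.1.2.ne_zero
    rw [h5]
    apply Real.log_le_log
    · have h6 : 0 < ∏ p ∈ A, p := by
        apply Finset.prod_pos
        intro p hp
        rw [hA, Finset.mem_filter, Nat.mem_primesLE] at hp
        exact hp.1.2.pos
      exact_mod_cast h6
    · exact_mod_cast Nat.le_of_dvd hb h3
  linarith

private theorem log_le_two_sqrt {x : ℝ} (hx : 0 < x) : Real.log x ≤ 2 * √x := by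
  have h1 : 0 < √x := Real.sqrt_pos.2 hx
  have h2 : Real.log x = 2 * Real.log (√x) := by
    rw [Real.log_sqrt hx.le]
    ring
  have h3 := Real.log_le_sub_one_of_pos h1
  rw [h2]
  linarith

private theorem big {n b N₁ : ℕ} (hN : ∀ N : ℕ, N₁ ≤ N → (N : ℝ) / 2 ≤ Chebyshev.theta N)
    (hn : N₁ + 576 ≤ n) (hb : 0 < b) (h : Good n (2 * n - 1) b) :
    (n : ℝ) ^ 2 / (24 * Real.log n) ≤ Real.log b := by
  have hn1 : (576 : ℝ) ≤ n := by
    have : 576 ≤ n := by omega
    exact_mod_cast this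
  have hL : 1 ≤ Real.log n := by
    rw [Real.le_log_iff_exp_le (by linarith)]
    have := Real.exp_one_lt_d9
    linarith
  set L := Real.log n with hLd
  have h12 : 12 * L ≤ n := by
    have h1 : L ≤ 2 * √(n : ℝ) := log_le_two_sqrt (by linarith)
    have h2 : (24 : ℝ) ≤ √(n : ℝ) := by
      apply Real.le_sqrt_of_sq_le
      linarith
    have h3 : √(n : ℝ) * √(n : ℝ) = n := Real.mul_self_sqrt (by linarith)
    nlinarith
  set q : ℝ := n / (6 * L) with hq
  set Q := ⌊q⌋₊ with hQ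
  have hq2 : 2 ≤ q := by
    rw [hq, le_div_iff₀ (by linarith)]
    linarith
  have hQq : (Q : ℝ) ≤ q := Nat.floor_le (by linarith)
  have hqQ : q < Q + 1 := Nat.lt_floor_add_one q
  have hQ1 : 1 ≤ Q := by
    rw [hQ, Nat.one_le_floor_iff]
    linarith
  have hqL : q * (6 * L) = n := by
    rw [hq]
    field_simp
  have hg := log_ge (by omega : 2 ≤ n) hb h Q
  have hN2 : N₁ ≤ 2 * n * Q := by
    calc N₁ ≤ n := by omega
      _ ≤ 2 * n * 1 := by omega
      _ ≤ 2 * n * Q := Nat.mul_le_mul_left _ hQ1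
  have ht := hN _ hN2
  have hlog : Real.log ((2 * n * Q : ℕ) : ℝ) ≤ 3 * L := by
    have h1 : ((2 * n * Q : ℕ) : ℝ) ≤ (n : ℝ) ^ 3 := by
      push_cast
      have h2 : 2 * (Q : ℝ) ≤ (n : ℝ) ^ 2 := by
        have h3 : q ≤ n := by
          rw [hq]
          exact div_le_self (by linarith) (by linarith)
        nlinarith
      have h4 : (2 : ℝ) * n * Q = n * (2 * Q) := by ring
      rw [h4]
      calc (n : ℝ) * (2 * Q) ≤ n * (n : ℝ) ^ 2 :=
            mul_le_mul_of_nonneg_left h2 (by linarith)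
        _ = _ := by ring
    calc Real.log ((2 * n * Q : ℕ) : ℝ) ≤ Real.log ((n : ℝ) ^ 3) := by
          apply Real.log_le_log _ h1
          have : 0 < 2 * n * Q := Nat.mul_pos (by omega) hQ1
          exact_mod_cast this
      _ = 3 * L := by
          rw [Real.log_pow, hLd]
          norm_num
  have hcast : ((Q * (Q / 2 + 1) : ℕ) : ℝ) ≤ Q * ((Q : ℝ) / 2 + 1) := by
    push_cast
    have h1 : ((Q / 2 : ℕ) : ℝ) ≤ (Q : ℝ) / 2 := by
      have := @Nat.cast_div_le ℝ _ _ _ Q 2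
      simpa using this
    apply mul_le_mul_of_nonneg_left _ (Nat.cast_nonneg Q)
    linarith
  have h0 : 0 ≤ Real.log ((2 * n * Q : ℕ) : ℝ) := Real.log_natCast_nonneg _
  have hQ0 : (0 : ℝ) ≤ Q := Nat.cast_nonneg Q
  have h5 : ((Q * (Q / 2 + 1) : ℕ) : ℝ) * Real.log ((2 * n * Q : ℕ) : ℝ) ≤
      Q * ((Q : ℝ) / 2 + 1) * (3 * L) :=
    mul_le_mul hcast hlog h0 (by positivity)
  have h6 : ((2 * n * Q : ℕ) : ℝ) / 2 = n * Q := by
    push_cast
    ring
  rw [h6] at ht
  -- `(Q / 2 + 1) * 3 L ≤ n / 2`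
  have h7 : ((Q : ℝ) / 2 + 1) * (3 * L) ≤ n / 2 := by
    have h8 : ((Q : ℝ) / 2 + 1) ≤ q := by linarith
    calc ((Q : ℝ) / 2 + 1) * (3 * L) ≤ q * (3 * L) :=
          mul_le_mul_of_nonneg_right h8 (by linarith)
      _ = q * (6 * L) / 2 := by ring
      _ = n / 2 := by rw [hqL]
  have h9 : (Q : ℝ) * (((Q : ℝ) / 2 + 1) * (3 * L)) ≤ Q * (n / 2) :=
    mul_le_mul_of_nonneg_left h7 hQ0
  have h10 : (Q : ℝ) * (n / 2) ≤ Real.log b := by
    have h11 : (Q : ℝ) * ((Q : ℝ) / 2 + 1) * (3 * L) = Q * (((Q : ℝ) / 2 + 1) * (3 * L)) := by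
      ring
    rw [h11] at h5
    linarith
  have h12 : q / 2 ≤ (Q : ℝ) := by linarith
  have h13 : (n : ℝ) ^ 2 / (24 * L) = q / 2 * (n / 2) := by
    rw [hq]
    field_simp
    ring
  rw [h13]
  exact (mul_le_mul_of_nonneg_right h12 (by linarith)).trans h10

/-- every good number is large -/
theorem grow_low : ∃ c : ℝ, 0 < c ∧ ∀ n b : ℕ, 2 ≤ n → 0 < b → Good n (2 * n - 1) b →
    c * (n : ℝ) ^ 2 / Real.log n ≤ Real.log b := by
  obtain ⟨N₁, hN⟩ := theta_half
  set K : ℝ := ((N₁ + 576 : ℕ) : ℝ) with hK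
  have hK0 : 0 < K := by
    rw [hK]
    positivity
  have hl2 : 0 < Real.log 2 := Real.log_pos (by norm_num)
  refine ⟨min (1 / 24) ((Real.log 2 / K) ^ 2), lt_min (by norm_num) (by positivity), ?_⟩
  intro n b hn hb h
  have hnr : (2 : ℝ) ≤ n := by exact_mod_cast hn
  have hlog : Real.log 2 ≤ Real.log n := Real.log_le_log (by norm_num) hnr
  by_cases hc : N₁ + 576 ≤ n
  · refine le_trans ?_ (big hN hc hb h)
    have h1 : (n : ℝ) ^ 2 / (24 * Real.log n) = 1 / 24 * (n : ℝ) ^ 2 / Real.log n := by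
      field_simp
    rw [h1]
    apply div_le_div_of_nonneg_right _ (by linarith)
    exact mul_le_mul_of_nonneg_right (min_le_left _ _) (by positivity)
  · have h2 : (n : ℝ) ≤ K := by
      rw [hK]
      exact_mod_cast (by omega : n ≤ N₁ + 576)
    have h3 : 2 ∣ b := by
      have h4 := (good_iff_loc (by omega) (by omega) hb).1 h 2 1 Nat.prime_two le_rfl
        ⟨1, le_rfl, ?_⟩
      · rwa [pow_one] at h4
      · have h5 : 1 ≤ (2 ^ (1 - 1) * (2 ^ 1 / 2) + n - 1) / n := by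
          rw [Nat.le_div_iff_mul_le (by omega)]
          norm_num
        calc 2 ^ (1 - 1 + 1) ≤ (2 * n - 1) * 1 := by
              norm_num
              omega
          _ ≤ _ := Nat.mul_le_mul_left _ h5
    have h4 : Real.log 2 ≤ Real.log b := by
      apply Real.log_le_log (by norm_num)
      exact_mod_cast Nat.le_of_dvd hb h3
    refine le_trans ?_ h4
    rw [div_le_iff₀ (by linarith)]
    have h5 : (n : ℝ) ^ 2 ≤ K ^ 2 := pow_le_pow_left₀ (by linarith) h2 2
    calc min (1 / 24) ((Real.log 2 / K) ^ 2) * (n : ℝ) ^ 2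
        ≤ (Real.log 2 / K) ^ 2 * (n : ℝ) ^ 2 :=
          mul_le_mul_of_nonneg_right (min_le_right _ _) (by positivity)
      _ ≤ (Real.log 2 / K) ^ 2 * K ^ 2 := mul_le_mul_of_nonneg_left h5 (by positivity)
      _ = Real.log 2 * Real.log 2 := by
          field_simp
      _ ≤ Real.log 2 * Real.log n := mul_le_mul_of_nonneg_left hlog hl2.le

/-- there is a good number which is not too large -/
theorem grow_up (n : ℕ) (hn : 1 ≤ n) : ∃ b : ℕ, 0 < b ∧ Good n (2 * n - 1) b ∧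
    Real.log b ≤ 22 * (n : ℝ) ^ 2 := by
  refine ⟨Nat.lcmUpto ((2 * n) ^ 2), Nat.lcmUpto_pos _, ?_, ?_⟩
  · intro g hg hgb
    by_contra hlt
    have h1 := obs_lt (by omega : 0 < n) (by omega) (not_lt.1 hlt)
    apply hgb
    apply Finset.dvd_lcm (f := id)
    rw [Finset.mem_Icc]
    refine ⟨hg, ?_⟩
    have h2 : 2 * n - 1 + 1 = 2 * n := by omega
    rw [h2] at h1
    exact h1.le
  · rw [← Chebyshev.psi_eq_log_lcmUpto]
    have h1 := Chebyshev.psi_le_const_mul_self (x := (((2 * n) ^ 2 : ℕ) : ℝ)) (Nat.cast_nonneg _)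
    refine h1.trans ?_
    have h2 : Real.log 4 = 2 * Real.log 2 := by
      rw [show (4 : ℝ) = 2 ^ 2 by norm_num, Real.log_pow]
      norm_num
    have h3 := Real.log_two_lt_d9
    rw [h2]
    push_cast
    have h4 : (0 : ℝ) ≤ (n : ℝ) ^ 2 := by positivity
    nlinarith

end Pool.Agent.DOR
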