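import Pool.Agent.Helper24.SieveDensity

/-!
DOR-ShortBT. Primes in short intervals: at most `C y / log y` of them in `(x, x + y]` (Selberg's sieve).
-/

set_option autoImplicit false

namespace Pool.Agent.DOR

open Finset Pool.Agent.Helper24

private theorem sb_density (Y : ℕ) :
    Real.log Y ≤ 2 * ∑ l ∈ (Icc 1 Y).filter Squarefree, hterm (fun _ => {0}) l := by
  have h1 := log_le_two_mul_Fsum_inv Y
  have h2 : Fsum Y (fun p => 1 / (p : ℝ)) ≤
      Fsum Y (fun p => ((({0} : Finset ℕ).card : ℕ) : ℝ) / ((p : ℝ) - (({0} : Finset ℕ).card : ℕ))) := by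
    refine Fsum_mono _ (fun p _ _ => by positivity) fun p hp _ => ?_
    have hp2 : (2 : ℝ) ≤ p := by exact_mod_cast hp.two_le
    rw [card_singleton, Nat.cast_one]
    apply one_div_le_one_div_of_le <;> linarith
  have h3 : Fsum Y (fun p => ((({0} : Finset ℕ).card : ℕ) : ℝ) / ((p : ℝ) - (({0} : Finset ℕ).card : ℕ))) =
      ∑ l ∈ (Icc 1 Y).filter Squarefree, hterm (fun _ => {0}) l := rfl
  rw [← h3]
  linarith

private theorem sb_explicit (x y Y : ℕ) (hY : 2 ≤ Y) :
    (((Ioc x (x + y)).filter Nat.Prime).card : ℝ) ≤ 2 * y / Real.log Y + (Y : ℝ) ^ 6 + Y := by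
  classical
  have hlog : 0 < Real.log Y := Real.log_pos (by exact_mod_cast (by omega : 1 < Y))
  set B := (Ioc x (x + y)).filter (fun p => p.Prime ∧ Y < p) with hB
  have hΩ : ∀ p, Nat.Prime p → p ≤ Y →
      (∀ c ∈ (fun _ : ℕ => ({0} : Finset ℕ)) p, c < p) ∧ ((fun _ : ℕ => ({0} : Finset ℕ)) p).card < p := by
    intro p hp _
    refine ⟨fun c hc => ?_, ?_⟩
    · rw [mem_singleton] at hc
      rw [hc]
      exact hp.pos
    · simp only [card_singleton]
      exact hp.one_lt
  have h1 := residue_sieve (A := x) (M := y) (Ω := fun _ => {0}) (by omega : 1 ≤ Y) hΩ B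
    (filter_subset _ _) (by
      intro m hm p hp hpY hmem
      rw [hB, mem_filter] at hm
      rw [mem_singleton] at hmem
      have hd := Nat.dvd_of_mod_eq_zero hmem
      have := (Nat.prime_dvd_prime_iff_eq hp hm.2.1).1 hd
      omega)
  have h2 := sb_density Y
  set G := ∑ l ∈ (Icc 1 Y).filter Squarefree, hterm (fun _ => {0}) l with hG
  have hG0 : 0 < G := by linarith
  have h3 : (y : ℝ) / G ≤ 2 * y / Real.log Y := by
    rw [div_le_div_iff₀ hG0 hlog]
    have hy0 : (0 : ℝ) ≤ y := Nat.cast_nonneg _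
    nlinarith
  have h4 : (Ioc x (x + y)).filter Nat.Prime ⊆ B ∪ Ioc 0 Y := by
    intro p hp
    rw [mem_filter] at hp
    rw [mem_union, hB, mem_filter, mem_Ioc]
    rcases lt_or_ge Y p with h5 | h5
    · exact Or.inl ⟨mem_Ioc.1 hp.1, hp.2, h5⟩
    · exact Or.inr (mem_Ioc.2 ⟨hp.2.pos, h5⟩)
  have h5 : ((Ioc x (x + y)).filter Nat.Prime).card ≤ B.card + Y := by
    refine (card_le_card h4).trans ((card_union_le _ _).trans ?_)
    rw [Nat.card_Ioc, Nat.sub_zero]
  have h6 : (((Ioc x (x + y)).filter Nat.Prime).card : ℝ) ≤ B.card + Y := by exact_mod_cast h5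
  linarith

theorem short_bt : ∃ C : ℝ, 0 < C ∧ ∀ x y : ℕ, 2 ≤ y →
    (((Ioc x (x + y)).filter Nat.Prime).card : ℝ) ≤ C * (y / Real.log y) := by
  refine ⟨144, by norm_num, fun x y hy => ?_⟩
  have hy2 : (2 : ℝ) ≤ y := by exact_mod_cast hy
  have hy0 : (0 : ℝ) < y := by linarith
  have hlogy : 0 < Real.log y := Real.log_pos (by linarith)
  set t : ℝ := (y : ℝ) ^ (1 / 24 : ℝ) with ht
  have ht0 : 0 < t := Real.rpow_pos_of_pos hy0 _
  have ht24 : t ^ 24 = y := by
    rw [ht, ← Real.rpow_natCast, ← Real.rpow_mul hy0.le]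
    norm_num
  have ht1 : 1 < t := by
    by_contra hcon
    push Not at hcon
    have : t ^ 24 ≤ 1 := pow_le_one₀ ht0.le hcon
    linarith
  have hlogt : 0 < Real.log t := Real.log_pos ht1
  have hlogy' : Real.log y = 24 * Real.log t := by
    rw [← ht24, Real.log_pow]
    norm_num
  have hlogt' : Real.log t ≤ t := (Real.log_le_sub_one_of_pos ht0).trans (by linarith)
  have h11 : 0 ≤ (y : ℝ) / Real.log y := by positivity
  rcases lt_or_ge t 4 with h4 | h4
  · have htriv : (((Ioc x (x + y)).filter Nat.Prime).card : ℝ) ≤ y := by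
      have h1 := card_le_card (filter_subset Nat.Prime (Ioc x (x + y)))
      rw [Nat.card_Ioc, Nat.add_sub_cancel_left] at h1
      exact_mod_cast h1
    refine htriv.trans ?_
    have hl4 : Real.log t ≤ 3 := by
      have : Real.log t ≤ t - 1 := Real.log_le_sub_one_of_pos ht0
      linarith
    have h5 : (y : ℝ) ≤ 72 * (y / Real.log y) := by
      rw [← mul_div_assoc, le_div_iff₀ hlogy, hlogy']
      nlinarith
    linarith
  · set Y := ⌊t⌋₊ with hYd
    have hY1 : (Y : ℝ) ≤ t := Nat.floor_le ht0.le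
    have hY2 : t < (Y : ℝ) + 1 := Nat.lt_floor_add_one t
    have hY3 : 2 ≤ Y := by
      have : (2 : ℝ) < Y := by linarith
      exact_mod_cast this.le
    have h5 := sb_explicit x y Y hY3
    have hY0 : (0 : ℝ) < Y := by linarith
    have hsq : t ≤ (Y : ℝ) ^ 2 := by nlinarith
    have hlogY : Real.log t ≤ 2 * Real.log Y := by
      have := Real.log_le_log ht0 hsq
      rwa [Real.log_pow, Nat.cast_ofNat] at this
    have hlogY0 : 0 < Real.log Y := by linarith
    have h6 : 2 * (y : ℝ) / Real.log Y ≤ 96 * (y / Real.log y) := by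
      rw [← mul_div_assoc, div_le_div_iff₀ hlogY0 hlogy, hlogy']
      nlinarith
    have h7 : t ^ 6 ≤ 24 * (y / Real.log y) := by
      rw [← mul_div_assoc, le_div_iff₀ hlogy, hlogy']
      have h8 : t ^ 6 * Real.log t ≤ t ^ 24 := by
        calc t ^ 6 * Real.log t ≤ t ^ 6 * t := mul_le_mul_of_nonneg_left hlogt' (by positivity)
          _ = t ^ 7 := by ring
          _ ≤ t ^ 24 := pow_le_pow_right₀ ht1.le (by norm_num)
      rw [ht24] at h8
      linarith
    have h8 : (Y : ℝ) ^ 6 ≤ t ^ 6 := pow_le_pow_left₀ hY0.le hY1 6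
    have h9 : (Y : ℝ) ≤ t ^ 6 := hY1.trans (le_self_pow₀ ht1.le (by norm_num))
    linarith

end Pool.Agent.DOR
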