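import Pool.Agent.DOR.LocB
import Pool.Agent.DOR.ShortBT
import Mathlib.NumberTheory.Chebyshev

/-!
DOR-GrowC. The order of the logarithm of the least good number, for all `r`: `n r / (2 n - r)`.
-/

set_option autoImplicit false

namespace Pool.Agent.DOR

open Real

private theorem gc_theta_half : ∃ N₁ : ℕ, ∀ N : ℕ, N₁ ≤ N → (N : ℝ) / 2 ≤ Chebyshev.theta N := by
  obtain ⟨C, hC⟩ := Chebyshev.psi_sub_theta_le_mul_sqrt
  obtain ⟨K, hK⟩ := exists_nat_ge ((|C| + 2) / (19 / 100))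
  refine ⟨K ^ 2, fun N hN => ?_⟩
  have h1 := hC N
  have h2 := Chebyshev.psi_ge N
  have h3 : (K : ℝ) ≤ √(N : ℝ) := by
    apply Real.le_sqrt_of_sq_le
    exact_mod_cast hN
  have h4 : Real.log ((N : ℝ) + 1) ≤ 2 * √(N : ℝ) := by
    have h5 : (N : ℝ) + 1 ≤ (√(N : ℝ) + 1) ^ 2 := by
      have h6 : √(N : ℝ) ^ 2 = N := Real.sq_sqrt (Nat.cast_nonneg N)
      have h7 := Real.sqrt_nonneg (N : ℝ)
      nlinarith
    have h8 : 0 < √(N : ℝ) + 1 := by positivity
    calc Real.log ((N : ℝ) + 1) ≤ Real.log ((√(N : ℝ) + 1) ^ 2) :=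
          Real.log_le_log (by positivity) h5
      _ = 2 * Real.log (√(N : ℝ) + 1) := by
          rw [Real.log_pow]
          norm_num
      _ ≤ 2 * (√(N : ℝ) + 1 - 1) := by
          have := Real.log_le_sub_one_of_pos h8
          linarith
      _ = _ := by ring
  have h5 : C * √(N : ℝ) ≤ |C| * √(N : ℝ) :=
    mul_le_mul_of_nonneg_right (le_abs_self C) (Real.sqrt_nonneg _)
  have h6 : (0.69 : ℝ) < Real.log 2 := by
    have := Real.log_two_gt_d9
    linarith
  have h7 : (|C| + 2) * √(N : ℝ) ≤ 19 / 100 * (√(N : ℝ) * √(N : ℝ)) := by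
    have h8 : (|C| + 2) ≤ 19 / 100 * √(N : ℝ) := by
      rw [div_le_iff₀ (by norm_num)] at hK
      nlinarith
    calc (|C| + 2) * √(N : ℝ) ≤ (19 / 100 * √(N : ℝ)) * √(N : ℝ) :=
          mul_le_mul_of_nonneg_right h8 (Real.sqrt_nonneg _)
      _ = _ := by ring
  rw [Real.mul_self_sqrt (Nat.cast_nonneg N)] at h7
  have h9 : (N : ℝ) * 0.69 ≤ (N : ℝ) * Real.log 2 :=
    mul_le_mul_of_nonneg_left h6.le (Nat.cast_nonneg N)
  nlinarith

/-- the primes up to `N` which need not divide `b` -/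
private def gcBad (n r N : ℕ) : Finset ℕ :=
  (Nat.primesLE N).filter (fun p => ¬ p ≤ r * ((p / 2 + n - 1) / n))

private theorem gc_log_ge {n r b : ℕ} (hn : 0 < n) (hrn : r < 2 * n) (hb : 0 < b) (h : Good n r b)
    (N : ℕ) : Chebyshev.theta (N : ℝ) - ((gcBad n r N).card : ℝ) * Real.log (N : ℝ) ≤
      Real.log b := by
  classical
  set A := (Nat.primesLE N).filter (fun p => p ≤ r * ((p / 2 + n - 1) / n)) with hA
  have h1 : ∑ p ∈ A, Real.log p + ∑ p ∈ gcBad n r N, Real.log p = Chebyshev.theta N := by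
    rw [Chebyshev.theta_eq_sum_primesLE_log, hA, gcBad]
    exact Finset.sum_filter_add_sum_filter_not _ _ _
  have h2 : ∑ p ∈ gcBad n r N, Real.log p ≤ ((gcBad n r N).card : ℝ) * Real.log (N : ℝ) := by
    have h3 : ∑ p ∈ gcBad n r N, Real.log (p : ℝ) ≤ ∑ p ∈ gcBad n r N, Real.log (N : ℝ) := by
      apply Finset.sum_le_sum
      intro p hp
      rw [gcBad, Finset.mem_filter, Nat.mem_primesLE] at hp
      apply Real.log_le_log
      · exact_mod_cast hp.1.2.pos
      · exact_mod_cast hp.1.1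
    rwa [Finset.sum_const, nsmul_eq_mul] at h3
  have h3 : ∏ p ∈ A, p ∣ b := by
    apply Finset.prod_primes_dvd
    · intro p hp
      rw [hA, Finset.mem_filter, Nat.mem_primesLE] at hp
      exact hp.1.2.prime
    · intro p hp
      rw [hA, Finset.mem_filter, Nat.mem_primesLE] at hp
      have h4 := (good_iff_loc hn hrn hb).1 h p 1 hp.1.2 le_rfl
        ⟨1, le_rfl, by simpa using hp.2⟩
      rwa [pow_one] at h4
  have h4 : ∑ p ∈ A, Real.log (p : ℝ) ≤ Real.log b := by
    have h5 : ∑ p ∈ A, Real.log (p : ℝ) = Real.log ((∏ p ∈ A, p : ℕ) : ℝ) := by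
      rw [Nat.cast_prod, Real.log_prod]
      intro p hp
      rw [hA, Finset.mem_filter, Nat.mem_primesLE] at hp
      exact_mod_cast hp.1.2.ne_zero
    rw [h5]
    apply Real.log_le_log
    · have h6 : 0 < ∏ p ∈ A, p := by
        apply Finset.prod_pos
        intro p hp
        rw [hA, Finset.mem_filter, Nat.mem_primesLE] at hp
        exact hp.1.2.pos
      exact_mod_cast h6
    · exact_mod_cast Nat.le_of_dvd hb h3
  linarith

private theorem gc_ceil_pos {n p : ℕ} (hn : 0 < n) (hp : 2 ≤ p) : 1 ≤ (p / 2 + n - 1) / n := by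
  rw [Nat.le_div_iff_mul_le hn]
  omega

private theorem gc_bad_small {n r : ℕ} (hn : 0 < n) : gcBad n r r = ∅ := by
  rw [Finset.eq_empty_iff_forall_notMem]
  intro p hp
  rw [gcBad, Finset.mem_filter, Nat.mem_primesLE] at hp
  apply hp.2
  calc p ≤ r * 1 := by omega
    _ ≤ _ := Nat.mul_le_mul_left _ (gc_ceil_pos hn hp.1.2.two_le)

private theorem gc_theta_le {n r b : ℕ} (hn : 0 < n) (hrn : r < 2 * n) (hb : 0 < b)
    (h : Good n r b) : Chebyshev.theta (r : ℝ) ≤ Real.log b := by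
  have h1 := gc_log_ge hn hrn hb h r
  rw [gc_bad_small hn, Finset.card_empty, Nat.cast_zero, zero_mul, sub_zero] at h1
  exact h1

private theorem gc_log_two {n r b : ℕ} (hn : 0 < n) (hr : 2 ≤ r) (hrn : r < 2 * n) (hb : 0 < b)
    (h : Good n r b) : Real.log 2 ≤ Real.log b := by
  have h3 : 2 ∣ b := by
    have h4 := (good_iff_loc hn hrn hb).1 h 2 1 Nat.prime_two le_rfl
      ⟨1, le_rfl, ?_⟩
    · rwa [pow_one] at h4
    · have h5 : 1 ≤ (2 ^ (1 - 1) * (2 ^ 1 / 2) + n - 1) / n := by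
        rw [Nat.le_div_iff_mul_le hn]
        norm_num
      calc 2 ^ (1 - 1 + 1) ≤ r * 1 := by
            norm_num
            exact hr
        _ ≤ _ := Nat.mul_le_mul_left _ h5
  apply Real.log_le_log (by norm_num)
  exact_mod_cast Nat.le_of_dvd hb h3

private theorem gc_bad_card {n r Q : ℕ} (hn : 0 < n) (hr : 2 ≤ r) (hrn : r < 2 * n) (hQ : 1 ≤ Q)
    {K : ℝ} (hK : ∀ x y : ℕ, 2 ≤ y →
      (((Finset.Ioc x (x + y)).filter Nat.Prime).card : ℝ) ≤ K * (y / Real.log y)) :
    ((gcBad n r (2 * n * Q)).card : ℝ) ≤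
      Q * (K * ((((2 * n - r) * Q + 1 : ℕ) : ℝ) / Real.log (((2 * n - r) * Q + 1 : ℕ) : ℝ))) := by
  classical
  obtain ⟨d, hd⟩ : ∃ d, 2 * n = r + d := ⟨2 * n - r, by omega⟩
  have hd1 : 1 ≤ d := by omega
  have hd2 : 2 * n - r = d := by omega
  rw [hd2]
  have hy : 2 ≤ d * Q + 1 := by
    have : 1 ≤ d * Q := Nat.mul_pos hd1 hQ
    omega
  have hsub : gcBad n r (2 * n * Q) ⊆ (Finset.Icc 1 Q).biUnion
      (fun C => (Finset.Ioc (r * C) (r * C + (d * Q + 1))).filter Nat.Prime) := by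
    intro p hp
    rw [gcBad, Finset.mem_filter, Nat.mem_primesLE, not_le] at hp
    obtain ⟨⟨hpN, hp⟩, hnot⟩ := hp
    set C := (p / 2 + n - 1) / n with hC
    have hC1 : 1 ≤ C := gc_ceil_pos hn hp.two_le
    have e1 := Nat.div_add_mod (p / 2 + n - 1) n
    have e2 := Nat.mod_lt (p / 2 + n - 1) hn
    rw [← hC] at e1
    have hle : p / 2 ≤ n * C := by omega
    have hCQ : C ≤ Q := by
      apply Nat.lt_succ_iff.1
      apply Nat.div_lt_of_lt_mul
      have h3 : 2 * n * Q = 2 * (n * Q) := by ring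
      have h5 : n * (Q + 1) = n * Q + n := by ring
      rw [h3] at hpN
      rw [Nat.succ_eq_add_one, h5]
      omega
    rw [Finset.mem_biUnion]
    refine ⟨C, Finset.mem_Icc.2 ⟨hC1, hCQ⟩, ?_⟩
    rw [Finset.mem_filter, Finset.mem_Ioc]
    refine ⟨⟨hnot, ?_⟩, hp⟩
    have h6 : 2 * (n * C) = r * C + d * C := by
      calc 2 * (n * C) = (2 * n) * C := by ring
        _ = _ := by rw [hd]; ring
    have h7 : d * C ≤ d * Q := Nat.mul_le_mul_left _ hCQ
    omega
  have h1 : ((gcBad n r (2 * n * Q)).card : ℝ) ≤ ∑ C ∈ Finset.Icc 1 Q,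
      (((Finset.Ioc (r * C) (r * C + (d * Q + 1))).filter Nat.Prime).card : ℝ) := by
    have h2 := (Finset.card_le_card hsub).trans Finset.card_biUnion_le
    exact_mod_cast h2
  refine h1.trans ?_
  calc ∑ C ∈ Finset.Icc 1 Q,
        (((Finset.Ioc (r * C) (r * C + (d * Q + 1))).filter Nat.Prime).card : ℝ)
      ≤ ∑ C ∈ Finset.Icc 1 Q, K * (((d * Q + 1 : ℕ) : ℝ) / Real.log ((d * Q + 1 : ℕ) : ℝ)) :=
        Finset.sum_le_sum fun C _ => hK (r * C) (d * Q + 1) hy
    _ = _ := by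
        rw [Finset.sum_const, Nat.card_Icc, Nat.add_sub_cancel, nsmul_eq_mul]

private theorem gc_big {n r b N₁ : ℕ} (hN : ∀ N : ℕ, N₁ ≤ N → (N : ℝ) / 2 ≤ Chebyshev.theta N)
    {K : ℝ} (hK1 : 1 ≤ K) (hK : ∀ x y : ℕ, 2 ≤ y →
      (((Finset.Ioc x (x + y)).filter Nat.Prime).card : ℝ) ≤ K * (y / Real.log y))
    (hr : 2 ≤ r) (hrn : r < 2 * n) (hb : 0 < b) (h : Good n r b) (hnN : N₁ ≤ n)
    (hnK : 1024 * K ^ 2 ≤ n) (hd : 32 * K * ((2 * n - r : ℕ) : ℝ) ≤ n) :
    (n : ℝ) ^ 2 / (64 * K * ((2 * n - r : ℕ) : ℝ)) ≤ Real.log b := by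
  have hn : 0 < n := by omega
  obtain ⟨d, hdd⟩ : ∃ d, d = 2 * n - r := ⟨_, rfl⟩
  have hd1 : 1 ≤ d := by omega
  rw [← hdd] at hd ⊢
  have hd1' : (1 : ℝ) ≤ d := by exact_mod_cast hd1
  have hn1 : (1024 : ℝ) ≤ n := by nlinarith
  have hn0 : (0 : ℝ) < n := by linarith
  have hL : 0 < Real.log n := Real.log_pos (by linarith)
  set q : ℝ := n / (16 * K * d) with hq
  have hKd : 0 < 16 * K * d := by positivity
  have hqn : q * (16 * K * d) = n := by
    rw [hq]
    field_simp
  have hq2 : 2 ≤ q := by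
    rw [hq, le_div_iff₀ hKd]
    linarith
  set Q := ⌊q⌋₊ with hQ
  have hQq : (Q : ℝ) ≤ q := Nat.floor_le (by linarith)
  have hqQ : q < Q + 1 := Nat.lt_floor_add_one q
  have hQ1 : 1 ≤ Q := by
    rw [hQ, Nat.one_le_floor_iff]
    linarith
  have hQ0 : (0 : ℝ) ≤ Q := Nat.cast_nonneg Q
  have hg := gc_log_ge hn hrn hb h (2 * n * Q)
  have hN2 : N₁ ≤ 2 * n * Q := by
    calc N₁ ≤ n := hnN
      _ ≤ 2 * n * 1 := by omega
      _ ≤ 2 * n * Q := Nat.mul_le_mul_left _ hQ1
  have ht := hN _ hN2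
  have hcard := gc_bad_card hn hr hrn hQ1 hK
  rw [← hdd] at hcard
  -- the logarithm of `N`
  have hlog : Real.log ((2 * n * Q : ℕ) : ℝ) ≤ 2 * Real.log n := by
    have h1 : ((2 * n * Q : ℕ) : ℝ) ≤ (n : ℝ) ^ 2 := by
      push_cast
      have h3 : 2 * (Q : ℝ) ≤ n := by
        have h4 : 2 * q ≤ n := by
          have h5 : q * 16 ≤ q * (16 * K * d) := by
            apply mul_le_mul_of_nonneg_left _ (by linarith)
            nlinarith
          nlinarith
        linarith
      nlinarith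
    calc Real.log ((2 * n * Q : ℕ) : ℝ) ≤ Real.log ((n : ℝ) ^ 2) := by
          apply Real.log_le_log _ h1
          have : 0 < 2 * n * Q := Nat.mul_pos (by omega) hQ1
          exact_mod_cast this
      _ = 2 * Real.log n := by
          rw [Real.log_pow]
          norm_num
  -- the length `y` of the intervals
  set y : ℝ := ((d * Q + 1 : ℕ) : ℝ) with hy
  have hy1 : y = d * Q + 1 := by
    rw [hy]
    push_cast
    ring
  have hyup : 16 * K * y ≤ n + 16 * K := by
    rw [hy1]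
    have h1 : 16 * K * (d * Q) ≤ n := by
      calc 16 * K * (d * Q) = Q * (16 * K * d) := by ring
        _ ≤ q * (16 * K * d) := mul_le_mul_of_nonneg_right hQq hKd.le
        _ = n := hqn
    linarith
  have hylow : (n : ℝ) ≤ 32 * K * y := by
    rw [hy1]
    have h1 : (n : ℝ) ≤ (Q + 1) * (16 * K * d) := by
      rw [← hqn]
      exact mul_le_mul_of_nonneg_right hqQ.le hKd.le
    have h2 : (1 : ℝ) ≤ Q := by exact_mod_cast hQ1
    have h3 : (Q + 1) * (16 * K * d) ≤ (2 * Q) * (16 * K * d) :=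
      mul_le_mul_of_nonneg_right (by linarith) hKd.le
    have h4 : (2 * Q) * (16 * K * d) = 32 * K * (d * Q) := by ring
    have h5 : 0 ≤ 32 * K := by linarith
    linarith
  have hyn : (n : ℝ) ≤ y ^ 2 := by
    have h1 : (n : ℝ) * (1024 * K ^ 2) ≤ (1024 * K ^ 2) * y ^ 2 := by
      calc (n : ℝ) * (1024 * K ^ 2) ≤ n * n := mul_le_mul_of_nonneg_left hnK hn0.le
        _ ≤ (32 * K * y) * (32 * K * y) := mul_le_mul hylow hylow hn0.le (by nlinarith)
        _ = (1024 * K ^ 2) * y ^ 2 := by ring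
    have h2 : 0 < 1024 * K ^ 2 := by positivity
    nlinarith
  have hy0 : 0 < y := by
    rw [hy1]
    positivity
  have hlogy : Real.log n ≤ 2 * Real.log y := by
    have h1 := Real.log_le_log hn0 hyn
    rw [Real.log_pow] at h1
    exact_mod_cast h1
  have hlogy0 : 0 < Real.log y := by linarith
  have h0 : 0 ≤ Real.log ((2 * n * Q : ℕ) : ℝ) := Real.log_natCast_nonneg _
  -- the loss
  have hloss : ((gcBad n r (2 * n * Q)).card : ℝ) * Real.log ((2 * n * Q : ℕ) : ℝ) ≤
      Q * (n / 2) := by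
    have h1 : y / Real.log y * Real.log ((2 * n * Q : ℕ) : ℝ) ≤ 4 * y := by
      rw [div_mul_eq_mul_div, div_le_iff₀ hlogy0]
      have h2 : Real.log ((2 * n * Q : ℕ) : ℝ) ≤ 4 * Real.log y := by linarith
      nlinarith
    have h3 : 16 * K ≤ n := by nlinarith
    calc ((gcBad n r (2 * n * Q)).card : ℝ) * Real.log ((2 * n * Q : ℕ) : ℝ)
        ≤ (Q * (K * (y / Real.log y))) * Real.log ((2 * n * Q : ℕ) : ℝ) :=
          mul_le_mul_of_nonneg_right hcard h0
      _ = Q * (K * (y / Real.log y * Real.log ((2 * n * Q : ℕ) : ℝ))) := by ring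
      _ ≤ Q * (K * (4 * y)) := by
          apply mul_le_mul_of_nonneg_left _ hQ0
          exact mul_le_mul_of_nonneg_left h1 (by linarith)
      _ ≤ Q * (n / 2) := by
          apply mul_le_mul_of_nonneg_left _ hQ0
          linarith
  have h6 : ((2 * n * Q : ℕ) : ℝ) / 2 = Q * n := by
    push_cast
    ring
  rw [h6] at ht
  have h7 : (Q : ℝ) * (n / 2) ≤ Real.log b := by linarith
  have h8 : q / 2 ≤ (Q : ℝ) := by linarith
  have h9 : (n : ℝ) ^ 2 / (64 * K * d) = q / 2 * (n / 2) := by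
    rw [hq]
    field_simp
    norm_num
  rw [h9]
  exact (mul_le_mul_of_nonneg_right h8 (by linarith)).trans h7

/-- every good number is large -/
theorem grow_low_all : ∃ c : ℝ, 0 < c ∧ ∀ n r b : ℕ, 2 ≤ r → r < 2 * n → 0 < b → Good n r b →
    c * ((n : ℝ) * r / (2 * n - r)) ≤ Real.log b := by
  obtain ⟨N₁, hN⟩ := gc_theta_half
  obtain ⟨K0, -, hK0⟩ := short_bt
  set K : ℝ := max K0 1 with hKd
  have hK1 : 1 ≤ K := le_max_right _ _
  have hK : ∀ x y : ℕ, 2 ≤ y →
      (((Finset.Ioc x (x + y)).filter Nat.Prime).card : ℝ) ≤ K * (y / Real.log y) := by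
    intro x y hy
    refine (hK0 x y hy).trans ?_
    apply mul_le_mul_of_nonneg_right (le_max_left _ _)
    have : 0 ≤ Real.log (y : ℝ) := Real.log_natCast_nonneg _
    positivity
  have hl2 : 0 < Real.log 2 := Real.log_pos (by norm_num)
  set M : ℝ := (N₁ : ℝ) + 1024 * K ^ 2 with hM
  have hM0 : 1 ≤ M := by
    have h1 : (0 : ℝ) ≤ N₁ := Nat.cast_nonneg _
    nlinarith
  have hK0' : 0 < K := by linarith
  set c1 : ℝ := min (1 / 2) (Real.log 2 / M) with hc1
  have hc1p : 0 < c1 := lt_min (by norm_num) (by positivity)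
  set c : ℝ := min (c1 / (32 * K)) (min (1 / (128 * K)) (Real.log 2 / (2 * M ^ 2))) with hc
  have hcp : 0 < c := lt_min (by positivity) (lt_min (by positivity) (by positivity))
  refine ⟨c, hcp, fun n r b hr hrn hb h => ?_⟩
  have hn : 0 < n := by omega
  have hn0 : (0 : ℝ) < n := by exact_mod_cast hn
  have hr0 : (0 : ℝ) < r := by exact_mod_cast (by omega : 0 < r)
  have hrn' : (r : ℝ) < 2 * n := by exact_mod_cast hrn
  have hrn1 : (r : ℝ) + 1 ≤ 2 * n := by exact_mod_cast hrn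
  set D : ℝ := 2 * n - r with hD
  have hD1 : 1 ≤ D := by linarith
  have hD0 : 0 < D := by linarith
  have hDc : ((2 * n - r : ℕ) : ℝ) = D := by
    rw [Nat.cast_sub hrn.le]
    push_cast
    ring
  have hlog2 := gc_log_two hn hr hrn hb h
  by_cases hA : 32 * K * D ≤ n
  · by_cases hB : M ≤ n
    · -- the main case
      have h1 : N₁ ≤ n := by
        have h2 : (N₁ : ℝ) ≤ n := by
          have : 0 ≤ 1024 * K ^ 2 := by positivity
          linarith
        exact_mod_cast h2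
      have h2 : 1024 * K ^ 2 ≤ n := by
        have : (0 : ℝ) ≤ N₁ := Nat.cast_nonneg _
        linarith
      have h3 := gc_big hN hK1 hK hr hrn hb h h1 h2 (by rw [hDc]; exact hA)
      rw [hDc] at h3
      refine le_trans ?_ h3
      have h4 : c ≤ 1 / (128 * K) := (min_le_right _ _).trans (min_le_left _ _)
      calc c * ((n : ℝ) * r / D) ≤ 1 / (128 * K) * ((n : ℝ) * r / D) :=
            mul_le_mul_of_nonneg_right h4 (by positivity)
        _ ≤ 1 / (128 * K) * ((n : ℝ) * (2 * n) / D) := by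
            apply mul_le_mul_of_nonneg_left _ (by positivity)
            apply div_le_div_of_nonneg_right _ hD0.le
            exact mul_le_mul_of_nonneg_left hrn'.le hn0.le
        _ = (n : ℝ) ^ 2 / (64 * K * D) := by
            field_simp
            norm_num
    · -- `n` bounded
      push Not at hB
      have h4 : c ≤ Real.log 2 / (2 * M ^ 2) := (min_le_right _ _).trans (min_le_right _ _)
      have h5 : (n : ℝ) * r / D ≤ 2 * M ^ 2 := by
        rw [div_le_iff₀ hD0]
        have h6 : (n : ℝ) * r ≤ M * (2 * M) := by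
          apply mul_le_mul hB.le (by linarith) hr0.le (by linarith)
        nlinarith [sq_nonneg M]
      refine le_trans ?_ hlog2
      calc c * ((n : ℝ) * r / D) ≤ Real.log 2 / (2 * M ^ 2) * (2 * M ^ 2) :=
            mul_le_mul h4 h5 (by positivity) (by positivity)
        _ = Real.log 2 := by
            have : 0 < 2 * M ^ 2 := by positivity
            field_simp
  · -- `2 n - r` large
    push Not at hA
    have h4 : c ≤ c1 / (32 * K) := min_le_left _ _
    have h5 : (n : ℝ) * r / D ≤ 32 * K * r := by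
      rw [div_le_iff₀ hD0]
      nlinarith
    have h6 : c1 * r ≤ Real.log b := by
      by_cases hrN : N₁ ≤ r
      · refine le_trans ?_ (gc_theta_le hn hrn hb h)
        refine le_trans ?_ (hN r hrN)
        have : c1 ≤ 1 / 2 := min_le_left _ _
        nlinarith
      · refine le_trans ?_ hlog2
        have h7 : (r : ℝ) ≤ M := by
          have h8 : (r : ℝ) ≤ N₁ := by exact_mod_cast (by omega : r ≤ N₁)
          have : 0 ≤ 1024 * K ^ 2 := by positivity
          linarith
        calc c1 * r ≤ Real.log 2 / M * M :=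
              mul_le_mul (min_le_right _ _) h7 hr0.le (by positivity)
          _ = Real.log 2 := by
              field_simp
    calc c * ((n : ℝ) * r / D) ≤ c1 / (32 * K) * (32 * K * r) :=
          mul_le_mul h4 h5 (by positivity) (by positivity)
      _ = c1 * r := by
          field_simp
      _ ≤ Real.log b := h6

/-- an obstruction is small -/
private theorem gc_obs {n r b g : ℕ} (hn : 0 < n) (hrn : r < 2 * n) (h : g ≤ r * lf n b g) :
    g * (2 * n - r) ≤ 2 * n * r := by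
  have h1 := lf_bound (b := b) (g := g) hn
  have h2 : 2 * n * g ≤ r * (g + 2 * n - 2) := by
    calc 2 * n * g ≤ 2 * n * (r * lf n b g) := Nat.mul_le_mul_left _ h
      _ = r * (2 * n * lf n b g) := by ring
      _ ≤ _ := Nat.mul_le_mul_left _ h1
  obtain ⟨d, hd⟩ : ∃ d, 2 * n = r + d := ⟨2 * n - r, by omega⟩
  have h3 : r * (g + 2 * n - 2) ≤ r * (g + 2 * n) := Nat.mul_le_mul_left _ (by omega)
  have h4 : 2 * n - r = d := by omega
  rw [h4]
  rw [hd] at h2 h3 ⊢
  nlinarith

/-- there is a good number which is not too large -/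
theorem grow_up_all (n r : ℕ) (hr : 1 ≤ r) (hrn : r < 2 * n) : ∃ b : ℕ, 0 < b ∧ Good n r b ∧
    Real.log b ≤ 11 * ((n : ℝ) * r / (2 * n - r)) := by
  have hd : 0 < 2 * n - r := by omega
  refine ⟨Nat.lcmUpto (2 * n * r / (2 * n - r)), Nat.lcmUpto_pos _, ?_, ?_⟩
  · intro g hg hgb
    by_contra hlt
    have h1 := gc_obs (by omega : 0 < n) hrn (not_lt.1 hlt)
    apply hgb
    apply Finset.dvd_lcm (f := id)
    rw [Finset.mem_Icc]
    exact ⟨hg, (Nat.le_div_iff_mul_le hd).2 h1⟩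
  · rw [← Chebyshev.psi_eq_log_lcmUpto]
    have h1 := Chebyshev.psi_le_const_mul_self (x := ((2 * n * r / (2 * n - r) : ℕ) : ℝ))
      (Nat.cast_nonneg _)
    refine h1.trans ?_
    have h2 : Real.log 4 = 2 * Real.log 2 := by
      rw [show (4 : ℝ) = 2 ^ 2 by norm_num, Real.log_pow]
      norm_num
    have h3 := Real.log_two_lt_d9
    have hD : (0 : ℝ) < 2 * n - r := by
      have : (r : ℝ) < 2 * n := by exact_mod_cast hrn
      linarith
    have h4 : ((2 * n * r / (2 * n - r) : ℕ) : ℝ) ≤ 2 * ((n : ℝ) * r / (2 * n - r)) := by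
      have h5 := @Nat.cast_div_le ℝ _ _ _ (2 * n * r) (2 * n - r)
      rw [Nat.cast_sub hrn.le] at h5
      push_cast at h5
      refine h5.trans (le_of_eq ?_)
      ring
    have h6 : (0 : ℝ) ≤ (n : ℝ) * r / (2 * n - r) := by positivity
    have h7 : (0 : ℝ) ≤ ((2 * n * r / (2 * n - r) : ℕ) : ℝ) := Nat.cast_nonneg _
    have h8 : Real.log 4 + 4 ≤ 5.5 := by
      rw [h2]
      linarith
    calc (Real.log 4 + 4) * ((2 * n * r / (2 * n - r) : ℕ) : ℝ)
        ≤ 5.5 * (2 * ((n : ℝ) * r / (2 * n - r))) :=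
          mul_le_mul h8 h4 h7 (by norm_num)
      _ = 11 * ((n : ℝ) * r / (2 * n - r)) := by ring

end Pool.Agent.DOR
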