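import Pool.Agent.DOR.Defs

/-!
DOR-Lat. For `r < 2n` the good `b` are exactly the multiples of one number (pure arithmetic).

`Good n r b`: `∀ g > 0, g ∤ b → r * lf n b g < g`.  The good numbers are closed under multiples (the
number `mm b g` decreases when `gcd b g` is enlarged), under greatest common divisors (a violating
modulus `g` is smaller than `(r+1)^2`, so one of two coprime prime powers exactly dividing it is at
most `r`), and `((r+1)^2)!` is good.
-/

set_option autoImplicit false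

namespace Pool.Agent.DOR

/-- the criterion -/
def Good (n r b : ℕ) : Prop := ∀ g : ℕ, 0 < g → ¬ g ∣ b → r * lf n b g < g

private theorem two_mm_le (b g : ℕ) : 2 * mm b g ≤ g := by
  unfold mm
  have h := Nat.mul_div_le g (2 * Nat.gcd b g)
  calc 2 * (Nat.gcd b g * (g / (2 * Nat.gcd b g))) = 2 * Nat.gcd b g * (g / (2 * Nat.gcd b g)) := by
        ring
    _ ≤ g := h

private theorem one_le_mm {b g : ℕ} (hg : 0 < g) (h : ¬ g ∣ b) : 1 ≤ mm b g := by
  unfold mm
  have ht : 0 < Nat.gcd b g := Nat.gcd_pos_of_pos_right b hg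
  obtain ⟨q, hq⟩ := Nat.gcd_dvd_right b g
  have hq1 : q ≠ 0 := by
    rintro rfl
    rw [mul_zero] at hq
    omega
  have hq2 : q ≠ 1 := by
    rintro rfl
    rw [mul_one] at hq
    apply h
    rw [hq]
    exact Nat.gcd_dvd_left b g
  have h2 : 1 ≤ g / (2 * Nat.gcd b g) := by
    rw [Nat.le_div_iff_mul_le (by omega)]
    calc 1 * (2 * Nat.gcd b g) = Nat.gcd b g * 2 := by ring
      _ ≤ Nat.gcd b g * q := Nat.mul_le_mul_left _ (by omega)
      _ = g := hq.symm
  exact Nat.mul_pos ht h2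

private theorem one_le_lf {n b g : ℕ} (hn : 0 < n) (hg : 0 < g) (h : ¬ g ∣ b) : 1 ≤ lf n b g := by
  unfold lf
  rw [Nat.le_div_iff_mul_le hn]
  have := one_le_mm hg h
  omega

private theorem mm_mono {b b' g : ℕ} (hg : 0 < g) (hbb : b ∣ b') : mm b' g ≤ mm b g := by
  unfold mm
  have ht : 0 < Nat.gcd b g := Nat.gcd_pos_of_pos_right b hg
  obtain ⟨s, hs⟩ : Nat.gcd b g ∣ Nat.gcd b' g := Nat.gcd_dvd_gcd_of_dvd_left g hbb
  obtain ⟨q, hq⟩ := Nat.gcd_dvd_right b g
  rw [hs]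
  have key : ∀ t s : ℕ, 0 < t → g = t * q → g / (2 * (t * s)) = q / (2 * s) := by
    intro t s ht hg'
    rw [hg', show 2 * (t * s) = t * (2 * s) by ring, Nat.mul_div_mul_left _ _ ht]
  have h1 : g / (2 * Nat.gcd b g) = q / 2 := by
    have := key _ 1 ht hq
    rwa [mul_one, mul_one] at this
  have h2 : g / (2 * (Nat.gcd b g * s)) = q / (2 * s) := key _ s ht hq
  rw [h1, h2, mul_assoc]
  refine Nat.mul_le_mul_left _ ?_
  rw [Nat.le_div_iff_mul_le (by norm_num)]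
  calc s * (q / (2 * s)) * 2 = 2 * s * (q / (2 * s)) := by ring
    _ ≤ q := Nat.mul_div_le _ _

private theorem bound {n r b g : ℕ} (hn : 0 < n) (hr : 0 < r) (hrn : r < 2 * n)
    (h : g ≤ r * lf n b g) : g < (r + 1) ^ 2 := by
  have h1 := two_mm_le b g
  have h2 : lf n b g * n ≤ mm b g + n - 1 := Nat.div_mul_le_self _ _
  have h3 : 2 * n * lf n b g + 2 ≤ g + 2 * n := by
    have : 2 * n * lf n b g = 2 * (lf n b g * n) := by ring
    omega
  obtain ⟨s, hs⟩ : ∃ s, 2 * n = r + s := ⟨2 * n - r, by omega⟩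
  have hs1 : 1 ≤ s := by omega
  rw [hs] at h3
  by_contra hcon
  push Not at hcon
  -- (r+s) g ≤ r ((r+s) lf) ≤ r (g + r + s - 2)
  have h4 : (r + s) * g + 2 * r ≤ r * (g + (r + s)) := by
    calc (r + s) * g + 2 * r ≤ (r + s) * (r * lf n b g) + 2 * r :=
          Nat.add_le_add_right (Nat.mul_le_mul_left _ h) _
      _ = r * ((r + s) * lf n b g + 2) := by ring
      _ ≤ r * (g + (r + s)) := Nat.mul_le_mul_left _ h3
  have h5 : s * g + 2 * r ≤ r * r + r * s := by nlinarith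
  have h6 : s * (r + 1) ^ 2 ≤ s * g := Nat.mul_le_mul_left _ hcon
  nlinarith

theorem good_mul {n r b b' : ℕ} (hbb : b ∣ b') (h : Good n r b) : Good n r b' := by
  intro g hg hgb
  have h1 := h g hg (fun h' => hgb (h'.trans hbb))
  have h2 : lf n b' g ≤ lf n b g := by
    unfold lf
    have := mm_mono hg hbb
    exact Nat.div_le_div_right (by omega)
  exact lt_of_le_of_lt (Nat.mul_le_mul_left _ h2) h1

theorem good_gcd {n r b₁ b₂ : ℕ} (hn : 0 < n) (hr : 0 < r) (hrn : r < 2 * n) (h0 : 0 < b₁)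
    (h0' : 0 < b₂) (h₁ : Good n r b₁) (h₂ : Good n r b₂) : Good n r (Nat.gcd b₁ b₂) := by
  intro g hg hgd
  by_contra hcon
  push Not at hcon
  have hbd := bound hn hr hrn hcon
  set t := Nat.gcd (Nat.gcd b₁ b₂) g with ht
  have ht0 : 0 < t := Nat.gcd_pos_of_pos_right _ hg
  have hgcd : Nat.gcd (Nat.gcd b₁ g) (Nat.gcd b₂ g) = t := by
    rw [ht]
    apply Nat.dvd_antisymm
    · refine Nat.dvd_gcd (Nat.dvd_gcd ?_ ?_) ?_
      · exact (Nat.gcd_dvd_left _ _).trans (Nat.gcd_dvd_left _ _)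
      · exact (Nat.gcd_dvd_right _ _).trans (Nat.gcd_dvd_left _ _)
      · exact (Nat.gcd_dvd_left _ _).trans (Nat.gcd_dvd_right _ _)
    · refine Nat.dvd_gcd (Nat.dvd_gcd ?_ ?_) (Nat.dvd_gcd ?_ ?_)
      · exact (Nat.gcd_dvd_left _ _).trans (Nat.gcd_dvd_left _ _)
      · exact Nat.gcd_dvd_right _ _
      · exact (Nat.gcd_dvd_left _ _).trans (Nat.gcd_dvd_right _ _)
      · exact Nat.gcd_dvd_right _ _
  have hsame : ∀ b, Good n r b → Nat.gcd b g ≠ t := by
    intro b hb hbt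
    have h1 : ¬ g ∣ b := by
      intro h
      rw [Nat.gcd_eq_right h] at hbt
      apply hgd
      rw [hbt]
      exact Nat.gcd_dvd_left _ _
    have h2 := hb g hg h1
    have h3 : lf n b g = lf n (Nat.gcd b₁ b₂) g := by
      unfold lf mm
      rw [hbt, ← ht]
    rw [h3] at h2
    omega
  have hsmall : ∀ P, 0 < P → P ≤ r → ¬ P ∣ Nat.gcd b₁ b₂ → False := by
    intro P hP hPr hPd
    have : ¬ P ∣ b₁ ∨ ¬ P ∣ b₂ := by
      by_contra hc
      push Not at hc
      exact hPd (Nat.dvd_gcd hc.1 hc.2)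
    rcases this with h | h
    · have h1 := h₁ P hP h
      have h2 := one_le_lf hn hP h
      have h3 : r * 1 ≤ r * lf n b₁ P := Nat.mul_le_mul_left _ h2
      omega
    · have h1 := h₂ P hP h
      have h2 := one_le_lf hn hP h
      have h3 : r * 1 ≤ r * lf n b₂ P := Nat.mul_le_mul_left _ h2
      omega
  -- the quotients
  have hdiv : ∀ b, t ∣ Nat.gcd b g → Nat.gcd b g ≠ t → Nat.gcd b g / t ≠ 1 := by
    intro b hb hne h
    apply hne
    exact (Nat.div_eq_iff_eq_mul_left ht0 hb).1 h |>.trans (one_mul t)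
  have ht1 : t ∣ Nat.gcd b₁ g := hgcd ▸ Nat.gcd_dvd_left _ _
  have ht2 : t ∣ Nat.gcd b₂ g := hgcd ▸ Nat.gcd_dvd_right _ _
  have hcop : Nat.Coprime (Nat.gcd b₁ g / t) (Nat.gcd b₂ g / t) := by
    have := Nat.coprime_div_gcd_div_gcd (m := Nat.gcd b₁ g) (n := Nat.gcd b₂ g)
      (by rw [hgcd]; exact ht0)
    rwa [hgcd] at this
  obtain ⟨p₁, hp₁, hp₁'⟩ := Nat.exists_prime_and_dvd (hdiv b₁ ht1 (hsame b₁ h₁))
  obtain ⟨p₂, hp₂, hp₂'⟩ := Nat.exists_prime_and_dvd (hdiv b₂ ht2 (hsame b₂ h₂))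
  have hne : p₁ ≠ p₂ := by
    rintro rfl
    exact Nat.not_coprime_of_dvd_of_dvd hp₁.one_lt hp₁' hp₂' hcop
  have hPt : ∀ b p, Nat.Prime p → t ∣ Nat.gcd b g → p ∣ Nat.gcd b g / t →
      ¬ p ^ (g.factorization p) ∣ Nat.gcd b₁ b₂ := by
    intro b p hp htb hpb hdvd
    have h1 : p ^ (g.factorization p) ∣ t := Nat.dvd_gcd hdvd (Nat.ordProj_dvd g p)
    have h2 : t * p ∣ g := by
      have h3 : t * p ∣ t * (Nat.gcd b g / t) := Nat.mul_dvd_mul_left _ hpb
      rw [Nat.mul_div_cancel' htb] at h3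
      exact h3.trans (Nat.gcd_dvd_right _ _)
    have h4 : p ^ (g.factorization p + 1) ∣ g := by
      rw [pow_succ]
      exact (Nat.mul_dvd_mul_right h1 p).trans h2
    exact Nat.pow_succ_factorization_not_dvd hg.ne' hp h4
  have hmul : p₁ ^ (g.factorization p₁) * p₂ ^ (g.factorization p₂) ∣ g := by
    refine Nat.Coprime.mul_dvd_of_dvd_of_dvd ?_ (Nat.ordProj_dvd g p₁) (Nat.ordProj_dvd g p₂)
    exact Nat.Coprime.pow _ _ ((Nat.coprime_primes hp₁ hp₂).2 hne)
  have hle := Nat.le_of_dvd hg hmul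
  have hor : p₁ ^ (g.factorization p₁) ≤ r ∨ p₂ ^ (g.factorization p₂) ≤ r := by
    by_contra hc
    push Not at hc
    have : (r + 1) * (r + 1) ≤ p₁ ^ (g.factorization p₁) * p₂ ^ (g.factorization p₂) :=
      Nat.mul_le_mul hc.1 hc.2
    rw [pow_two] at hbd
    omega
  rcases hor with h | h
  · exact hsmall _ (pow_pos hp₁.pos _) h (hPt b₁ p₁ hp₁ ht1 hp₁')
  · exact hsmall _ (pow_pos hp₂.pos _) h (hPt b₂ p₂ hp₂ ht2 hp₂')

theorem lattice {n r : ℕ} (hn : 0 < n) (hr : 0 < r) (hrn : r < 2 * n) :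
    ∃ B : ℕ, 0 < B ∧ ∀ b : ℕ, 0 < b → (Good n r b ↔ B ∣ b) := by
  classical
  have hex : ∃ B : ℕ, 0 < B ∧ Good n r B := by
    refine ⟨((r + 1) ^ 2).factorial, Nat.factorial_pos _, ?_⟩
    intro g hg hgb
    by_contra hcon
    push Not at hcon
    have h1 := bound hn hr hrn hcon
    exact hgb (Nat.dvd_factorial hg h1.le)
  refine ⟨Nat.find hex, (Nat.find_spec hex).1, fun b hb => ⟨fun h => ?_, fun h => ?_⟩⟩
  · have hB := Nat.find_spec hex
    have h1 := good_gcd hn hr hrn hB.1 hb hB.2 h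
    have h2 : 0 < Nat.gcd (Nat.find hex) b := Nat.gcd_pos_of_pos_right _ hb
    have h3 := Nat.find_min' hex ⟨h2, h1⟩
    have h4 := Nat.le_of_dvd hB.1 (Nat.gcd_dvd_left (Nat.find hex) b)
    have h5 : Nat.gcd (Nat.find hex) b = Nat.find hex := le_antisymm h4 h3
    rw [← h5]
    exact Nat.gcd_dvd_right _ _
  · exact good_mul h (Nat.find_spec hex).2

end Pool.Agent.DOR
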