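import Pool.Agent.DOR.Num

/-!
DOR-LocB. The local description of the least good number.
-/

set_option autoImplicit false

namespace Pool.Agent.DOR

/-- the prime power `p ^ e` obstructs -/
def Loc (n r p e : ℕ) : Prop :=
  ∃ f : ℕ, 1 ≤ f ∧ p ^ (e - 1 + f) ≤ r * ((p ^ (e - 1) * (p ^ f / 2) + n - 1) / n)

private theorem ceil_mono {n a b : ℕ} (h : a ≤ b) : (a + n - 1) / n ≤ (b + n - 1) / n :=
  Nat.div_le_div_right (by omega)

private theorem ceil_pos {n a : ℕ} (hn : 0 < n) (ha : 0 < a) : 1 ≤ (a + n - 1) / n := by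
  rw [Nat.le_div_iff_mul_le hn]
  omega

private theorem ceil_mul {n a m : ℕ} (hn : 0 < n) :
    (m * a + n - 1) / n ≤ m * ((a + n - 1) / n) := by
  have h1 : a ≤ n * ((a + n - 1) / n) := by
    have h2 := Nat.div_add_mod (a + n - 1) n
    have h3 := Nat.mod_lt (a + n - 1) hn
    omega
  have h4 : m * a ≤ n * (m * ((a + n - 1) / n)) := by
    calc m * a ≤ m * (n * ((a + n - 1) / n)) := Nat.mul_le_mul_left _ h1
      _ = _ := by ring
  have h5 : m * a + n - 1 < n * (m * ((a + n - 1) / n) + 1) := by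
    rw [mul_add, mul_one]
    omega
  exact Nat.lt_succ_iff.1 (Nat.div_lt_of_lt_mul h5)

/-- downward closed -/
theorem loc_down {n r p e : ℕ} (he : 1 ≤ e) (h : Loc n r p (e + 1)) : Loc n r p e := by
  obtain ⟨f, hf, h⟩ := h
  obtain ⟨d, rfl⟩ : ∃ d, e = d + 1 := ⟨e - 1, by omega⟩
  refine ⟨f + 1, by omega, ?_⟩
  simp only [Nat.add_sub_cancel] at h ⊢
  have e1 : d + (f + 1) = d + 1 + f := by ring
  rw [e1]
  refine h.trans (Nat.mul_le_mul_left _ (ceil_mono ?_))
  rw [pow_succ, mul_assoc]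
  refine Nat.mul_le_mul_left _ ?_
  rw [pow_succ, mul_comm (p ^ f) p]
  exact Nat.mul_div_le_mul_div_assoc _ _ _

theorem loc_le {n r p e : ℕ} : ∀ {e' : ℕ}, e ≤ e' → 1 ≤ e → Loc n r p e' → Loc n r p e := by
  intro e' hee
  induction e', hee using Nat.le_induction with
  | base => exact fun _ h => h
  | succ m hm ih => exact fun he h => ih he (loc_down (by omega) h)

/-- the gcd with a prime power -/
theorem gcd_pp {p b a c : ℕ} (hp : p.Prime) (h1 : p ^ a ∣ b) (h2 : ¬ p ^ (a + 1) ∣ b)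
    (hac : a ≤ c) : Nat.gcd b (p ^ c) = p ^ a := by
  obtain ⟨j, hj, h⟩ := (Nat.dvd_prime_pow hp).1 (Nat.gcd_dvd_right b (p ^ c))
  have h3 : p ^ a ∣ p ^ j := h ▸ Nat.dvd_gcd h1 (pow_dvd_pow p hac)
  have h4 : a ≤ j := (Nat.pow_dvd_pow_iff_le_right hp.one_lt).1 h3
  have h5 : p ^ j ∣ b := h ▸ Nat.gcd_dvd_left b (p ^ c)
  have h6 : j ≤ a := by
    by_contra hc
    exact h2 ((pow_dvd_pow p (by omega)).trans h5)
  rw [h, le_antisymm h6 h4]

/-- the exact exponent -/
theorem exists_exp {p b c : ℕ} (hb : ¬ p ^ c ∣ b) :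
    ∃ a, a < c ∧ p ^ a ∣ b ∧ ¬ p ^ (a + 1) ∣ b := by
  classical
  have hex : ∃ c, ¬ p ^ c ∣ b := ⟨c, hb⟩
  have h1 := Nat.find_spec hex
  have h2 : Nat.find hex ≠ 0 := by
    intro h
    rw [h, pow_zero] at h1
    exact h1 (one_dvd b)
  obtain ⟨a, ha⟩ : ∃ a, Nat.find hex = a + 1 := ⟨Nat.find hex - 1, by omega⟩
  refine ⟨a, ?_, ?_, ?_⟩
  · have h3 := Nat.find_min' hex hb
    omega
  · by_contra h4
    have h5 := Nat.find_min' hex h4
    omega
  · rw [← ha]
    exact h1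

theorem lf_pp {n p b a f m : ℕ} (hp : p.Prime) (h1 : p ^ a ∣ b) (h2 : ¬ p ^ (a + 1) ∣ b)
    (hm : m ∣ b) (hm0 : 0 < m) (hpm : ¬ p ∣ m) :
    lf n b (p ^ (a + f) * m) = (m * (p ^ a * (p ^ f / 2)) + n - 1) / n := by
  have hco : Nat.Coprime (p ^ (a + f)) m :=
    Nat.Coprime.pow_left _ ((Nat.Prime.coprime_iff_not_dvd hp).2 hpm)
  have hg : Nat.gcd b (p ^ (a + f) * m) = p ^ a * m := by
    rw [Nat.Coprime.gcd_mul b hco, gcd_pp hp h1 h2 (Nat.le_add_right a f),
      Nat.gcd_eq_right hm]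
  unfold lf mm
  rw [hg]
  have h3 : p ^ (a + f) * m / (2 * (p ^ a * m)) = p ^ f / 2 := by
    have h4 : p ^ (a + f) * m = (p ^ a * m) * p ^ f := by
      rw [pow_add]
      ring
    rw [h4, mul_comm 2 (p ^ a * m)]
    exact Nat.mul_div_mul_left _ _ (Nat.mul_pos (pow_pos hp.pos _) hm0)
  rw [h3]
  congr 2
  ring

/-- the local criterion -/
theorem good_iff_loc {n r b : ℕ} (hn : 0 < n) (hrn : r < 2 * n) (hb : 0 < b) :
    Good n r b ↔ ∀ p e : ℕ, p.Prime → 1 ≤ e → Loc n r p e → p ^ e ∣ b := by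
  constructor
  · intro h p e hp he hL
    by_contra hnd
    obtain ⟨a, hae, h1, h2⟩ := exists_exp hnd
    obtain ⟨f, hf, h3⟩ := loc_le (by omega : a + 1 ≤ e) (by omega) hL
    simp only [Nat.add_sub_cancel] at h3
    have h4 : ¬ p ^ (a + f) * 1 ∣ b := by
      rw [mul_one]
      exact fun h5 => h2 ((pow_dvd_pow p (by omega)).trans h5)
    have h5 := h (p ^ (a + f) * 1) (Nat.mul_pos (pow_pos hp.pos _) one_pos) h4
    rw [lf_pp hp h1 h2 (one_dvd b) one_pos
      (fun h => hp.one_lt.ne' (Nat.dvd_one.1 h)), one_mul, mul_one] at h5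
    omega
  · intro h g hg hgb
    by_contra hlt
    rw [not_lt] at hlt
    have hsm := obs_lt hn hrn hlt
    -- a prime power which does not divide `b` is large
    have hbig : ∀ p c : ℕ, p.Prime → ¬ p ^ c ∣ b →
        ∃ a, a < c ∧ p ^ a ∣ b ∧ ¬ p ^ (a + 1) ∣ b ∧ ¬ Loc n r p (a + 1) ∧ r + 1 ≤ p ^ (a + 1) := by
      intro p c hp hc
      obtain ⟨a, hac, h1, h2⟩ := exists_exp hc
      have hL : ¬ Loc n r p (a + 1) := fun hL => h2 (h p (a + 1) hp (by omega) hL)
      refine ⟨a, hac, h1, h2, hL, ?_⟩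
      by_contra hc2
      apply hL
      refine ⟨1, le_rfl, ?_⟩
      simp only [Nat.add_sub_cancel]
      have h3 : 1 ≤ (p ^ a * (p ^ 1 / 2) + n - 1) / n := by
        apply ceil_pos hn
        apply Nat.mul_pos (pow_pos hp.pos _)
        rw [pow_one]
        exact Nat.div_pos hp.two_le two_pos
      calc p ^ (a + 1) ≤ r * 1 := by omega
        _ ≤ _ := Nat.mul_le_mul_left _ h3
    obtain ⟨p, c, hp, hpg, hpb⟩ : ∃ p c : ℕ, p.Prime ∧ p ^ c ∣ g ∧ ¬ p ^ c ∣ b := by
      by_contra hcon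
      push Not at hcon
      exact hgb ((Nat.dvd_iff_prime_pow_dvd_dvd b g).2 fun p k hp hk => hcon p k hp hk)
    obtain ⟨a, hac, h1, h2, hL, hpr⟩ := hbig p c hp hpb
    obtain ⟨d, m, hpm, hgm⟩ := Nat.exists_eq_pow_mul_and_not_dvd hg.ne' p hp.ne_one
    have hm0 : 0 < m := by
      rcases Nat.eq_zero_or_pos m with h3 | h3
      · exact absurd (h3 ▸ dvd_zero p) hpm
      · exact h3
    have hcd : c ≤ d := by
      by_contra hc
      have h3 : p ^ (d + 1) ∣ p ^ d * m := by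
        rw [← hgm]
        exact (pow_dvd_pow p (by omega)).trans hpg
      rw [pow_succ] at h3
      exact hpm (Nat.dvd_of_mul_dvd_mul_left (pow_pos hp.pos _) h3)
    have hmb : m ∣ b := by
      by_contra hmb
      obtain ⟨q, k, hq, hqm, hqb⟩ : ∃ q k : ℕ, q.Prime ∧ q ^ k ∣ m ∧ ¬ q ^ k ∣ b := by
        by_contra hcon
        push Not at hcon
        exact hmb ((Nat.dvd_iff_prime_pow_dvd_dvd b m).2 fun p k hp hk => hcon p k hp hk)
      obtain ⟨a2, hak, h3, h4, -, hqr⟩ := hbig q k hq hqb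
      have h5 : p ^ (a + 1) * q ^ (a2 + 1) ∣ p ^ d * m :=
        Nat.mul_dvd_mul (pow_dvd_pow p (by omega)) ((pow_dvd_pow q (by omega)).trans hqm)
      rw [← hgm] at h5
      have h6 := Nat.le_of_dvd hg h5
      have h7 : (r + 1) * (r + 1) ≤ p ^ (a + 1) * q ^ (a2 + 1) := Nat.mul_le_mul hpr hqr
      rw [pow_two] at hsm
      omega
    obtain ⟨f, rfl⟩ : ∃ f, d = a + f := ⟨d - a, by omega⟩
    rw [hgm, lf_pp hp h1 h2 hmb hm0 hpm] at hlt
    apply hL
    refine ⟨f, by omega, ?_⟩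
    simp only [Nat.add_sub_cancel]
    have h8 : p ^ (a + f) * m ≤ (r * ((p ^ a * (p ^ f / 2) + n - 1) / n)) * m := by
      calc p ^ (a + f) * m ≤ r * ((m * (p ^ a * (p ^ f / 2)) + n - 1) / n) := hlt
        _ ≤ r * (m * ((p ^ a * (p ^ f / 2) + n - 1) / n)) := Nat.mul_le_mul_left _ (ceil_mul hn)
        _ = _ := by ring
    exact Nat.le_of_mul_le_mul_right h8 hm0

/-- the least good number, locally -/
theorem lattice_loc {n r : ℕ} (hn : 0 < n) (hr : 0 < r) (hrn : r < 2 * n) :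
    ∃ B : ℕ, 0 < B ∧ (∀ b : ℕ, 0 < b → (Good n r b ↔ B ∣ b)) ∧
      ∀ p e : ℕ, p.Prime → 1 ≤ e → (p ^ e ∣ B ↔ Loc n r p e) := by
  obtain ⟨B, hB, h⟩ := lattice hn hr hrn
  refine ⟨B, hB, h, ?_⟩
  have hGB : Good n r B := (h B hB).2 (dvd_refl B)
  intro p e hp he
  constructor
  · intro hpB
    by_contra hL
    -- `B / p ^ k` with `p ^ (e - 1)` exactly dividing
    obtain ⟨d, m, hpm, hBm⟩ := Nat.exists_eq_pow_mul_and_not_dvd hB.ne' p hp.ne_one
    have hm0 : 0 < m := by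
      rcases Nat.eq_zero_or_pos m with h3 | h3
      · exact absurd (h3 ▸ dvd_zero p) hpm
      · exact h3
    have hco : ∀ k, Nat.Coprime (p ^ k) m := fun k =>
      Nat.Coprime.pow_left _ ((Nat.Prime.coprime_iff_not_dvd hp).2 hpm)
    have hed : e ≤ d := by
      by_contra hc
      have h3 : p ^ (d + 1) ∣ p ^ d * m := by
        rw [← hBm]
        exact (pow_dvd_pow p (by omega)).trans hpB
      rw [pow_succ] at h3
      exact hpm (Nat.dvd_of_mul_dvd_mul_left (pow_pos hp.pos _) h3)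
    have hG2 : Good n r (p ^ (e - 1) * m) := by
      rw [good_iff_loc hn hrn (Nat.mul_pos (pow_pos hp.pos _) hm0)]
      intro q k hq hk hLq
      by_cases hqp : q = p
      · subst hqp
        have hke : k ≤ e - 1 := by
          by_contra hc
          exact hL (loc_le (by omega : e ≤ k) he hLq)
        exact (pow_dvd_pow q hke).trans (Nat.dvd_mul_right _ _)
      · have h4 := (good_iff_loc hn hrn hB).1 hGB q k hq hk hLq
        rw [hBm] at h4
        have h5 : Nat.Coprime (q ^ k) (p ^ d) :=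
          Nat.Coprime.pow _ _ ((Nat.coprime_primes hq hp).2 hqp)
        exact (h5.dvd_of_dvd_mul_left h4).trans (Nat.dvd_mul_left _ _)
    have h6 := (h _ (Nat.mul_pos (pow_pos hp.pos _) hm0)).1 hG2
    have h7 := hpB.trans h6
    have h8 := (hco e).dvd_of_dvd_mul_right h7
    have h9 := (Nat.pow_dvd_pow_iff_le_right hp.one_lt).1 h8
    omega
  · intro hL
    exact (good_iff_loc hn hrn hB).1 hGB p e hp he hL

/-- `r ≤ n` -/
theorem good_small {n r b : ℕ} (hn : 0 < n) (hr : 0 < r) (hrn : r ≤ n) (hb : 0 < b) :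
    Good n r b ↔ ∀ k : ℕ, 1 ≤ k → k ≤ r → k ∣ b := by
  constructor
  · intro h k hk hkr
    by_contra hkb
    have h1 := h k hk hkb
    have h2 : 1 ≤ lf n b k := by
      unfold lf
      apply ceil_pos hn
      unfold mm
      have h3 : 0 < Nat.gcd b k := Nat.gcd_pos_of_pos_right _ hk
      apply Nat.mul_pos h3
      obtain ⟨m, hm⟩ := Nat.gcd_dvd_right b k
      have h4 : m ≠ 0 := by
        rintro rfl
        rw [mul_zero] at hm
        omega
      have h5 : m ≠ 1 := by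
        rintro rfl
        rw [mul_one] at hm
        exact hkb (hm ▸ Nat.gcd_dvd_left b k)
      apply Nat.div_pos _ (by omega)
      calc 2 * Nat.gcd b k = Nat.gcd b k * 2 := by ring
        _ ≤ Nat.gcd b k * m := Nat.mul_le_mul_left _ (by omega)
        _ = k := hm.symm
    have h6 : r * 1 ≤ r * lf n b k := Nat.mul_le_mul_left _ h2
    omega
  · intro h g hg hgb
    by_contra hlt
    rw [not_lt] at hlt
    have h1 : 2 * mm b g ≤ g := by
      unfold mm
      calc 2 * (Nat.gcd b g * (g / (2 * Nat.gcd b g)))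
          = (2 * Nat.gcd b g) * (g / (2 * Nat.gcd b g)) := by ring
        _ ≤ g := Nat.mul_div_le _ _
    have h2 : n * lf n b g ≤ mm b g + n - 1 := by
      unfold lf
      exact Nat.mul_div_le _ _
    by_cases h3 : mm b g ≤ n
    · have h4 : lf n b g ≤ 1 := by
        by_contra h5
        have h6 : n * 2 ≤ n * lf n b g := Nat.mul_le_mul_left _ (by omega)
        omega
      have h5 : r * lf n b g ≤ r * 1 := Nat.mul_le_mul_left _ h4
      exact hgb (h g hg (by omega))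
    · have h4 : r * lf n b g ≤ n * lf n b g := Nat.mul_le_mul_right _ hrn
      omega

end Pool.Agent.DOR
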