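import Pool.Agent.DOR.Defs

/-!
DOR-Resc. Rescaling to a set which is not contained in a residue class.

`resc`: for a set `E` of positive upper Banach density let `e₀ ∈ E` and let `h > 0` be the generator of the
subgroup of `ℤ` generated by `{e - e₀ | e ∈ E}`; the set `E' = {k | e₀ + h k ∈ E}` has upper Banach density at
least `h * a` and meets at least two residue classes modulo every `g ≥ 2`.
`mm_mul`: the behaviour of `mm` under multiplication of both arguments by `h`.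
`free_resc`: if `E` has no solution for `h * b` then `E'` has no solution for `b`.
-/

set_option autoImplicit false

namespace Pool.Agent.DOR

theorem mm_mul {h b g : ℕ} (hh : 0 < h) : mm (h * b) (h * g) = h * mm b g := by
  unfold mm
  rw [Nat.gcd_mul_left, show 2 * (h * Nat.gcd b g) = h * (2 * Nat.gcd b g) by ring,
    Nat.mul_div_mul_left _ _ hh]
  ring

theorem free_resc {E : Set ℤ} {n : ℕ} {h : ℕ} {b : ℤ} {e₀ : ℤ} (hf : Free E n ((h : ℤ) * b)) :
    Free {k : ℤ | e₀ + h * k ∈ E} n b := by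
  intro u v hu hv heq
  refine hf (fun i => e₀ + h * u i) (fun i => e₀ + h * v i) hu hv ?_
  rw [Finset.sum_add_distrib, Finset.sum_add_distrib, ← Finset.mul_sum, ← Finset.mul_sum, heq]
  ring

/-- the counting function only grows when the set is divided by `h` -/
private theorem cnt_resc {E : Set ℤ} {e₀ : ℤ} {h : ℕ} (hh : 0 < h)
    (hd : ∀ e ∈ E, (h : ℤ) ∣ e - e₀) (x : ℤ) (M : ℕ) :
    cnt E x M ≤ cnt {k : ℤ | e₀ + h * k ∈ E} (-((e₀ - x) / h)) (M / h + 1) := by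
  have hh' : (0 : ℤ) < h := by exact_mod_cast hh
  have hsub : E ∩ Set.Ico x (x + M) ⊆ (fun k : ℤ => e₀ + h * k) ''
      ({k : ℤ | e₀ + h * k ∈ E} ∩
        Set.Ico (-((e₀ - x) / h)) (-((e₀ - x) / h) + ((M / h + 1 : ℕ) : ℤ))) := by
    rintro e ⟨he, hx1, hx2⟩
    obtain ⟨k, hk⟩ := hd e he
    have hek : e₀ + h * k = e := by linarith
    refine ⟨k, ⟨?_, ?_, ?_⟩, hek⟩
    · change e₀ + h * k ∈ E
      rw [hek]
      exact he
    · have h1 : -k ≤ (e₀ - x) / h := by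
        rw [Int.le_ediv_iff_mul_le hh']
        nlinarith
      linarith
    · have h2 : (e₀ - x) / h * h ≤ e₀ - x := Int.ediv_mul_le _ hh'.ne'
      have h3 : (k + (e₀ - x) / h) * h < M := by nlinarith
      have h4 : k + (e₀ - x) / h ≤ (M : ℤ) / h := by
        rw [Int.le_ediv_iff_mul_le hh']
        exact h3.le
      push_cast
      linarith
  calc cnt E x M ≤ ((fun k : ℤ => e₀ + h * k) ''
      ({k : ℤ | e₀ + h * k ∈ E} ∩
        Set.Ico (-((e₀ - x) / h)) (-((e₀ - x) / h) + ((M / h + 1 : ℕ) : ℤ)))).ncard :=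
        Set.ncard_le_ncard hsub (((Set.finite_Ico _ _).inter_of_right _).image _)
    _ ≤ _ := Set.ncard_image_le ((Set.finite_Ico _ _).inter_of_right _)

private theorem ud_resc {E : Set ℤ} {a : ℝ} {e₀ : ℤ} {h : ℕ} (hE : UD E a) (hh : 0 < h)
    (hd : ∀ e ∈ E, (h : ℤ) ∣ e - e₀) : UD {k : ℤ | e₀ + h * k ∈ E} (h * a) := by
  intro ε hε N
  have hh' : (0 : ℝ) < h := by exact_mod_cast hh
  obtain ⟨K, hK⟩ := exists_nat_gt (2 * (h * a) / ε)
  obtain ⟨M, hM, x, hx⟩ := hE (ε / (2 * h)) (by positivity) (h * (max N K))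
  refine ⟨M / h + 1, ?_, -((e₀ - x) / h), ?_⟩
  · have h1 : max N K ≤ M / h := by
      rw [Nat.le_div_iff_mul_le hh, mul_comm]
      exact hM
    exact (le_max_left N K).trans (h1.trans (Nat.le_succ _))
  · have hc : (cnt E x M : ℝ) ≤
        cnt {k : ℤ | e₀ + h * k ∈ E} (-((e₀ - x) / h)) (M / h + 1) := by
      exact_mod_cast cnt_resc hh hd x M
    have hKM : (K : ℝ) ≤ ((M / h : ℕ) : ℝ) := by
      have h1 : max N K ≤ M / h := by
        rw [Nat.le_div_iff_mul_le hh, mul_comm]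
        exact hM
      exact_mod_cast (le_max_right N K).trans h1
    have hMM : (h : ℝ) * ((M / h : ℕ) : ℝ) ≤ M := by
      exact_mod_cast Nat.mul_div_le M h
    push_cast
    rcases le_or_gt (h * a - ε) 0 with hneg | hpos
    · calc (h * a - ε) * (((M / h : ℕ) : ℝ) + 1) ≤ 0 :=
            mul_nonpos_of_nonpos_of_nonneg hneg (by positivity)
        _ ≤ _ := Nat.cast_nonneg _
    · refine le_trans ?_ (hx.trans hc)
      have h2 : 2 * (h * a) < K * ε := by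
        rw [div_lt_iff₀ hε] at hK
        exact hK
      have h3 : (h : ℝ) * (a - ε / (2 * h)) = h * a - ε / 2 := by
        field_simp
      have h4 : 0 < a - ε / (2 * h) := by
        by_contra hcon
        have : (h : ℝ) * (a - ε / (2 * h)) ≤ 0 :=
          mul_nonpos_of_nonneg_of_nonpos hh'.le (not_lt.1 hcon)
        linarith
      have h5 : (a - ε / (2 * h)) * (h * ((M / h : ℕ) : ℝ)) ≤ (a - ε / (2 * h)) * M :=
        mul_le_mul_of_nonneg_left hMM h4.le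
      have h6 : (a - ε / (2 * h)) * (h * ((M / h : ℕ) : ℝ)) =
          (h * a - ε / 2) * ((M / h : ℕ) : ℝ) := by
        rw [← h3]
        ring
      have h7 : (K : ℝ) * ε ≤ ((M / h : ℕ) : ℝ) * ε := mul_le_mul_of_nonneg_right hKM hε.le
      nlinarith

private theorem two_elems {E : Set ℤ} {a : ℝ} (ha : 0 < a) (hE : UD E a) :
    ∃ e₀ ∈ E, ∃ e₁ ∈ E, e₁ ≠ e₀ := by
  obtain ⟨N, hN⟩ := exists_nat_gt (2 / a)
  obtain ⟨M, hM, x, hx⟩ := hE (a / 2) (by linarith) N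
  have h1 : (1 : ℝ) < cnt E x M := by
    refine lt_of_lt_of_le ?_ hx
    rw [div_lt_iff₀ ha] at hN
    have h2 : (N : ℝ) ≤ M := by exact_mod_cast hM
    have h3 : (N : ℝ) * a ≤ M * a := mul_le_mul_of_nonneg_right h2 ha.le
    linarith
  have h4 : 1 < (E ∩ Set.Ico x (x + M)).ncard := by
    have : (1 : ℝ) < ((E ∩ Set.Ico x (x + M)).ncard : ℝ) := h1
    exact_mod_cast this
  obtain ⟨e₀, he₀, e₁, he₁, hne⟩ := Set.one_lt_ncard_iff_nontrivial.1 h4
  exact ⟨e₀, he₀.1, e₁, he₁.1, hne.symm⟩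

theorem resc {E : Set ℤ} {a : ℝ} (ha : 0 < a) (hE : UD E a) :
    ∃ e₀ ∈ E, ∃ h : ℕ, 0 < h ∧ (∀ e ∈ E, (h : ℤ) ∣ e - e₀) ∧
      UD {k : ℤ | e₀ + h * k ∈ E} (h * a) ∧
      ∀ g : ℕ, 2 ≤ g → 2 ≤ res {k : ℤ | e₀ + h * k ∈ E} g := by
  obtain ⟨e₀, he₀, e₁, he₁, hne⟩ := two_elems ha hE
  let H : AddSubgroup ℤ := AddSubgroup.closure ((fun e => e - e₀) '' E)
  obtain ⟨c, hc⟩ := Int.subgroup_cyclic H
  have hmem : ∀ x : ℤ, x ∈ H ↔ c ∣ x := by
    intro x
    rw [hc, ← AddSubgroup.zmultiples_eq_closure, Int.mem_zmultiples_iff]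
  have hd : ∀ e ∈ E, c ∣ e - e₀ := fun e he =>
    (hmem _).1 (AddSubgroup.subset_closure ⟨e, he, rfl⟩)
  have hc0 : c ≠ 0 := by
    rintro rfl
    exact hne (sub_eq_zero.1 (zero_dvd_iff.1 (hd e₁ he₁)))
  have hh : 0 < c.natAbs := Int.natAbs_pos.2 hc0
  have hd' : ∀ e ∈ E, ((c.natAbs : ℕ) : ℤ) ∣ e - e₀ := fun e he =>
    Int.natAbs_dvd.2 (hd e he)
  refine ⟨e₀, he₀, c.natAbs, hh, hd', ud_resc hE hh hd', ?_⟩
  intro g hg
  have : NeZero g := ⟨by omega⟩
  by_contra hcon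
  have hle : res {k : ℤ | e₀ + ((c.natAbs : ℕ) : ℤ) * k ∈ E} g ≤ 1 := by omega
  unfold res at hle
  rw [Set.ncard_le_one (Set.toFinite _)] at hle
  have h0 : (0 : ℤ) ∈ {k : ℤ | e₀ + ((c.natAbs : ℕ) : ℤ) * k ∈ E} := by
    change e₀ + ((c.natAbs : ℕ) : ℤ) * 0 ∈ E
    rw [mul_zero, add_zero]
    exact he₀
  have hall : ∀ k ∈ {k : ℤ | e₀ + ((c.natAbs : ℕ) : ℤ) * k ∈ E}, (g : ℤ) ∣ k := by
    intro k hk
    have := hle _ ⟨k, hk, rfl⟩ _ ⟨0, h0, rfl⟩
    have h1 : ((k : ℤ) : ZMod g) = 0 := by simpa using this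
    exact (ZMod.intCast_zmod_eq_zero_iff_dvd k g).1 h1
  have hsub : H ≤ AddSubgroup.zmultiples (((c.natAbs : ℕ) : ℤ) * g) := by
    rw [AddSubgroup.closure_le]
    rintro _ ⟨e, he, rfl⟩
    obtain ⟨k, hk⟩ := hd' e he
    have hk' : k ∈ {k : ℤ | e₀ + ((c.natAbs : ℕ) : ℤ) * k ∈ E} := by
      change e₀ + ((c.natAbs : ℕ) : ℤ) * k ∈ E
      rw [← hk]
      simpa using he
    obtain ⟨l, hl⟩ := hall k hk'
    change e - e₀ ∈ AddSubgroup.zmultiples (((c.natAbs : ℕ) : ℤ) * g)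
    rw [Int.mem_zmultiples_iff, hk, hl]
    exact ⟨l, by ring⟩
  have hcH : c ∈ H := (hmem c).2 dvd_rfl
  have h2 := hsub hcH
  rw [Int.mem_zmultiples_iff] at h2
  have h3 : c.natAbs * g ∣ c.natAbs := by
    have := Int.natAbs_dvd_natAbs.2 h2
    rwa [Int.natAbs_mul, Int.natAbs_natCast, Int.natAbs_natCast] at this
  have h4 : g ∣ 1 := by
    have h5 : c.natAbs * g ∣ c.natAbs * 1 := by rwa [mul_one]
    exact (Nat.mul_dvd_mul_iff_left hh).1 h5
  have h6 := Nat.le_of_dvd one_pos h4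
  omega

end Pool.Agent.DOR
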