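import Pool.Agent.DOR.Norm
import Pool.Agent.DOR.Resc
import Pool.Agent.DOR.Col
import Pool.Agent.DOR.Lat

/-!
DOR-Main. The sharp density theorem and the exact degree of regularity.
-/

set_option autoImplicit false

open MeasureTheory

namespace Pool.Agent.DOR

private theorem le_lf {n b g : ℕ} (hn : 0 < n) : (mm b g : ℝ) / n ≤ lf n b g := by
  have h : mm b g ≤ n * lf n b g := by
    unfold lf
    have h1 := Nat.div_add_mod (mm b g + n - 1) n
    have h2 := Nat.mod_lt (mm b g + n - 1) hn
    omega
  rw [div_le_iff₀ (by exact_mod_cast hn)]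
  have h3 : (mm b g : ℝ) ≤ (n * lf n b g : ℕ) := by exact_mod_cast h
  push_cast at h3
  linarith

private theorem mm_two_mul {b : ℕ} (hb : 0 < b) : mm b (2 * b) = b := by
  have h1 : Nat.gcd b (2 * b) = b := Nat.gcd_eq_left (Dvd.intro_left 2 rfl)
  unfold mm
  rw [h1, Nat.div_self (by omega), mul_one]

/-- The density theorem: a set of integers without solutions has upper Banach density at most
`ceil (M_b(g)/n) / g` for some `g` that does not divide `b`. -/
theorem main {E : Set ℤ} {a : ℝ} {n b : ℕ} (hn : 0 < n) (hb : 0 < b) (ha : 0 < a) (hE : UD E a)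
    (hf : Free E n (b : ℤ)) : ∃ g : ℕ, 0 < g ∧ ¬ g ∣ b ∧ a * g ≤ lf n b g := by
  obtain ⟨e₀, he₀, h, hh, hdiv, hUD, hres⟩ := resc ha hE
  by_cases hhb : h ∣ b
  · obtain ⟨b', rfl⟩ := hhb
    have hb' : 0 < b' := Nat.pos_of_mul_pos_left hb |> fun h => h
    have hf' : Free {k : ℤ | e₀ + h * k ∈ E} n (b' : ℤ) := by
      refine free_resc (h := h) ?_
      have : ((h * b' : ℕ) : ℤ) = (h : ℤ) * (b' : ℤ) := by push_cast; rfl
      rw [← this]
      exact hf
    have hha : 0 < (h : ℝ) * a := mul_pos (by exact_mod_cast hh) ha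
    rcases norm_case hn hha hUD hres hf' with h1 | ⟨g, hg, hgb, h1⟩
    · refine ⟨2 * (h * b'), by positivity, ?_, ?_⟩
      · intro hd
        have := Nat.le_of_dvd hb hd
        omega
      · have h2 := le_lf (b := h * b') (g := 2 * (h * b')) hn
        rw [mm_two_mul hb] at h2
        refine le_trans ?_ h2
        have hn' : (0 : ℝ) < n := by exact_mod_cast hn
        rw [le_div_iff₀ hn']
        have h3 : (1 : ℝ) ≤ h := by exact_mod_cast hh
        have h4 : (n : ℝ) * a ≤ 1 / 2 := by
          have : (n : ℝ) * a ≤ n * (h * a) := by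
            apply mul_le_mul_of_nonneg_left _ hn'.le
            nlinarith
          linarith
        have h5 : (0 : ℝ) < ((h * b' : ℕ) : ℝ) := by exact_mod_cast hb
        have h6 : ((2 * (h * b') : ℕ) : ℝ) = 2 * ((h * b' : ℕ) : ℝ) := by push_cast; ring
        rw [h6]
        nlinarith
    · refine ⟨h * g, by positivity, ?_, ?_⟩
      · intro hd
        exact hgb (Nat.dvd_of_mul_dvd_mul_left hh hd)
      · have h2 : lf n b' g ≤ lf n (h * b') (h * g) := by
          unfold lf
          rw [mm_mul hh]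
          apply Nat.div_le_div_right
          have : mm b' g ≤ h * mm b' g := Nat.le_mul_of_pos_left _ hh
          omega
        have h3 : (lf n b' g : ℝ) ≤ lf n (h * b') (h * g) := by exact_mod_cast h2
        push_cast
        calc a * ((h : ℝ) * g) = h * a * g := by ring
          _ ≤ lf n b' g := h1
          _ ≤ _ := h3
  · refine ⟨h, hh, hhb, ?_⟩
    have h1 := ud_le_res hE hh
    have h2 : res E h ≤ 1 := by
      have : NeZero h := ⟨hh.ne'⟩
      unfold res
      rw [Set.ncard_le_one_iff]
      rintro x y ⟨u, hu, rfl⟩ ⟨v, hv, rfl⟩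
      show ((u : ℤ) : ZMod h) = ((v : ℤ) : ZMod h)
      rw [ZMod.intCast_eq_intCast_iff_dvd_sub]
      have := dvd_sub (hdiv v hv) (hdiv u hu)
      simpa using this
    have h3 : (1 : ℝ) ≤ lf n b h := by exact_mod_cast lf_pos hn hh hhb
    have h4 : (res E h : ℝ) ≤ 1 := by exact_mod_cast h2
    linarith

/-- The exact criterion for `r`-regularity. -/
theorem exact {n b r : ℕ} (hn : 0 < n) (hb : 0 < b) (hr : 0 < r) :
    (∀ c : ℕ → Fin r, Mono n b c) ↔ Good n r b := by
  constructor
  · intro h g hg hgb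
    by_contra hlt
    obtain ⟨c, hc⟩ := con hn hg hgb (not_lt.1 hlt)
    exact hc (h c)
  · intro h c
    by_contra hc
    obtain ⟨k, hk⟩ := col c
    have hr' : (0 : ℝ) < r := by exact_mod_cast hr
    obtain ⟨g, hg, hgb, h1⟩ := main hn hb (by positivity) hk (free_cls hc k)
    have h2 := h g hg hgb
    rw [div_mul_eq_mul_div, one_mul, div_le_iff₀ hr'] at h1
    have h3 : (r * lf n b g : ℕ) < (g : ℝ) := by exact_mod_cast h2
    push_cast at h3
    linarith

end Pool.Agent.DOR
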