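import Pool.Agent.DOR.Swa

/-!
DOR-Near. Near-minimisers of `μ(E+B) - μ(B)` of almost minimal measure: such a set and its translates are either almost
disjoint or almost equal. The infimum of the measures of the sets whose defect is at most `κ + ε` increases when `ε`
decreases; a set of almost minimal measure is compared with its intersections with its translates, by submodularity.
-/

set_option autoImplicit false

open MeasureTheory

namespace Pool.Agent.DOR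

variable {X : Type*} [MeasurableSpace X] {μ : Measure X}

/-- the near-minimisers -/
private def FF (σ : Sys μ) (E : Set ℤ) (κ ε : ℝ) (B : Set X) : Prop :=
  MeasurableSet B ∧ 0 < μ.real B ∧ 2 * μ.real B ≤ 1 - κ ∧ μ.real (σ.sw E B) < 1 ∧
    μ.real (σ.sw E B) ≤ μ.real B + κ + ε

private theorem sub_step (σ : Sys μ) [IsProbabilityMeasure μ] {E : Set ℤ} {κ ε : ℝ}
    (hlow : Low σ E κ) {B : Set X} (hB : FF σ E κ ε B) (hε : 0 < ε) (x : ℤ)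
    (hC : 2 * ε < μ.real (B ∩ σ.sh x B)) : FF σ E κ (2 * ε) (B ∩ σ.sh x B) := by
  obtain ⟨hBm, hB0, hB2, hB1, hBκ⟩ := hB
  have hBm' : MeasurableSet (σ.sh x B) := σ.meas_sh x hBm
  have hCm : MeasurableSet (B ∩ σ.sh x B) := hBm.inter hBm'
  have hC0 : 0 < μ.real (B ∩ σ.sh x B) := by linarith
  have hCB : μ.real (B ∩ σ.sh x B) ≤ μ.real B := measureReal_mono Set.inter_subset_left
  have hsC : μ.real (σ.sw E (B ∩ σ.sh x B)) ≤ μ.real (σ.sw E B) :=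
    measureReal_mono (σ.sw_mono E Set.inter_subset_left)
  have h1 : μ.real (B ∩ σ.sh x B) + κ ≤ μ.real (σ.sw E (B ∩ σ.sh x B)) :=
    hlow _ hCm hC0 (by linarith)
  have h2 := σ.sw_submod E (B := B) (C := σ.sh x B) hBm'
  rw [σ.real_sw_sh x E hBm] at h2
  have h3 : μ.real (B ∪ σ.sh x B) + μ.real (B ∩ σ.sh x B) = μ.real B + μ.real B := by
    rw [measureReal_union_add_inter (s := B) (t := σ.sh x B) hBm', σ.real_sh x hBm]
  have h4 : μ.real (B ∪ σ.sh x B) + κ ≤ μ.real (σ.sw E (B ∪ σ.sh x B)) := by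
    refine hlow _ (hBm.union hBm') ?_ ?_
    · exact lt_of_lt_of_le hB0 (measureReal_mono Set.subset_union_left)
    · linarith
  refine ⟨hCm, hC0, by linarith, by linarith, by linarith⟩

theorem near (σ : Sys μ) [IsProbabilityMeasure μ] {E : Set ℤ} {a κ : ℝ} (hE : UD E a)
    (hκa : κ < a) (hlow : Low σ E κ)
    (hnear : ∀ ε : ℝ, 0 < ε → ∃ B : Set X, MeasurableSet B ∧ 0 < μ.real B ∧
      2 * μ.real B ≤ 1 - κ ∧ μ.real (σ.sw E B) < 1 ∧ μ.real (σ.sw E B) ≤ μ.real B + κ + ε)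
    {η : ℝ} (hη : 0 < η) :
    ∃ ε : ℝ, 0 < ε ∧ ε ≤ η ∧ ∃ B : Set X, MeasurableSet B ∧ (a - κ) / 2 ≤ μ.real B ∧
      2 * μ.real B ≤ 1 - κ ∧ μ.real (σ.sw E B) ≤ μ.real B + κ + ε ∧
      ∀ x : ℤ, μ.real (B ∩ σ.sh x B) ≤ 2 * ε ∨ μ.real (B \ σ.sh x B) ≤ 2 * η := by
  have hne : ∀ ε : ℝ, 0 < ε → ({r : ℝ | ∃ B, FF σ E κ ε B ∧ μ.real B = r}).Nonempty := by
    intro ε hε
    obtain ⟨B, hB⟩ := hnear ε hε
    exact ⟨μ.real B, B, hB, rfl⟩
  have hbd : ∀ ε : ℝ, BddBelow {r : ℝ | ∃ B, FF σ E κ ε B ∧ μ.real B = r} := by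
    intro ε
    refine ⟨0, ?_⟩
    rintro r ⟨B, _, rfl⟩
    exact measureReal_nonneg
  have hle1 : ∀ ε : ℝ, 0 < ε → sInf {r : ℝ | ∃ B, FF σ E κ ε B ∧ μ.real B = r} ≤ 1 := by
    intro ε hε
    obtain ⟨r, B, hB, hr⟩ := hne ε hε
    refine le_trans (csInf_le (hbd ε) ⟨B, hB, hr⟩) ?_
    rw [← hr]
    exact measureReal_le_one
  have hbdA : BddAbove {t : ℝ | ∃ ε : ℝ, 0 < ε ∧
      sInf {r : ℝ | ∃ B, FF σ E κ ε B ∧ μ.real B = r} = t} := by
    refine ⟨1, ?_⟩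
    rintro t ⟨ε, hε, rfl⟩
    exact hle1 ε hε
  have hneA : ({t : ℝ | ∃ ε : ℝ, 0 < ε ∧
      sInf {r : ℝ | ∃ B, FF σ E κ ε B ∧ μ.real B = r} = t}).Nonempty := ⟨_, 1, one_pos, rfl⟩
  obtain ⟨t, ⟨ε₀, hε₀, ht⟩, htm⟩ := exists_lt_of_lt_csSup hneA
    (show sSup {t : ℝ | ∃ ε : ℝ, 0 < ε ∧
      sInf {r : ℝ | ∃ B, FF σ E κ ε B ∧ μ.real B = r} = t} - η < _ from by linarith)
  have haκ : 0 < (a - κ) / 2 := by linarith
  obtain ⟨ε, hεdef⟩ : ∃ ε, ε = min η (min (ε₀ / 2) ((a - κ) / 2)) := ⟨_, rfl⟩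
  have hε : 0 < ε := by
    rw [hεdef]
    exact lt_min hη (lt_min (by linarith) haκ)
  have hεη : ε ≤ η := by rw [hεdef]; exact min_le_left _ _
  have hε0 : ε ≤ ε₀ / 2 := by rw [hεdef]; exact (min_le_right _ _).trans (min_le_left _ _)
  have hεa : ε ≤ (a - κ) / 2 := by rw [hεdef]; exact (min_le_right _ _).trans (min_le_right _ _)
  have hfm := le_csSup hbdA ⟨ε, hε, rfl⟩
  obtain ⟨r, ⟨B, hB, hr⟩, hrm⟩ := exists_lt_of_csInf_lt (hne ε hε)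
    (lt_of_le_of_lt hfm (lt_add_of_pos_right _ hη))
  refine ⟨ε, hε, hεη, B, hB.1, ?_, hB.2.2.1, hB.2.2.2.2, ?_⟩
  · have h1 := sw_ge σ hE hB.1 hB.2.1
    have h2 := hB.2.2.2.2
    linarith
  · intro x
    rcases le_or_gt (μ.real (B ∩ σ.sh x B)) (2 * ε) with h | h
    · exact Or.inl h
    · right
      obtain ⟨h1, h2, h3, h4, h5⟩ := sub_step σ hlow hB hε x h
      have hF : FF σ E κ ε₀ (B ∩ σ.sh x B) := ⟨h1, h2, h3, h4, by linarith⟩
      have h6 : sInf {r : ℝ | ∃ B, FF σ E κ ε₀ B ∧ μ.real B = r} ≤ μ.real (B ∩ σ.sh x B) :=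
        csInf_le (hbd ε₀) ⟨_, hF, rfl⟩
      have h7 : μ.real (B \ σ.sh x B) + μ.real (B ∩ σ.sh x B) = μ.real B :=
        measureReal_sdiff_add_inter (σ.meas_sh x hB.1)
      rw [ht] at h6
      linarith

end Pool.Agent.DOR
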