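import Pool.Agent.DOR.Fin

/-!
DOR-Sat. Measures of `g`-periodic sets.

For a measurable `Y` with `sh g Y = Y`, `g ≥ 1`, the number `N(ω)` of the `i < g` with `S_i ω ∈ Y` is invariant, so
a.e. constant, and its integral is `g μ(Y)`; if `Y ∩ sh b Y` is null, `N(ω) ≤ mm b g` a.e. by `card_le_mm`.
-/

set_option autoImplicit false

open MeasureTheory

namespace Pool.Agent.DOR

variable {X : Type*} [MeasurableSpace X] {μ : Measure X}

open Classical in
/-- the number of the `i < g` with `S_i ω ∈ Y` -/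
private noncomputable def num (σ : Sys μ) (Y : Set X) (g : ℕ) (ω : X) : ℕ :=
  ((Finset.range g).filter fun i : ℕ => σ.S i ω ∈ Y).card

private theorem num_eq (σ : Sys μ) (Y : Set X) (g : ℕ) (ω : X) :
    (num σ Y g ω : ℝ) = ∑ i ∈ Finset.range g, (σ.sh i Y).indicator (fun _ => (1 : ℝ)) ω := by
  classical
  rw [num, Finset.card_filter, Nat.cast_sum]
  refine Finset.sum_congr rfl fun i _ => ?_
  by_cases h : σ.S i ω ∈ Y
  · have h' : ω ∈ σ.sh i Y := h
    rw [if_pos h, Set.indicator_of_mem h', Nat.cast_one]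
  · have h' : ω ∉ σ.sh i Y := h
    rw [if_neg h, Set.indicator_of_notMem h', Nat.cast_zero]

private theorem meas_num (σ : Sys μ) {Y : Set X} (hY : MeasurableSet Y) (g : ℕ) :
    Measurable fun ω => (num σ Y g ω : ℝ) := by
  have h : (fun ω => (num σ Y g ω : ℝ)) = fun ω => ∑ i ∈ Finset.range g,
      (σ.sh i Y).indicator (fun _ => (1 : ℝ)) ω := funext fun ω => num_eq σ Y g ω
  rw [h]
  exact Finset.measurable_sum _ fun i _ => measurable_const.indicator (σ.meas_sh i hY)

private theorem int_num (σ : Sys μ) [IsProbabilityMeasure μ] {Y : Set X} (hY : MeasurableSet Y)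
    (g : ℕ) : ∫ ω, (num σ Y g ω : ℝ) ∂μ = g * μ.real Y := by
  have h : (fun ω => (num σ Y g ω : ℝ)) = fun ω => ∑ i ∈ Finset.range g,
      (σ.sh i Y).indicator (fun _ => (1 : ℝ)) ω := funext fun ω => num_eq σ Y g ω
  rw [h, integral_finsetSum]
  · have e : ∀ i ∈ Finset.range g, ∫ ω, (σ.sh i Y).indicator (fun _ => (1 : ℝ)) ω ∂μ =
        μ.real Y := by
      intro i _
      rw [integral_indicator_const _ (σ.meas_sh i hY), smul_eq_mul, mul_one, σ.real_sh i hY]
    rw [Finset.sum_congr rfl e, Finset.sum_const, Finset.card_range, nsmul_eq_mul]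
  · intro i _
    exact (integrable_const (1 : ℝ)).indicator (σ.meas_sh i hY)

private theorem num_inv (σ : Sys μ) {Y : Set X} {g : ℕ} (hper : σ.sh g Y = Y) (ω : X) :
    (num σ Y g (σ.S 1 ω) : ℝ) = num σ Y g ω := by
  rw [num_eq, num_eq]
  have e1 : ∀ i : ℕ, (σ.sh i Y).indicator (fun _ => (1 : ℝ)) (σ.S 1 ω) =
      (σ.sh ((i + 1 : ℕ) : ℤ) Y).indicator (fun _ => (1 : ℝ)) ω := by
    intro i
    have h : σ.S 1 ω ∈ σ.sh i Y ↔ ω ∈ σ.sh ((i + 1 : ℕ) : ℤ) Y := by
      rw [σ.mem_sh, σ.mem_sh, ← σ.add', Nat.cast_add, Nat.cast_one]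
    by_cases h1 : σ.S 1 ω ∈ σ.sh i Y
    · rw [Set.indicator_of_mem h1, Set.indicator_of_mem (h.1 h1)]
    · rw [Set.indicator_of_notMem h1, Set.indicator_of_notMem fun h2 => h1 (h.2 h2)]
  rw [Finset.sum_congr rfl fun i _ => e1 i]
  have e2 := Finset.sum_range_succ' (fun i : ℕ =>
    (σ.sh (i : ℤ) Y).indicator (fun _ => (1 : ℝ)) ω) g
  rw [Finset.sum_range_succ] at e2
  have e3 : (σ.sh ((g : ℕ) : ℤ) Y).indicator (fun _ => (1 : ℝ)) ω =
      (σ.sh ((0 : ℕ) : ℤ) Y).indicator (fun _ => (1 : ℝ)) ω := by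
    rw [hper, Nat.cast_zero, σ.sh_zero]
  rw [e3] at e2
  linarith

theorem sat (σ : Sys μ) [IsProbabilityMeasure μ] {Y : Set X} (hY : MeasurableSet Y) {g : ℕ}
    (hg : 0 < g) (hper : σ.sh g Y = Y) : ∃ N : ℕ, g * μ.real Y = N := by
  obtain ⟨c, hc⟩ := σ.erg.ae_eq_const_of_ae_eq_comp_ae
    (g := fun ω => (num σ Y g ω : ℝ)) (meas_num σ hY g).aestronglyMeasurable
    (Filter.Eventually.of_forall fun ω => num_inv σ hper ω)
  obtain ⟨ω, hω⟩ := hc.exists
  have hω' : (num σ Y g ω : ℝ) = c := hω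
  refine ⟨num σ Y g ω, ?_⟩
  rw [← int_num σ hY g, integral_congr_ae hc, hω']
  simp

private theorem per_mul (σ : Sys μ) {Y : Set X} {g : ℕ} (hper : σ.sh g Y = Y) (q : ℕ) :
    σ.sh ((g * q : ℕ) : ℤ) Y = Y := by
  induction q with
  | zero => rw [Nat.mul_zero, Nat.cast_zero, σ.sh_zero]
  | succ q ih =>
    rw [Nat.mul_succ, Nat.cast_add]
    rw [← σ.sh_sh, hper, ih]

theorem avoid (σ : Sys μ) [IsProbabilityMeasure μ] {Y : Set X} (hY : MeasurableSet Y) {g : ℕ}
    (hg : 0 < g) (hper : σ.sh g Y = Y) (b : ℕ) (h0 : μ.real (Y ∩ σ.sh b Y) = 0) :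
    g * μ.real Y ≤ mm b g := by
  classical
  have hm : MeasurableSet (Y ∩ σ.sh b Y) := hY.inter (σ.meas_sh b hY)
  have hae : ∀ᵐ ω ∂μ, ∀ k : ℕ, ω ∉ σ.sh k (Y ∩ σ.sh b Y) := by
    rw [ae_all_iff]
    intro k
    have h1 : μ.real (σ.sh k (Y ∩ σ.sh b Y)) = 0 := by rw [σ.real_sh k hm, h0]
    rw [measureReal_eq_zero_iff] at h1
    exact measure_eq_zero_iff_ae_notMem.1 h1
  have hle : ∀ᵐ ω ∂μ, (num σ Y g ω : ℝ) ≤ mm b g := by
    filter_upwards [hae] with ω hω
    have hinj : Set.InjOn (fun i : ℕ => (i : ZMod g))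
        ((Finset.range g).filter fun i : ℕ => σ.S i ω ∈ Y : Finset ℕ) := by
      intro i hi j hj hij
      have hi' := Finset.mem_range.1 (Finset.mem_filter.1 (Finset.mem_coe.1 hi)).1
      have hj' := Finset.mem_range.1 (Finset.mem_filter.1 (Finset.mem_coe.1 hj)).1
      have h2 := (ZMod.natCast_eq_natCast_iff' i j g).1 hij
      rwa [Nat.mod_eq_of_lt hi', Nat.mod_eq_of_lt hj'] at h2
    have h3 := card_le_mm hg b (((Finset.range g).filter fun i : ℕ => σ.S i ω ∈ Y).image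
      fun i : ℕ => (i : ZMod g)) (by
        intro p hp hp'
        obtain ⟨i, hi, rfl⟩ := Finset.mem_image.1 hp
        obtain ⟨j, hj, hji⟩ := Finset.mem_image.1 hp'
        have hj' := Finset.mem_range.1 (Finset.mem_filter.1 hj).1
        have hiY := (Finset.mem_filter.1 hi).2
        have hjY := (Finset.mem_filter.1 hj).2
        have h4 : ((j : ℕ) : ZMod g) = ((i + b : ℕ) : ZMod g) := by
          rw [Nat.cast_add]
          exact hji
        have h5 := (ZMod.natCast_eq_natCast_iff' j (i + b) g).1 h4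
        rw [Nat.mod_eq_of_lt hj'] at h5
        have h6 : j + g * ((i + b) / g) = i + b := by
          rw [h5]
          exact Nat.mod_add_div _ _
        have h7 : σ.S (i + b : ℕ) ω ∈ Y := by
          rw [← h6, Nat.cast_add, add_comm, σ.add']
          have h8 : σ.S j ω ∈ σ.sh ((g * ((i + b) / g) : ℕ) : ℤ) Y := by
            rw [per_mul σ hper]
            exact hjY
          exact h8
        refine hω i ((σ.mem_sh _ _ _).2 ⟨hiY, ?_⟩)
        rw [σ.mem_sh, ← σ.add', add_comm, ← Nat.cast_add]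
        exact h7)
    rw [Finset.card_image_of_injOn hinj] at h3
    exact_mod_cast h3
  rw [← int_num σ hY g]
  have hint : Integrable (fun ω => (num σ Y g ω : ℝ)) μ := by
    refine Integrable.of_bound (meas_num σ hY g).aestronglyMeasurable (mm b g : ℝ) ?_
    filter_upwards [hle] with ω hω
    rwa [Real.norm_of_nonneg (Nat.cast_nonneg _)]
  have h9 := integral_mono_ae hint (integrable_const (mm b g : ℝ)) hle
  simpa using h9

end Pool.Agent.DOR
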