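import Pool.Agent.DOR.Core
import Pool.Agent.DOR.Grow
import Pool.Agent.DOR.Sat
import Pool.Agent.DOR.Ex
import Pool.Agent.DOR.Blk

/-!
DOR-Norm. The theorem for sets that are not contained in a residue class.

`toSys`: the ergodic system on `ℤ → Bool`: `S k ω i = ω (i + k)`. If the expansion constant `κ` of `dich` is at least
`a`, the iterated sweep `Y` of the base set and its translate by `b` are disjoint up to a null set, so `n a ≤ 1/2`.
Otherwise `κ` comes from residues modulo some `g ≥ 2`; the base set is replaced by its `g`-periodic hull (`diff_per`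
shows that nothing is lost) and the measures are integers divided by `g`.
-/

set_option autoImplicit false

open MeasureTheory

namespace Pool.Agent.DOR

private theorem meas_S (k : ℤ) : Measurable (fun (ω : ℤ → Bool) (i : ℤ) => ω (i + k)) :=
  measurable_pi_lambda _ fun i => measurable_pi_apply (i + k)

private theorem mp_nat {μ : Measure (ℤ → Bool)} (h : MeasurePreserving shift μ μ) (n : ℕ) :
    MeasurePreserving (fun (ω : ℤ → Bool) (i : ℤ) => ω (i + (n : ℤ))) μ μ := by
  induction n with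
  | zero =>
    have e : (fun (ω : ℤ → Bool) (i : ℤ) => ω (i + ((0 : ℕ) : ℤ))) = id := by
      funext ω i
      simp
    rw [e]
    exact MeasurePreserving.id μ
  | succ n ih =>
    have e : (fun (ω : ℤ → Bool) (i : ℤ) => ω (i + ((n + 1 : ℕ) : ℤ))) =
        (fun (ω : ℤ → Bool) (i : ℤ) => ω (i + (n : ℤ))) ∘ shift := by
      funext ω i
      simp only [Function.comp, shift]
      congr 1
      push_cast
      ring
    rw [e]
    exact ih.comp h

private theorem mp_neg {μ : Measure (ℤ → Bool)} (h : MeasurePreserving shift μ μ) (n : ℕ) :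
    MeasurePreserving (fun (ω : ℤ → Bool) (i : ℤ) => ω (i + (-(n : ℤ)))) μ μ := by
  refine ⟨meas_S _, ?_⟩
  have h1 := (mp_nat h n).map_eq
  conv_lhs => rw [← h1]
  rw [Measure.map_map (meas_S _) (meas_S _)]
  have e : (fun (ω : ℤ → Bool) (i : ℤ) => ω (i + (-(n : ℤ)))) ∘
      (fun (ω : ℤ → Bool) (i : ℤ) => ω (i + (n : ℤ))) = id := by
    funext ω i
    simp
  rw [e, Measure.map_id]

/-- the ergodic system of a shift-ergodic measure -/
noncomputable def toSys (μ : Measure (ℤ → Bool)) (h : Ergodic shift μ) : Sys μ where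
  S := fun k ω i => ω (i + k)
  zero' := by intro x; funext i; simp
  add' := by intro k l x; funext i; simp only []; congr 1; ring
  mp := by
    intro k
    obtain ⟨n, rfl | rfl⟩ := k.eq_nat_or_neg
    · exact mp_nat h.toMeasurePreserving n
    · exact mp_neg h.toMeasurePreserving n
  erg := h

private theorem null_pairs {E : Set ℤ} {μ : Measure (ℤ → Bool)} (hs : Supp E μ) (Z : Set (ℤ → Bool))
    (h : ∀ ω ∈ Z, ∃ p q : ℤ, ω p = true ∧ ω q = true ∧ ∀ u ∈ E, ∀ v ∈ E, u - v ≠ p - q) :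
    μ.real Z = 0 := by
  have h1 : μ (⋃ x : {x : ℤ × ℤ // ∀ u ∈ E, ∀ v ∈ E, u - v ≠ x.1 - x.2},
      {ω : ℤ → Bool | ω x.1.1 = true ∧ ω x.1.2 = true}) = 0 :=
    measure_iUnion_null fun x => hs x.1.1 x.1.2 x.2
  have h2 : μ Z = 0 := by
    refine measure_mono_null (fun ω hω => ?_) h1
    obtain ⟨p, q, hp, hq, hpq⟩ := h ω hω
    exact Set.mem_iUnion.2 ⟨⟨(p, q), hpq⟩, hp, hq⟩
  rw [Measure.real, h2, ENNReal.toReal_zero]

private theorem free_diff {E : Set ℤ} {m b : ℕ} (hf : Free E (m + 1) (b : ℤ)) {e e' : Fin m → ℤ}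
    (he : ∀ i, e i ∈ E) (he' : ∀ i, e' i ∈ E) :
    ∀ u ∈ E, ∀ v ∈ E, u - v ≠ ∑ i, e i - ∑ i, e' i - b := by
  intro u hu v hv h
  refine hf (Fin.cons v e) (Fin.cons u e') ?_ ?_ ?_
  · intro i
    refine Fin.cases ?_ (fun j => ?_) i
    · simpa using hv
    · simpa using he j
  · intro i
    refine Fin.cases ?_ (fun j => ?_) i
    · simpa using hu
    · simpa using he' j
  · rw [Fin.sum_univ_succ, Fin.sum_univ_succ]
    simp only [Fin.cons_zero, Fin.cons_succ]
    linarith

private theorem mm_two (b g : ℕ) : 2 * mm b g ≤ g := by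
  unfold mm
  rw [← mul_assoc]
  exact Nat.mul_div_le g (2 * Nat.gcd b g)

private theorem mm_dvd {b g : ℕ} (hg : 0 < g) (h : g ∣ b) : mm b g = 0 := by
  unfold mm
  rw [Nat.gcd_eq_right h, Nat.div_eq_of_lt (by omega), mul_zero]

private theorem half {X : Type*} [MeasurableSpace X] {μ : Measure X} (σ : Sys μ)
    [IsProbabilityMeasure μ] {Y : Set X} (hY : MeasurableSet Y) (b : ℤ)
    (h0 : μ.real (Y ∩ σ.sh b Y) = 0) : μ.real Y ≤ 1 / 2 := by
  have h1 := measureReal_union_add_inter (μ := μ) (s := Y) (t := σ.sh b Y) (σ.meas_sh b hY)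
  rw [h0, σ.real_sh b hY] at h1
  have h2 : μ.real (Y ∪ σ.sh b Y) ≤ 1 := measureReal_le_one
  linarith

private theorem sh_iter {X : Type*} [MeasurableSpace X] {μ : Measure X} (σ : Sys μ) (k : ℤ)
    (E : Set ℤ) {A : Set X} (h : σ.sh k A = A) (m : ℕ) : σ.sh k ((σ.sw E)^[m] A) = (σ.sw E)^[m] A := by
  induction m with
  | zero => exact h
  | succ m ih =>
    rw [Function.iterate_succ_apply', σ.sh_sw, ih]

theorem norm_case {E : Set ℤ} {a : ℝ} {n b : ℕ} (hn : 0 < n) (ha : 0 < a) (hE : UD E a)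
    (hno : ∀ g : ℕ, 2 ≤ g → 2 ≤ res E g) (hf : Free E n (b : ℤ)) :
    (n : ℝ) * a ≤ 1 / 2 ∨ ∃ g : ℕ, 2 ≤ g ∧ ¬ g ∣ b ∧ a * g ≤ lf n b g := by
  obtain ⟨m, rfl⟩ : ∃ m, n = m + 1 := ⟨n - 1, by omega⟩
  have hne : E.Nonempty := by
    rw [Set.nonempty_iff_ne_empty]
    intro h0
    have h1 := hno 2 le_rfl
    rw [h0] at h1
    simp [res] at h1
  obtain ⟨μ, hμ, herg, hsupp, hA⟩ := exists_erg hE
  obtain ⟨A, hAdef⟩ : ∃ A : Set (ℤ → Bool), A = {ω | ω 0 = true} := ⟨_, rfl⟩
  rw [← hAdef] at hA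
  obtain ⟨σ, hσ⟩ : ∃ σ : Sys μ, σ = toSys μ herg := ⟨_, rfl⟩
  have hmem : ∀ (k : ℤ) (ω : ℤ → Bool), σ.S k ω ∈ A ↔ ω k = true := by
    intro k ω
    rw [hσ, hAdef]
    show ω (0 + k) = true ↔ ω k = true
    rw [zero_add]
  have hAm : MeasurableSet A := by
    rw [hAdef]
    exact measurableSet_eq_fun (measurable_pi_apply 0) measurable_const
  have hA0 : 0 < μ.real A := lt_of_lt_of_le ha hA
  obtain ⟨κ, hκ0, hlow, hκ⟩ := dich σ ha hE
  by_cases hak : a ≤ κ
  · left
    have hYm := meas_iter σ E hAm m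
    have hnull : μ.real ((σ.sw E)^[m] A ∩ σ.sh b ((σ.sw E)^[m] A)) = 0 := by
      refine null_pairs hsupp _ ?_
      rintro ω ⟨h1, h2⟩
      obtain ⟨e, he, h3⟩ := (mem_iter σ E A m ω).1 h1
      obtain ⟨e', he', h4⟩ := (mem_iter σ E A m _).1 h2
      rw [← σ.add', hmem] at h4
      rw [hmem] at h3
      refine ⟨_, _, h3, h4, fun u hu v hv h => free_diff hf he he' u hu v hv ?_⟩
      rw [h]
      ring
    have hY := half σ hYm b hnull
    have hg := grow σ hne hlow hAm hA0 m (by linarith)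
    have h5 : (m : ℝ) * a ≤ m * κ := mul_le_mul_of_nonneg_left hak (Nat.cast_nonneg m)
    push_cast
    linarith
  · right
    push Not at hak
    rcases hκ with hκ | ⟨g, hg2, hgκ⟩
    · linarith
    have hg0 : 0 < g := by omega
    have hgR : (0 : ℝ) < g := by exact_mod_cast hg0
    have hs2 := hno g hg2
    rw [div_le_iff₀ hgR] at hgκ
    have hsa : (res E g : ℝ) - 1 < a * g :=
      lt_of_le_of_lt hgκ (mul_lt_mul_of_pos_right hak hgR)
    obtain ⟨D, hD⟩ : ∃ D : Set ℤ, D = {k | (g : ℤ) ∣ k} := ⟨_, rfl⟩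
    have hDne : D.Nonempty := ⟨0, by rw [hD]; exact dvd_zero _⟩
    have hA'm : MeasurableSet (σ.sw D A) := σ.meas_sw D hAm
    have hper : σ.sh g (σ.sw D A) = σ.sw D A := by
      ext x
      rw [σ.mem_sh, σ.mem_sw, σ.mem_sw]
      constructor
      · rintro ⟨k, hk, h⟩
        rw [← σ.add'] at h
        refine ⟨k + g, ?_, h⟩
        rw [hD] at hk ⊢
        exact dvd_add hk (dvd_refl _)
      · rintro ⟨k, hk, h⟩
        refine ⟨k - g, ?_, ?_⟩
        · rw [hD] at hk ⊢
          exact dvd_sub hk (dvd_refl _)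
        · rw [← σ.add', sub_add_cancel]
          exact h
    have hA' : μ.real A ≤ μ.real (σ.sw D A) := σ.le_sw hDne hAm
    obtain ⟨N, hN⟩ := sat σ hA'm hg0 hper
    have hNs : res E g ≤ N := by
      have h1 : (res E g : ℝ) - 1 < N := by
        rw [← hN]
        calc (res E g : ℝ) - 1 < a * g := hsa
          _ = g * a := mul_comm _ _
          _ ≤ g * μ.real (σ.sw D A) := mul_le_mul_of_nonneg_left (hA.trans hA') hgR.le
      have h2 : (res E g : ℝ) < ((N + 1 : ℕ) : ℝ) := by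
        push_cast
        linarith
      have h3 : res E g < N + 1 := by exact_mod_cast h2
      omega
    have hYm := meas_iter σ E hA'm m
    have hYper : σ.sh g ((σ.sw E)^[m] (σ.sw D A)) = (σ.sw E)^[m] (σ.sw D A) := sh_iter σ g E hper m
    have hnull : μ.real ((σ.sw E)^[m] (σ.sw D A) ∩ σ.sh b ((σ.sw E)^[m] (σ.sw D A))) = 0 := by
      refine null_pairs hsupp _ ?_
      rintro ω ⟨h1, h2⟩
      obtain ⟨e, he, h3⟩ := (mem_iter σ E _ m ω).1 h1
      obtain ⟨e', he', h4⟩ := (mem_iter σ E _ m _).1 h2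
      obtain ⟨j, hj, h3⟩ := (σ.mem_sw _ _ _).1 h3
      obtain ⟨j', hj', h4⟩ := (σ.mem_sw _ _ _).1 h4
      rw [← σ.add', hmem] at h3
      rw [← σ.add', ← σ.add', hmem] at h4
      rw [hD] at hj hj'
      obtain ⟨t, ht⟩ := hj
      obtain ⟨t', ht'⟩ := hj'
      refine ⟨_, _, h3, h4, fun u hu v hv h => ?_⟩
      obtain ⟨u', hu', v', hv', h5⟩ := diff_per hE hg0 hs2 hsa hu hv (t' - t)
      refine free_diff hf he he' u' hu' v' hv' ?_
      rw [h5, h, ht, ht']
      ring
    have hav := avoid σ hYm hg0 hYper b hnull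
    have hY := half σ hYm b hnull
    have hgr := grow σ hne hlow hA'm (lt_of_lt_of_le hA0 hA') m (by linarith)
    have hfin : res E g + m * (res E g - 1) ≤ mm b g := by
      have h1 : (res E g : ℝ) + m * (res E g - 1) ≤ mm b g := by
        calc (res E g : ℝ) + m * (res E g - 1) ≤ N + m * (κ * g) := by
              have h2 : (res E g : ℝ) ≤ N := by exact_mod_cast hNs
              have h3 : (m : ℝ) * (res E g - 1) ≤ m * (κ * g) :=
                mul_le_mul_of_nonneg_left hgκ (Nat.cast_nonneg m)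
              linarith
          _ = g * (μ.real (σ.sw D A) + m * κ) := by rw [← hN]; ring
          _ ≤ g * μ.real ((σ.sw E)^[m] (σ.sw D A)) := mul_le_mul_of_nonneg_left hgr hgR.le
          _ ≤ mm b g := hav
      have h4 : ((res E g - 1 : ℕ) : ℝ) = (res E g : ℝ) - 1 := by
        rw [Nat.cast_sub (by omega), Nat.cast_one]
      rw [← h4] at h1
      exact_mod_cast h1
    refine ⟨g, hg2, ?_, ?_⟩
    · intro hd
      rw [mm_dvd hg0 hd] at hfin
      omega
    · have h1 : res E g ≤ lf (m + 1) b g := by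
        unfold lf
        rw [Nat.le_div_iff_mul_le (by omega)]
        obtain ⟨s, hs⟩ : ∃ s, res E g = s + 1 := ⟨res E g - 1, by omega⟩
        rw [hs] at hfin ⊢
        have h2 : s + 1 - 1 = s := by omega
        rw [h2] at hfin
        have h3 : (s + 1) * (m + 1) = s + 1 + m * s + m := by ring
        rw [h3]
        omega
      calc a * g ≤ res E g := ud_le_res hE hg0
        _ ≤ lf (m + 1) b g := by exact_mod_cast h1

end Pool.Agent.DOR
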