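import Pool.Agent.DOR.Erg

/-!
DOR-Swa. `μ(E + B) ≥ a` for every non-null `B` if the upper Banach density of `E` is at least `a`:
the translates of `B` by the elements of `E` are disjoint from the complement of `E + B`, and the
mean ergodic theorem is applied on an interval in which `E` is dense.
-/

set_option autoImplicit false

open MeasureTheory

namespace Pool.Agent.DOR

variable {X : Type*} [MeasurableSpace X] {μ : Measure X}

open Classical in
private lemma cnt_eq (E : Set ℤ) (x : ℤ) (M : ℕ) :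
    cnt E x M = ((Finset.range M).filter (fun k : ℕ => x + (k : ℤ) ∈ E)).card := by
  have h1 : E ∩ Set.Ico x (x + M) =
      (fun k : ℕ => x + (k : ℤ)) '' (((Finset.range M).filter
        (fun k : ℕ => x + (k : ℤ) ∈ E) : Finset ℕ) : Set ℕ) := by
    ext y
    simp only [Set.mem_inter_iff, Set.mem_Ico, Set.mem_image, Finset.coe_filter,
      Finset.mem_range, Set.mem_ofPred_eq]
    constructor
    · rintro ⟨hy, h1, h2⟩
      have h3 : x + ((y - x).toNat : ℤ) = y := by omega
      exact ⟨(y - x).toNat, ⟨by omega, by rw [h3]; exact hy⟩, h3⟩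
    · rintro ⟨k, ⟨h1, h2⟩, rfl⟩
      exact ⟨h2, by omega, by omega⟩
  have hinj : Function.Injective (fun k : ℕ => x + (k : ℤ)) := by
    intro i j h
    have h' : x + (i : ℤ) = x + (j : ℤ) := h
    omega
  rw [cnt, h1, Set.ncard_image_of_injective _ hinj, Set.ncard_coe_finset]

theorem sw_ge (σ : Sys μ) [IsProbabilityMeasure μ] {E : Set ℤ} {a : ℝ} (hE : UD E a) {B : Set X}
    (hB : MeasurableSet B) (h0 : 0 < μ.real B) : a ≤ μ.real (σ.sw E B) := by
  classical
  by_contra hlt
  push Not at hlt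
  have hsw : MeasurableSet (σ.sw E B) := σ.meas_sw E hB
  have hW : MeasurableSet (σ.sw E B)ᶜ := hsw.compl
  have hw : μ.real (σ.sw E B)ᶜ = 1 - μ.real (σ.sw E B) := probReal_compl_eq_one_sub hsw
  have hε : 0 < (a - μ.real (σ.sw E B)) / 3 := by linarith
  obtain ⟨N, hN⟩ := erg_avg σ hB hW (mul_pos hε h0)
  obtain ⟨M, hM, x, hx⟩ := hE _ hε (max N 1)
  have hM1 : 1 ≤ M := le_trans (le_max_right _ _) hM
  have hMpos : (0 : ℝ) < M := by exact_mod_cast hM1
  have h1 := hN M (le_trans (le_max_left _ _) hM) x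
  have h2 : ∑ k ∈ Finset.range M, μ.real (σ.sh (x + k) B ∩ (σ.sw E B)ᶜ) ≤
      ∑ k ∈ Finset.range M, (μ.real B - if x + (k : ℤ) ∈ E then μ.real B else 0) := by
    apply Finset.sum_le_sum
    intro k _
    by_cases hk : x + (k : ℤ) ∈ E
    · have h3 : σ.sh (x + k) B ∩ (σ.sw E B)ᶜ = ∅ := by
        rw [← Set.sdiff_eq, Set.sdiff_eq_empty]
        exact σ.sh_subset_sw hk B
      rw [h3, if_pos hk, measureReal_empty, sub_self]
    · rw [if_neg hk, sub_zero, ← σ.real_sh (x + k) hB]
      exact measureReal_mono Set.inter_subset_left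
  have h3 : ∑ k ∈ Finset.range M, (μ.real B - if x + (k : ℤ) ∈ E then μ.real B else 0) =
      (M - cnt E x M) * μ.real B := by
    rw [Finset.sum_sub_distrib, ← Finset.sum_filter, Finset.sum_const, Finset.sum_const,
      Finset.card_range, ← cnt_eq, nsmul_eq_mul, nsmul_eq_mul]
    ring
  rw [h3] at h2
  have h4 := (abs_le.1 h1).1
  set β := μ.real B with hβ
  set s := μ.real (σ.sw E B) with hs
  rw [hw] at h4
  have h5 : (M - (cnt E x M : ℝ)) * β ≤ (M - (a - (a - s) / 3) * M) * β :=
    mul_le_mul_of_nonneg_right (by linarith) h0.le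
  have h6 : 0 < (a - s) * (M * β) := mul_pos (by linarith) (mul_pos hMpos h0)
  nlinarith

end Pool.Agent.DOR
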